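import Pool.Agent.N254.SQ.Size
import Pool.Agent.N254.SQ.Logd
import Pool.Agent.N254.SQ.Form
import Pool.Agent.N254.SQ.Top
import Pool.Agent.N254.SQ.Exp
import Pool.Agent.N254.SQ.Circ
import Pool.Agent.N254.SQ.LeDet
import Pool.Agent.N254.SQ.Wr

/-!
Entire curves along which a sum of terms vanishes minimally, where each term is a power `G ℓ ^ D` of a
linear form with a factor of small degree, or has no zeros.
-/

set_option autoImplicit false

namespace Pool.Agent.W2helper39.LC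

open MvPolynomial Filter Topology Asymptotics ValueDistribution
open Pool.Agent.N131.SR (Big NZ)
open Pool.Agent.N254.SQ

/-- the logarithmic derivative of a term without zeros -/
theorem logd_free (n : ℕ) (f : Fin (n + 1) → ℂ → ℂ) (hf : ∀ j, Differentiable ℂ (f j))
    (h0 : ∀ z, ∃ j, f j z ≠ 0) (L : Filter ℝ) (H : Cmp L (Tf f)) (hτ : ∀ᶠ r in L, 0 ≤ Tf f r)
    (e k : ℕ) (he : 1 ≤ e) (F : MvPolynomial (Fin (n + 1)) ℂ) (hF : F.IsHomogeneous k)
    (l : Fin (n + 1)) (hl : ∃ z, f l z ≠ 0) (hF0 : ∀ z, eval (fun j => f j z) F ≠ 0) :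
    Le L (Tf f) (e + 2) (logDeriv fun z => eval (fun j => f j z) F / f l z ^ k) := by
  have dF := form_diff hf F
  have dl := hf l
  have nl := logd_nz dl hl
  have hX : (X l ^ k : MvPolynomial (Fin (n + 1)) ℂ).IsHomogeneous k := by
    have := (isHomogeneous_X ℂ l).pow k
    rwa [one_mul] at this
  obtain ⟨C₁, hC₁⟩ := t_form n f hf h0 k F (X l ^ k) hF hX (by
    obtain ⟨z, hz⟩ := hl
    refine ⟨z, ?_⟩
    rw [map_pow, eval_X]
    exact pow_ne_zero _ hz)
  obtain ⟨C₂, hC₂⟩ := t_form n f hf h0 1 (X l) (X l) (isHomogeneous_X ℂ l) (isHomogeneous_X ℂ l) (by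
    obtain ⟨z, hz⟩ := hl
    exact ⟨z, by rw [eval_X]; exact hz⟩)
  simp only [map_pow, eval_X] at hC₁ hC₂
  have oT : ∀ (c C : ℝ), (fun r => c * Tf f r + C) =O[L] Tf f := fun c C =>
    ((isBigO_refl _ _).const_mul_left c).add (H.const C).isBigO
  obtain ⟨w, hw⟩ : ∃ w : ℂ → ℂ, w = fun z => eval (fun j => f j z) F / f l z ^ k := ⟨_, rfl⟩
  have o4 : OT L (Tf f) w := by
    rw [hw]
    exact ⟨fun z => (diff_mero dF z).div ((diff_mero dl z).pow k),
      H.O_of_le (fun r hr => ⟨char_nonneg _ hr, (hC₁ r hr).1⟩) (oT k C₁)⟩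
  have hwm : Meromorphic w := o4.1
  have hprox := ld_o H o4
  have hFo : ∀ z, meromorphicOrderAt (fun z => eval (fun j => f j z) F) z = 0 := by
    intro z
    rw [(dF.analyticAt z).meromorphicOrderAt_eq, (dF.analyticAt z).analyticOrderAt_eq_zero.2 (hF0 z)]
    rfl
  have hord : ∀ z, meromorphicOrderAt w z = - ((k : ℕ) * meromorphicOrderAt (f l) z) := by
    intro z
    have h1 : meromorphicOrderAt w z = meromorphicOrderAt (fun z => eval (fun j => f j z) F) z -
          meromorphicOrderAt (f l ^ k) z := by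
      rw [hw]
      exact meromorphicOrderAt_div (diff_mero dF z) ((diff_mero dl z).pow k)
    rw [h1, meromorphicOrderAt_pow (diff_mero dl z), hFo, zero_sub]
  have hwnz : NZ w := by
    refine nz_of_ne hwm (Eventually.frequently ?_)
    filter_upwards [diff_ne dF ⟨0, hF0 0⟩, diff_ne dl hl] with z z1 z2
    rw [hw]
    exact div_ne_zero z1 (pow_ne_zero _ z2)
  rw [← hw]
  refine ⟨hwm.deriv.div hwm, fun r => proximity (logDeriv w) ⊤ r + (C₂ + C₂ + C₂), ?_, ?_⟩
  · exact hprox.add (H.const _)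
  · filter_upwards [H.ge, hτ] with r hr hr0
    have h1 := logd_count hwm hwnz dl nl dl nl dl nl (fun z _ _ z3 => by
      rw [hord z, z3]
      simp) hr
    have h4 := (hC₂ r hr).2
    have he' : (1 : ℝ) ≤ e := by exact_mod_cast he
    unfold characteristic
    simp only [Pi.add_apply]
    push_cast at h4
    nlinarith

theorem size_c (n e M : ℕ) (he : 1 ≤ e) : ∃ D₁ : ℕ, ∀ D, D₁ ≤ D → ∀ (κ : Type) [Fintype κ],
    Fintype.card κ ≤ M → 2 ≤ Fintype.card κ →
    ∀ (F G lf : κ → MvPolynomial (Fin (n + 1)) ℂ) (S : Finset κ) (p : Fin (n + 1) → ℕ)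
      (ψ : Fin (n + 1) → κ), Function.Injective p →
      (∀ t ∈ S, (G t).IsHomogeneous e ∧ (lf t).IsHomogeneous 1 ∧ F t = G t * lf t ^ D) →
      (∀ t, (F t).IsHomogeneous (D + e)) → (∀ i, ψ i ∈ S ∧ lf (ψ i) = lin ℂ n (p i)) →
      ∀ f : Fin (n + 1) → ℂ → ℂ, (∀ j, Differentiable ℂ (f j)) → (∀ z, ∃ j, f j z ≠ 0) →
      (∀ t, t ∉ S → ∀ z, eval (fun j => f j z) (F t) ≠ 0) →
      (∀ z, ∑ t, eval (fun j => f j z) (F t) = 0) →
      (∀ B : Finset κ, B.Nonempty → B ≠ Finset.univ → ∃ z, ∑ t ∈ B,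
        eval (fun j => f j z) (F t) ≠ 0) →
      ∀ i j z w, f i z * f j w = f j z * f i w := by
  classical
  choose Cd hCd using t_ledet
  obtain ⟨C₀, hC₀⟩ : ∃ C₀ : ℝ,
    C₀ = 2 * (((e : ℝ) + 2) * ∑ m ∈ Finset.range (M + 1), Cd m) := ⟨_, rfl⟩
  have hC₀0 : 0 ≤ C₀ := by
    rw [hC₀]
    have : 0 ≤ ∑ m ∈ Finset.range (M + 1), Cd m := Finset.sum_nonneg fun m _ => (hCd m).1
    positivity
  obtain ⟨D₁, hD₁⟩ := exists_nat_gt (((n : ℝ) + 1) * (M * C₀ + e))
  refine ⟨D₁ + 1, ?_⟩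
  intro D hD κ _ hM h2c F G lf S p ψ hp hS hFh hψ f hf hf0 hfree hsum hsub
  by_contra hcon
  push Not at hcon
  obtain ⟨L, H, hτ0⟩ := t_exp n f hf hf0 (by
    obtain ⟨i, j, z, w, h⟩ := hcon
    exact ⟨i, j, z, w, h⟩)
  set g : Fin (n + 1) → ℂ → ℂ := fun j z => f j (Complex.exp z) with hg
  set τ : ℝ → ℝ := Tf g with hτ
  have hgd : ∀ j, Differentiable ℂ (g j) := fun j => (hf j).comp Complex.differentiable_exp
  have hg0 : ∀ z, ∃ j, g j z ≠ 0 := fun z => hf0 _
  have hD1 : 1 ≤ D := by omega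
  -- the terms
  set U : κ → ℂ → ℂ := fun t z => eval (fun j => f j z) (F t) with hU
  have hUd : ∀ t, Differentiable ℂ (U t) := fun t => form_diff hf (F t)
  set u : κ → ℂ → ℂ := fun t z => eval (fun j => g j z) (F t) with hu
  have hud : ∀ t, Differentiable ℂ (u t) := fun t => form_diff hgd (F t)
  have huU : ∀ t z, u t z = U t (Complex.exp z) := fun t z => rfl
  have husum : ∀ z, ∑ t, u t z = 0 := fun z => hsum (Complex.exp z)
  have husub : ∀ B : Finset κ, B.Nonempty → B ≠ Finset.univ → ∃ z, ∑ t ∈ B, u t z ≠ 0 := by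
    intro B hB hB'
    obtain ⟨z, hz⟩ := hsub B hB hB'
    have hc : Continuous fun z => ∑ t ∈ B, U t z :=
      continuous_finsetSum _ fun t _ => (hUd t).continuous
    exact size_exp hc hz
  have hu0 : ∀ t, ∃ z, u t z ≠ 0 := by
    intro t
    obtain ⟨z, hz⟩ := husub {t} (Finset.singleton_nonempty t) (by
      intro h
      have := congrArg Finset.card h
      rw [Finset.card_singleton, Finset.card_univ] at this
      omega)
    rw [Finset.sum_singleton] at hz
    exact ⟨z, hz⟩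
  have hpow : ∀ t ∈ S, ∀ z, u t z = eval (fun j => g j z) (G t) *
      eval (fun j => g j z) (lf t) ^ D := by
    intro t ht z
    rw [hu]
    simp only
    rw [(hS t ht).2.2, map_mul, map_pow]
  have hG0 : ∀ t ∈ S, ∃ z, eval (fun j => g j z) (G t) ≠ 0 := by
    intro t ht
    obtain ⟨z, hz⟩ := hu0 t
    rw [hpow t ht] at hz
    exact ⟨z, left_ne_zero_of_mul hz⟩
  have hl0 : ∀ t ∈ S, ∃ z, eval (fun j => g j z) (lf t) ≠ 0 := by
    intro t ht
    obtain ⟨z, hz⟩ := hu0 t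
    rw [hpow t ht] at hz
    refine ⟨z, fun h => right_ne_zero_of_mul hz ?_⟩
    rw [h]
    exact zero_pow (by omega)
  obtain ⟨l, hl⟩ : ∃ l, ∃ z, g l z ≠ 0 := by
    obtain ⟨l, hl⟩ := hg0 0
    exact ⟨l, 0, hl⟩
  have hlog : ∀ t, Le L τ (e + 2) (logDeriv fun w => u t w / g l w ^ (D + e)) := by
    intro t
    by_cases hts : t ∈ S
    · have h5 := t_logd t_form n g hgd hg0 L H e D (G t) (lf t) (hS t hts).1 (hS t hts).2.1 l hl
        (hG0 t hts) (hl0 t hts)
      have h6 : (fun z => eval (fun j => g j z) (G t) * eval (fun j => g j z) (lf t) ^ D /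
          g l z ^ (D + e)) = fun w => u t w / g l w ^ (D + e) := by
        funext z
        rw [hpow t hts]
      rwa [h6] at h5
    · exact logd_free n g hgd hg0 L H hτ0 e (D + e) he (F t) (hFh t) l hl
        fun z => hfree t hts _
  -- the graph
  let Gr : SimpleGraph κ :=
    { Adj := fun i j => i ≠ j ∧ (Le L τ C₀ fun z => u i z / u j z) ∧
        Le L τ C₀ fun z => u j z / u i z
      symm := ⟨fun i j h => ⟨h.1.symm, h.2.2, h.2.1⟩⟩
      loopless := ⟨fun i h => h.1 rfl⟩ }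
  have hreach : ∀ i j, Gr.Reachable i j := by
    refine t_circ (ℂ → ℂ) κ u (by
      funext z
      rw [Finset.sum_apply]
      exact husum z) (by
      intro B hB hB' h
      obtain ⟨z, hz⟩ := husub B hB hB'
      apply hz
      have := congrFun h z
      rwa [Finset.sum_apply] at this) Gr.Reachable Gr.reachable_is_equivalence ?_
    intro a ha hasum hmin i j hai haj
    by_cases hij : i = j
    · rw [hij]
    · have hfun : ∀ b : κ → ℂ, (∀ z, ∑ i, b i * u i z = 0) → ∑ i, b i • u i = 0 := by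
        intro b hb
        funext z
        rw [Finset.sum_apply]
        exact hb z
      have hfun' : ∀ z, ∑ i, a i * u i z = 0 := by
        intro z
        have := congrFun hasum z
        rw [Finset.sum_apply] at this
        exact this
      have hs : Differentiable ℂ fun w => g l w ^ (D + e) := (hgd l).pow _
      have hs0 : ∃ z, g l z ^ (D + e) ≠ 0 := by
        obtain ⟨z, hz⟩ := hl
        exact ⟨z, pow_ne_zero _ hz⟩
      have hmin' : ∀ b : κ → ℂ, (∀ i, a i = 0 → b i = 0) → (∀ z, ∑ i, b i * u i z = 0) →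
          ∃ c : ℂ, b = c • a := fun b hb hb' => hmin b hb (hfun b hb')
      refine SimpleGraph.Adj.reachable ⟨hij, ?_, ?_⟩
      · rw [hC₀]
        exact size_circuit t_wr H hτ0 Cd hCd hM u hud _ hs hs0 hlog a hfun'
          hmin' hij hai haj
      · rw [hC₀]
        exact size_circuit t_wr H hτ0 Cd hCd hM u hud _ hs hs0 hlog a hfun'
          hmin' (Ne.symm hij) haj hai
  have hratio : ∀ i j, Le L τ (M * C₀) fun z => u i z / u j z := by
    intro i j
    obtain ⟨w, hw⟩ := (hreach i j).exists_isPath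
    have h8 := size_walk H u hud hu0 C₀ Gr (fun i j h => h.2.1) w
    refine size_mono hτ0 ?_ h8
    refine mul_le_mul_of_nonneg_right ?_ hC₀0
    have := hw.length_lt
    exact_mod_cast (by omega : w.length ≤ M)
  -- the linear forms
  set ℓ : Fin (n + 1) → ℂ → ℂ := fun i z => eval (fun j => g j z) (lin ℂ n (p i)) with hℓ
  have hℓf : ∀ i z, eval (fun j => g j z) (lf (ψ i)) = ℓ i z := fun i z => by rw [(hψ i).2]
  have hℓd : ∀ i, Differentiable ℂ (ℓ i) := fun i => form_diff hgd _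
  have hA : LinearIndependent ℂ (fun i j : Fin (n + 1) => ((p i : ℕ) : ℂ) ^ (j : ℕ)) := by
    have h8 : (Matrix.vandermonde fun i : Fin (n + 1) => ((p i : ℕ) : ℂ)).det ≠ 0 := by
      rw [Matrix.det_vandermonde_ne_zero_iff]
      intro i j hij
      exact hp (Nat.cast_injective hij)
    exact Matrix.linearIndependent_rows_of_det_ne_zero h8
  have hℓ0 : ∀ i, ∃ z, ℓ i z ≠ 0 := fun i => by
    obtain ⟨z, hz⟩ := hl0 (ψ i) (hψ i).1
    exact ⟨z, by rwa [hℓf] at hz⟩
  have hℓeq : ∀ i z, ∑ j : Fin (n + 1), (((p i : ℕ) : ℂ) ^ (j : ℕ)) * g j z = ℓ i z := fun i z =>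
    (size_lin _ _).symm
  obtain ⟨Ct, hCt⟩ := t_top n g hgd hg0 (fun i j => ((p i : ℕ) : ℂ) ^ (j : ℕ)) hA 0 (by
    obtain ⟨z, hz⟩ := hℓ0 0
    exact ⟨z, by rw [hℓeq]; exact hz⟩)
  simp only [hℓeq] at hCt
  have hpowl : ∀ i, Le L τ (M * C₀ + e) fun z => (ℓ i z / ℓ 0 z) ^ D := by
    intro i
    have gi := hG0 (ψ i) (hψ i).1
    have g0 := hG0 (ψ 0) (hψ 0).1
    obtain ⟨Cf, hCf⟩ := t_form n g hgd hg0 e (G (ψ 0)) (G (ψ i)) (hS _ (hψ _).1).1
      (hS _ (hψ _).1).1 gi
    have h8 : Le L τ e fun z => eval (fun j => g j z) (G (ψ 0)) / eval (fun j => g j z) (G (ψ i)) := by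
      refine ⟨(diff_mero (form_diff hgd _)).div (diff_mero (form_diff hgd _)), fun _ => Cf,
        H.const Cf, ?_⟩
      filter_upwards [H.ge] with r hr
      exact (hCf r hr).1
    have hmp : Meromorphic fun z => (ℓ i z / ℓ 0 z) ^ D := fun z =>
      (((diff_mero (hℓd i)).div (diff_mero (hℓd 0))) z).pow D
    refine size_congr H (size_mul H (hratio (ψ i) (ψ 0)) h8) hmp ?_
    filter_upwards [diff_ne (form_diff hgd (G (ψ 0))) g0,
      diff_ne (form_diff hgd (G (ψ i))) gi, diff_ne (hℓd 0) (hℓ0 0)] with z hz1 hz2 hz3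
    rw [hpow _ (hψ i).1, hpow _ (hψ 0).1, hℓf, hℓf]
    have hz4 := pow_ne_zero D hz3
    rw [div_pow]
    field_simp
  -- the final inequality
  have hfin : ∃ s : ℝ → ℝ, s =o[L] τ ∧
      ∀ᶠ r in L, (D : ℝ) * τ r ≤ ((n : ℝ) + 1) * (M * C₀ + e) * τ r + s r := by
    choose ml s hs hb using hpowl
    refine ⟨fun r => ∑ i, s i r + D * Ct, (IsLittleO.fun_sum fun i _ => hs i).add (H.const _), ?_⟩
    filter_upwards [eventually_all.2 hb, H.ge] with r hr hr1
    have h9 := mul_le_mul_of_nonneg_left (hCt r hr1) (Nat.cast_nonneg (α := ℝ) D)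
    refine h9.trans ?_
    rw [mul_add, Finset.mul_sum]
    have h10 : ∀ i, (D : ℝ) * characteristic (fun z => ℓ i z / ℓ 0 z) ⊤ r ≤
        (M * C₀ + e) * τ r + s i r := by
      intro i
      have h11 : characteristic (fun z => (ℓ i z / ℓ 0 z) ^ D) ⊤ r =
          (D : ℝ) * characteristic (fun z => ℓ i z / ℓ 0 z) ⊤ r := by
        have h12 := characteristic_pow_top (n := D) ((diff_mero (hℓd i)).div (diff_mero (hℓd 0)))
        have h13 : (fun z => (ℓ i z / ℓ 0 z) ^ D) = (ℓ i / ℓ 0) ^ D := rfl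
        have h15 : (fun z => ℓ i z / ℓ 0 z) = ℓ i / ℓ 0 := rfl
        rw [h13, h12, h15, Pi.smul_apply, nsmul_eq_mul]
      rw [← h11]
      exact hr i
    have h14 := Finset.sum_le_sum fun i (_ : i ∈ (Finset.univ : Finset (Fin (n + 1)))) => h10 i
    rw [Finset.sum_add_distrib, Finset.sum_const, Finset.card_univ, Fintype.card_fin,
      nsmul_eq_mul] at h14
    push_cast at h14
    linarith
  obtain ⟨s, hs, hb⟩ := hfin
  have hne : L.NeBot := H.big.ne
  have hgap : 0 < (D : ℝ) - ((n : ℝ) + 1) * (M * C₀ + e) := by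
    have : (D₁ : ℝ) ≤ D := by exact_mod_cast (by omega : D₁ ≤ D)
    linarith
  set δ : ℝ := (D : ℝ) - ((n : ℝ) + 1) * (M * C₀ + e) with hδ
  have h8 := isLittleO_iff.1 hs (show 0 < δ / 2 by positivity)
  have h9 := isLittleO_iff.1 H.one (show (0 : ℝ) < 1 by norm_num)
  obtain ⟨r, hr1, hr2, hr3, hr4⟩ := (h8.and (h9.and (hb.and hτ0))).exists
  rw [Real.norm_eq_abs, Real.norm_eq_abs, abs_of_nonneg hr4] at hr1
  rw [Real.norm_eq_abs, Real.norm_eq_abs, abs_of_nonneg hr4, abs_one, one_mul] at hr2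
  have h10 := le_abs_self (s r)
  have h11 : δ * τ r ≤ δ / 2 * τ r := by
    have : δ * τ r = D * τ r - ((n : ℝ) + 1) * (M * C₀ + e) * τ r := by rw [hδ]; ring
    linarith
  nlinarith

end Pool.Agent.W2helper39.LC
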