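import Pool.Agent.W2helper39.LC.FreeD

/-!
Maps from punctured discs along which a sum of terms vanishes minimally, where each term is a power
`G ℓ ^ D` of a linear form with a factor of small degree, and one term may have no zeros.
-/

set_option autoImplicit false

namespace Pool.Agent.W2helper39.LC

open MvPolynomial Filter Topology Asymptotics ValueDistribution Metric
open Pool.Agent.N131.SR (Big NZ)
open Pool.Agent.W603.BP (Ext Ext_open Ext_preconn Ext_mono Ext_nonempty ext_ne_zero)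
open Pool.Agent.N254.SQ

/-- the logarithmic derivatives of the terms -/
theorem sized_term {L : Filter ℝ} {τ : ℝ → ℝ} (H : Cmp L τ) (h0 : ∀ᶠ r in L, 0 ≤ τ r) {R : ℝ} (hR : 0 < R) {n e D : ℕ}
    {f : Fin (n + 1) → ℂ → ℂ} (hf : ∀ j, AnalyticOnNhd ℂ (f j) (Ext R)) {l : Fin (n + 1)}
    (hl : ∃ z ∈ Ext R, f l z ≠ 0) (hx : ∀ j, LeP L τ 1 fun z => f j z * (f l z)⁻¹)
    {G ℓ : MvPolynomial (Fin (n + 1)) ℂ} (hG : G.IsHomogeneous e) (hℓ : ℓ.IsHomogeneous 1)
    {Cl : ℝ} (hlx : LeP L τ Cl fun z => eval (fun j => f j z * (f l z)⁻¹) ℓ)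
    (hG0 : ∃ z ∈ Ext R, eval (fun j => f j z) G ≠ 0)
    (hℓ0 : ∃ z ∈ Ext R, eval (fun j => f j z) ℓ ≠ 0) :
    LeP L τ (4 * sizepC n e + 4 * Cl) (logDeriv fun z =>
      (eval (fun j => f j z) G * eval (fun j => f j z) ℓ ^ D) / f l z ^ (D + e)) := by
  have h1 := sizep_logd lepalg lepder H h0 (sizep_form lepalg t_lepadd H h0 hG hx)
  have h2 := lepalg.mul L τ H _ _ _ _ (lepalg.const L τ H (D : ℂ)) (sizep_logd lepalg lepder H h0 hlx)
  rw [zero_add] at h2
  have h3 := t_lepadd L τ H h0 _ _ _ _ h1 h2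
  refine lepalg.congr L τ _ R _ _ ?_ h3
  have hGa : AnalyticOnNhd ℂ (fun z => eval (fun j => f j z) G) (Ext R) :=
    fun z hz => sizep_an (fun j => hf j z hz) G
  have hℓa : AnalyticOnNhd ℂ (fun z => eval (fun j => f j z) ℓ) (Ext R) :=
    fun z hz => sizep_an (fun j => hf j z hz) ℓ
  filter_upwards [sizep_ne hR (hf l) hl, sizep_ne hR hGa hG0, sizep_ne hR hℓa hℓ0,
    self_mem_codiscreteWithin (Ext R)] with z e1 e2 e3 hz
  have hev : ∀ᶠ w in 𝓝 z, f l w ≠ 0 := (hf l z hz).continuousAt.eventually_ne e1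
  have hGx : ∀ w, eval (fun j => f j w * (f l w)⁻¹) G = ((f l w)⁻¹) ^ e * eval (fun j => f j w) G :=
    fun w => sizep_hom hG _ _
  have hℓx : ∀ w, eval (fun j => f j w * (f l w)⁻¹) ℓ = ((f l w)⁻¹) ^ 1 * eval (fun j => f j w) ℓ :=
    fun w => sizep_hom hℓ _ _
  have hxa : ∀ j, AnalyticAt ℂ (fun w => f j w * (f l w)⁻¹) z := fun j =>
    (hf j z hz).fun_mul ((hf l z hz).fun_inv e1)
  have hGxa := sizep_an hxa G
  have hℓxa := sizep_an hxa ℓ
  have hfun : (fun w => (eval (fun j => f j w) G * eval (fun j => f j w) ℓ ^ D) / f l w ^ (D + e))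
      =ᶠ[𝓝 z] fun w => eval (fun j => f j w * (f l w)⁻¹) G *
        (fun w => eval (fun j => f j w * (f l w)⁻¹) ℓ ^ D) w := by
    filter_upwards [hev] with w hw
    simp only [hGx, hℓx, pow_one]
    rw [pow_add, mul_pow, inv_pow, inv_pow]
    field_simp
  have hld : logDeriv (fun w => (eval (fun j => f j w) G * eval (fun j => f j w) ℓ ^ D) /
      f l w ^ (D + e)) z = logDeriv (fun w => eval (fun j => f j w * (f l w)⁻¹) G *
        (fun w => eval (fun j => f j w * (f l w)⁻¹) ℓ ^ D) w) z := by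
    rw [logDeriv_apply, logDeriv_apply, hfun.deriv_eq, hfun.eq_of_nhds]
  have hn1 : eval (fun j => f j z * (f l z)⁻¹) G ≠ 0 := by
    rw [hGx]
    exact mul_ne_zero (pow_ne_zero _ (inv_ne_zero e1)) e2
  have hn2 : eval (fun j => f j z * (f l z)⁻¹) ℓ ≠ 0 := by
    rw [hℓx]
    exact mul_ne_zero (pow_ne_zero _ (inv_ne_zero e1)) e3
  rw [hld, logDeriv_mul (f := fun w => eval (fun j => f j w * (f l w)⁻¹) G)
    (g := fun w => eval (fun j => f j w * (f l w)⁻¹) ℓ ^ D) z hn1 (pow_ne_zero D hn2)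
    hGxa.differentiableAt (hℓxa.differentiableAt.fun_pow D)]
  rw [logDeriv_fun_pow hℓxa.differentiableAt D]

theorem size_d (n e M : ℕ) : ∃ D₁ : ℕ, ∀ D, D₁ ≤ D → ∀ (κ : Type) [Fintype κ],
    Fintype.card κ ≤ M → 2 ≤ Fintype.card κ →
    ∀ (F G lf : κ → MvPolynomial (Fin (n + 1)) ℂ) (S : Finset κ) (p : Fin (n + 1) → ℕ)
      (ψ : Fin (n + 1) → κ), Function.Injective p →
      (∀ t ∈ S, (G t).IsHomogeneous e ∧ (lf t).IsHomogeneous 1 ∧ F t = G t * lf t ^ D) →
      (∀ t t', t ∉ S → t' ∉ S → t = t') → (∀ i, ψ i ∈ S ∧ lf (ψ i) = lin ℂ n (p i)) →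
      ∀ (R : ℝ) (f : Fin (n + 1) → ℂ → ℂ), 0 < R → (∀ j, AnalyticOnNhd ℂ (f j) (Ext R)) →
      (∀ t, t ∉ S → ∀ z ∈ Ext R, ∃ m : ℤ,
        meromorphicOrderAt (fun z => eval (fun j => f j z) (F t)) z =
          (((D + e : ℕ) * m : ℤ) : WithTop ℤ)) →
      (∀ z ∈ Ext R, ∑ t, eval (fun j => f j z) (F t) = 0) →
      (∀ B : Finset κ, B.Nonempty → B ≠ Finset.univ → ∃ z ∈ Ext R, ∑ t ∈ B,
        eval (fun j => f j z) (F t) ≠ 0) →
      ∀ i l, (∃ z ∈ Ext R, f l z ≠ 0) → ∃ (ρ : ℂ → ℂ) (b : ℝ), MeromorphicAt ρ 0 ∧ R ≤ b ∧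
        ∀ z ∈ Ext b, f i z = ρ z⁻¹ * f l z := by
  classical
  choose Cd hCd using t_lepdet lepalg t_lepadd lepder
  have hS0 : 0 ≤ ∑ m ∈ Finset.range (M + 1), Cd m := Finset.sum_nonneg fun m _ => (hCd m).1
  obtain ⟨Ce, hCe⟩ : ∃ Ce : ℝ, Ce = sizepC n e := ⟨_, rfl⟩
  have hCe0 : 0 ≤ Ce := by
    rw [hCe]
    unfold sizepC
    positivity
  obtain ⟨Cl, hCl⟩ : ∃ Cl : ℝ, Cl = sizepC n 1 := ⟨_, rfl⟩
  have hCl0 : 0 ≤ Cl := by
    rw [hCl]
    unfold sizepC
    positivity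
  obtain ⟨κ₀, hκ₀⟩ : ∃ κ₀ : ℝ, κ₀ = 4 * (((M : ℝ) + 1) * (Ce + Cl)) := ⟨_, rfl⟩
  have hκ₀0 : 0 ≤ κ₀ := by rw [hκ₀]; positivity
  obtain ⟨C₀, hC₀⟩ : ∃ C₀ : ℝ, C₀ = 2 * (κ₀ * ∑ m ∈ Finset.range (M + 1), Cd m) := ⟨_, rfl⟩
  have hC₀0 : 0 ≤ C₀ := by rw [hC₀]; positivity
  obtain ⟨C₁, hC₁⟩ : ∃ C₁ : ℝ, C₁ = M * C₀ + 2 * Ce := ⟨_, rfl⟩
  have hC₁0 : 0 ≤ C₁ := by rw [hC₁]; positivity
  obtain ⟨D₁, hD₁⟩ := exists_nat_gt (4 * (((n : ℝ) + 1) ^ 2 * C₁))
  refine ⟨D₁ + 1, ?_⟩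
  intro D hD κ _ hM h2c Fm G lf S p ψ hp hS hone hψ R f hR hf hfree hsum hsub i₀ l hl
  have hD1 : 1 ≤ D := by omega
  have hfl0 := sizep_ne hR (hf l) hl
  -- representations
  choose aa haa1 haaR F hF using fun j => t_repan R (f j) hR (hf j)
  obtain ⟨a, ha⟩ : ∃ a : ℝ, a = ∑ j, aa j := ⟨_, rfl⟩
  have haj : ∀ j, aa j ≤ a := by
    intro j
    rw [ha]
    exact Finset.single_le_sum (f := aa) (fun i _ => by linarith [haa1 i]) (Finset.mem_univ j)
  have ha1 : 1 ≤ a := (haa1 0).trans (haj 0)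
  have hFa : ∀ j, Rp a (f j) (F j) := fun j => lepalg.mono_rp _ _ _ _ (haa1 j) (haj j) (hF j)
  obtain ⟨Hc, hHc⟩ : ∃ Hc : Fin (n + 1) → ℂ → ℂ, Hc = fun j z => F j z * (F l z)⁻¹ := ⟨_, rfl⟩
  have hRp : ∀ j, Rp a (fun z => f j z * (f l z)⁻¹) (Hc j) := by
    intro j
    rw [hHc]
    exact lepalg.rp_mul a (f j) (fun z => (f l z)⁻¹) (F j) (fun z => (F l z)⁻¹) ha1 (hFa j)
      (lepalg.rp_inv a (f l) (F l) ha1 (hFa l))
  have hHm : ∀ j, Meromorphic (Hc j) := fun j => sizep_qe (hRp j).1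
  rcases t_filt (n + 1) Hc hHm with ⟨C, hC⟩ | ⟨L, H⟩
  · -- logarithmic growth
    obtain ⟨ρ, b, hρ, hb, he⟩ := t_ratp a _ (Hc i₀) C ha1 (hRp i₀) (fun r hr =>
      (Finset.single_le_sum (f := fun i => characteristic (Hc i) ⊤ r)
        (fun j _ => char_nonneg _ hr) (Finset.mem_univ i₀)).trans (hC r hr))
    exact sizep_rat (hf i₀) (hf l) hfl0 hρ hb he
  exfalso
  obtain ⟨τ, hτ⟩ : ∃ τ : ℝ → ℝ, τ = fun r => ∑ i, characteristic (Hc i) ⊤ r := ⟨_, rfl⟩
  rw [← hτ] at H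
  have hτ0 : ∀ᶠ r in L, 0 ≤ τ r := by
    filter_upwards [H.ge] with r hr
    rw [hτ]
    exact Finset.sum_nonneg fun i _ => char_nonneg _ hr
  -- the coordinates
  have hx : ∀ j, LeP L τ 1 fun z => f j z * (f l z)⁻¹ := by
    intro j
    refine ⟨a, ha1, Hc j, hRp j, hHm j, fun _ => 0, isLittleO_zero _ _, ?_⟩
    filter_upwards [H.ge] with r hr
    rw [hτ, one_mul, add_zero]
    exact Finset.single_le_sum (f := fun i => characteristic (Hc i) ⊤ r)
        (fun j _ => char_nonneg _ hr) (Finset.mem_univ j)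
  have hlx : ∀ ℓ : MvPolynomial (Fin (n + 1)) ℂ, ℓ.IsHomogeneous 1 → LeP L τ Cl fun z =>
      eval (fun j => f j z * (f l z)⁻¹) ℓ := by
    intro ℓ hℓ
    rw [hCl]
    exact sizep_form lepalg t_lepadd H hτ0 hℓ hx
  -- the terms
  obtain ⟨u, hu⟩ : ∃ u : κ → ℂ → ℂ, u = fun t z => eval (fun j => f j z) (Fm t) := ⟨_, rfl⟩
  have hGan : ∀ t, AnalyticOnNhd ℂ (fun z => eval (fun j => f j z) (G t)) (Ext R) :=
    fun t z hz => sizep_an (fun j => hf j z hz) _
  have hlan : ∀ t, AnalyticOnNhd ℂ (fun z => eval (fun j => f j z) (lf t)) (Ext R) :=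
    fun t z hz => sizep_an (fun j => hf j z hz) _
  have hua : ∀ t, AnalyticOnNhd ℂ (u t) (Ext R) := by
    intro t z hz
    rw [hu]
    exact sizep_an (fun j => hf j z hz) _
  have hupow : ∀ t ∈ S, ∀ z, u t z = eval (fun j => f j z) (G t) *
      eval (fun j => f j z) (lf t) ^ D := by
    intro t ht z
    rw [hu]
    simp only
    rw [(hS t ht).2.2, map_mul, map_pow]
  have husum : ∀ z ∈ Ext R, ∑ t, u t z = 0 := by
    rw [hu]
    exact hsum
  have husub : ∀ B : Finset κ, B.Nonempty → B ≠ Finset.univ →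
      ∃ z ∈ Ext R, ∑ t ∈ B, u t z ≠ 0 := by
    rw [hu]
    exact hsub
  have hu0 : ∀ t, ∃ z ∈ Ext R, u t z ≠ 0 := by
    intro t
    obtain ⟨z, hz, hz2⟩ := husub {t} (Finset.singleton_nonempty t) (by
      intro h
      have := congrArg Finset.card h
      rw [Finset.card_singleton, Finset.card_univ] at this
      omega)
    rw [Finset.sum_singleton] at hz2
    exact ⟨z, hz, hz2⟩
  have hG0 : ∀ t ∈ S, ∃ z ∈ Ext R, eval (fun j => f j z) (G t) ≠ 0 := by
    intro t ht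
    obtain ⟨z, hz, hz2⟩ := hu0 t
    rw [hupow t ht] at hz2
    exact ⟨z, hz, left_ne_zero_of_mul hz2⟩
  have hl0 : ∀ t ∈ S, ∃ z ∈ Ext R, eval (fun j => f j z) (lf t) ≠ 0 := by
    intro t ht
    obtain ⟨z, hz, hz2⟩ := hu0 t
    rw [hupow t ht] at hz2
    refine ⟨z, hz, fun h => right_ne_zero_of_mul hz2 ?_⟩
    rw [h]
    exact zero_pow (by omega)
  have hfx : ∀ (G : MvPolynomial (Fin (n + 1)) ℂ) (d : ℕ), G.IsHomogeneous d → ∀ z,
      eval (fun j => f j z * (f l z)⁻¹) G = ((f l z)⁻¹) ^ d * eval (fun j => f j z) G :=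
    fun G d hG z => sizep_hom hG _ _
  have hlog : ∀ t, LeP L τ κ₀ (logDeriv fun w => u t w / f l w ^ (D + e)) := by
    intro t
    by_cases ht : t ∈ S
    · have h11 := sized_term (D := D) H hτ0 hR hf hl hx (hS t ht).1 (hS t ht).2.1
        (hlx (lf t) (hS t ht).2.1) (hG0 t ht) (hl0 t ht)
      have h12 : (fun z => (eval (fun j => f j z) (G t) * eval (fun j => f j z) (lf t) ^ D) /
          f l z ^ (D + e)) = fun w => u t w / f l w ^ (D + e) := by
        funext z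
        rw [hupow t ht]
      rw [h12] at h11
      refine lepalg.mono L τ H hτ0 _ _ _ ?_ h11
      rw [hκ₀, ← hCe]
      have hM0 : (0 : ℝ) ≤ M := Nat.cast_nonneg M
      nlinarith [mul_nonneg hM0 hCe0, mul_nonneg hM0 hCl0]
    · have h11 : LeP L τ (((D + e : ℕ) : ℝ) * (((M : ℝ) + 1) * (Ce + Cl)))
          fun z => u t z / f l z ^ (D + e) := by
        have h12 := sizep_sum lepalg t_lepadd H hτ0 S (Ce + D * Cl)
          (fun s z => eval (fun j => f j z * (f l z)⁻¹) (G s) *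
            eval (fun j => f j z * (f l z)⁻¹) (lf s) ^ D) (fun s hs => by
            have h13 := sizep_form lepalg t_lepadd H hτ0 (hS s hs).1 hx
            rw [← hCe] at h13
            exact lepalg.mul L τ H _ _ _ _ h13
              (sizep_pow lepalg H (hlx (lf s) (hS s hs).2.1) D))
        have h13 := lepalg.mul L τ H _ _ _ _ (lepalg.const L τ H (-1 : ℂ)) h12
        rw [zero_add] at h13
        have h14 := lepalg.congr L τ _ R _ (fun z => u t z / f l z ^ (D + e)) (by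
          filter_upwards [hfl0, self_mem_codiscreteWithin (Ext R)] with z hz hzR
          have h15 := husum z hzR
          rw [← Finset.sum_add_sum_compl S] at h15
          have h16 : Sᶜ = {t} := by
            ext s
            rw [Finset.mem_compl, Finset.mem_singleton]
            exact ⟨fun h => hone s t h ht, fun h => by rw [h]; exact ht⟩
          rw [h16, Finset.sum_singleton] at h15
          have h17 : u t z = - ∑ s ∈ S, u s z := by linear_combination h15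
          rw [h17, neg_one_mul, neg_div, Finset.sum_div]
          congr 1
          refine Finset.sum_congr rfl fun s hs => ?_
          rw [hupow s hs, hfx _ _ (hS s hs).1, hfx _ _ (hS s hs).2.1, pow_one, mul_pow, inv_pow,
            inv_pow, pow_add]
          field_simp) h13
        refine lepalg.mono L τ H hτ0 _ _ _ ?_ h14
        have hM0 : (0 : ℝ) ≤ M := Nat.cast_nonneg M
        have hc : (S.card : ℝ) ≤ M + 1 := by
          have : S.card ≤ M := (Finset.card_le_univ S).trans hM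
          have h18 : (S.card : ℝ) ≤ M := by exact_mod_cast this
          linarith
        have hDr : (1 : ℝ) ≤ D := by exact_mod_cast hD1
        have her : (0 : ℝ) ≤ e := Nat.cast_nonneg e
        have h19 : Ce + D * Cl ≤ ((D + e : ℕ) : ℝ) * (Ce + Cl) := by
          push_cast
          nlinarith [mul_nonneg her hCe0, mul_nonneg her hCl0]
        have h20 : 0 ≤ Ce + D * Cl := by positivity
        calc (S.card : ℝ) * (Ce + D * Cl) ≤ (M + 1) * (Ce + D * Cl) :=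
              mul_le_mul_of_nonneg_right hc h20
          _ ≤ (M + 1) * (((D + e : ℕ) : ℝ) * (Ce + Cl)) :=
              mul_le_mul_of_nonneg_left h19 (by linarith)
          _ = _ := by ring
      have h12 := free_logd H hτ0 hR (hf l) hl (hua t) (hu0 t) (by omega) (by
        intro z hz
        rw [hu]
        exact hfree t ht z hz) h11
      refine lepalg.mono L τ H hτ0 _ _ _ ?_ h12
      rw [hκ₀]
      have hM0 : (0 : ℝ) ≤ M := Nat.cast_nonneg M
      nlinarith [mul_nonneg hM0 hCe0, mul_nonneg hM0 hCl0]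
  -- the graph
  let Gr : SimpleGraph κ :=
    { Adj := fun i j => i ≠ j ∧ (LeP L τ C₀ fun z => u i z / u j z) ∧
        LeP L τ C₀ fun z => u j z / u i z
      symm := ⟨fun i j h => ⟨h.1.symm, h.2.2, h.2.1⟩⟩
      loopless := ⟨fun i h => h.1 rfl⟩ }
  have hreach : ∀ i j, Gr.Reachable i j := by
    refine t_circ (Ext R → ℂ) κ (fun t z => u t z) (by
      funext z
      rw [Finset.sum_apply]
      exact husum z z.2) (by
      intro B hB hB' h
      obtain ⟨z, hz, hz2⟩ := husub B hB hB'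
      apply hz2
      have := congrFun h ⟨z, hz⟩
      rwa [Finset.sum_apply] at this) Gr.Reachable Gr.reachable_is_equivalence ?_
    intro a _ hasum hmin i j hai haj
    by_cases hij : i = j
    · rw [hij]
    · have hfun : ∀ b : κ → ℂ, (∀ z ∈ Ext R, ∑ i, b i * u i z = 0) →
          ∑ i, b i • (fun (z : Ext R) => u i z) = 0 := by
        intro b hb
        funext z
        rw [Finset.sum_apply]
        exact hb z z.2
      have hfun' : ∀ z ∈ Ext R, ∑ i, a i * u i z = 0 := by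
        intro z hz
        have := congrFun hasum ⟨z, hz⟩
        rw [Finset.sum_apply] at this
        exact this
      have hs : AnalyticOnNhd ℂ (fun w => f l w ^ (D + e)) (Ext R) :=
        fun z hz => (hf l z hz).fun_pow _
      have hs0 : ∃ z ∈ Ext R, f l z ^ (D + e) ≠ 0 := by
        obtain ⟨z, hz, hz2⟩ := hl
        exact ⟨z, hz, pow_ne_zero _ hz2⟩
      have hmin' : ∀ b : κ → ℂ, (∀ i, a i = 0 → b i = 0) →
          (∀ z ∈ Ext R, ∑ i, b i * u i z = 0) →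
          ∃ c : ℂ, b = c • a := fun b hb hb' => hmin b hb (hfun b hb')
      refine SimpleGraph.Adj.reachable ⟨hij, ?_, ?_⟩
      · rw [hC₀]
        exact sizep_circuit lepalg t_wrp hκ₀0 H hτ0 Cd hCd hR hM u hua _ hs hs0 hlog a hfun'
          hmin' hij hai haj
      · rw [hC₀]
        exact sizep_circuit lepalg t_wrp hκ₀0 H hτ0 Cd hCd hR hM u hua _ hs hs0 hlog a hfun'
          hmin' (Ne.symm hij) haj hai
  have hratio : ∀ i j, LeP L τ (M * C₀) fun z => u i z / u j z := by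
    intro i j
    obtain ⟨w, hw⟩ := (hreach i j).exists_isPath
    have h11 := sizep_walk lepalg H hR u hua hu0 C₀ Gr (fun i j h => h.2.1) w
    refine lepalg.mono L τ H hτ0 _ _ _ ?_ h11
    refine mul_le_mul_of_nonneg_right ?_ hC₀0
    have := hw.length_lt
    exact_mod_cast (by omega : w.length ≤ M)
  -- the linear forms
  have hlψ : ∀ i, lf (ψ i) = lin ℂ n (p i) := fun i => (hψ i).2
  have hSψ : ∀ i, ψ i ∈ S := fun i => (hψ i).1
  have hl0ψ : ∀ i, ∃ z ∈ Ext R, eval (fun j => f j z) (lin ℂ n (p i)) ≠ 0 := fun i => by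
    rw [← hlψ]
    exact hl0 _ (hSψ i)
  have hlanψ : ∀ i, AnalyticOnNhd ℂ (fun z => eval (fun j => f j z) (lin ℂ n (p i))) (Ext R) :=
    fun i => by
    rw [← hlψ]
    exact hlan _
  obtain ⟨v, hv⟩ : ∃ v : Fin (n + 1) → ℂ → ℂ, v = fun i z =>
    eval (fun j => f j z * (f l z)⁻¹) (lin ℂ n (p i)) *
      (eval (fun j => f j z * (f l z)⁻¹) (lin ℂ n (p 0)))⁻¹ := ⟨_, rfl⟩
  have hvD : ∀ i, LeP L τ C₁ fun z => v i z ^ D := by
    intro i
    have h11 := lepalg.mul L τ H _ _ _ _ (hratio (ψ i) (ψ 0)) (lepalg.mul L τ H _ _ _ _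
      (sizep_form lepalg t_lepadd H hτ0 (hS _ (hSψ 0)).1 hx)
      (lepalg.inv L τ H _ _ (sizep_form lepalg t_lepadd H hτ0 (hS _ (hSψ i)).1 hx)))
    have e1 : M * C₀ + (sizepC n e + sizepC n e) = C₁ := by rw [hC₁, hCe]; ring
    rw [e1] at h11
    refine lepalg.congr L τ _ R _ _ ?_ h11
    filter_upwards [hfl0, sizep_ne hR (hGan (ψ 0)) (hG0 _ (hSψ 0)),
      sizep_ne hR (hGan (ψ i)) (hG0 _ (hSψ i)), sizep_ne hR (hlanψ 0) (hl0ψ 0)] with z e1 e2 e3 e4
    rw [hv]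
    simp only [hupow _ (hSψ i), hupow _ (hSψ 0), hlψ, hfx _ _ (hS _ (hSψ i)).1,
      hfx _ _ (hS _ (hSψ 0)).1, hfx _ _ (sizep_lin_hom n _), pow_one]
    field_simp
    rw [div_pow, div_mul_cancel₀ _ (pow_ne_zero D e4)]
  have hε : (0 : ℝ) < D := by exact_mod_cast hD1
  obtain ⟨ε, hεd⟩ : ∃ ε : ℝ, ε = C₁ / D := ⟨_, rfl⟩
  have hvL : ∀ i, LeP L τ ε (v i) := by
    intro i
    obtain ⟨a', ha', H', hRp', _⟩ := lepalg.mul L τ H _ _ _ _ (hlx _ (sizep_lin_hom n (p i)))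
      (lepalg.inv L τ H _ _ (hlx _ (sizep_lin_hom n (p 0))))
    rw [hεd]
    refine lepalg.pow L τ H C₁ D hD1 (v i) a' H' ha' ?_ (hvD i)
    rw [hv]
    exact hRp'
  -- the inverse of the Vandermonde matrix
  obtain ⟨A, hA⟩ : ∃ A : Matrix (Fin (n + 1)) (Fin (n + 1)) ℂ,
    A = Matrix.vandermonde fun i : Fin (n + 1) => ((p i : ℕ) : ℂ) := ⟨_, rfl⟩
  have hAdet : A.det ≠ 0 := by
    rw [hA, Matrix.det_vandermonde_ne_zero_iff]
    intro i j hij
    exact hp (Nat.cast_injective hij)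
  have hinv : A⁻¹ * A = 1 := Matrix.nonsing_inv_mul A (Ne.isUnit hAdet)
  have hxA : ∀ (y : Fin (n + 1) → ℂ) (j : Fin (n + 1)),
      y j = ∑ s, A⁻¹ j s * eval y (lin ℂ n (p s)) := by
    intro y j
    have e1 : ∀ s, eval y (lin ℂ n (p s)) = (A.mulVec y) s := by
      intro s
      rw [sizep_lin, Matrix.mulVec, dotProduct, hA]
      rfl
    simp only [e1]
    have e2 : (A⁻¹.mulVec (A.mulVec y)) j = y j := by
      rw [Matrix.mulVec_mulVec, hinv, Matrix.one_mulVec]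
    rw [← e2]
    rfl
  have hxL : ∀ j, LeP L τ (2 * (((n : ℝ) + 1) * ε)) fun z => f j z * (f l z)⁻¹ := by
    intro j
    have hnum : ∀ j, LeP L τ (((n : ℝ) + 1) * ε) fun z => ∑ s, A⁻¹ j s * v s z := by
      intro j
      have e2 := sizep_sum lepalg t_lepadd H hτ0 Finset.univ ε
        (fun (s : Fin (n + 1)) z => A⁻¹ j s * v s z) (fun s _ => by
          have := lepalg.mul L τ H _ _ _ _ (lepalg.const L τ H (A⁻¹ j s)) (hvL s)
          rwa [zero_add] at this)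
      rw [Finset.card_univ, Fintype.card_fin] at e2
      push_cast at e2
      exact e2
    have h11 := lepalg.mul L τ H _ _ _ _ (hnum j) (lepalg.inv L τ H _ _ (hnum l))
    have e1 : ((n : ℝ) + 1) * ε + ((n : ℝ) + 1) * ε = 2 * (((n : ℝ) + 1) * ε) := by ring
    rw [e1] at h11
    refine lepalg.congr L τ _ R _ _ ?_ h11
    filter_upwards [hfl0, sizep_ne hR (hlanψ 0) (hl0ψ 0)] with z e1 e2
    have e3 : eval (fun j => f j z * (f l z)⁻¹) (lin ℂ n (p 0)) ≠ 0 := by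
      rw [hfx _ _ (sizep_lin_hom n _)]
      exact mul_ne_zero (pow_ne_zero _ (inv_ne_zero e1)) e2
    have e4 : ∀ j, ∑ s, A⁻¹ j s * v s z = f j z * (f l z)⁻¹ *
        (eval (fun j => f j z * (f l z)⁻¹) (lin ℂ n (p 0)))⁻¹ := by
      intro j
      have e5 : f j z * (f l z)⁻¹ = ∑ s, A⁻¹ j s *
          eval (fun j => f j z * (f l z)⁻¹) (lin ℂ n (p s)) :=
        hxA (fun j => f j z * (f l z)⁻¹) j
      rw [e5, hv, Finset.sum_mul]
      refine Finset.sum_congr rfl fun s _ => ?_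
      ring
    rw [e4, e4]
    generalize eval (fun j => f j z * (f l z)⁻¹) (lin ℂ n (p 0)) = W at e3
    field_simp
  -- the bounds of the characteristics
  have hchar : ∀ j, ∃ s : ℝ → ℝ, s =o[L] τ ∧ ∀ᶠ r in L,
      characteristic (Hc j) ⊤ r ≤ 2 * (((n : ℝ) + 1) * ε) * τ r + s r := by
    intro j
    obtain ⟨a', ha', H', hRp', _, s, hs, hb⟩ := hxL j
    have e1 := lepalg.mono_rp _ (max a a') _ _ ha' (le_max_right _ _) hRp'
    have e2 := lepalg.mono_rp _ (max a a') _ _ ha1 (le_max_left _ _) (hRp j)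
    obtain ⟨C, hC⟩ := t_uniq (max a a') _ H' (Hc j) (ha1.trans (le_max_left _ _)) e1 e2
    refine ⟨fun r => s r + C * (1 + Real.log r), hs.add ?_, ?_⟩
    · have e3 : (fun r => (1 : ℝ) + Real.log r) =o[L] τ := H.one.add H.log
      exact e3.const_mul_left C
    · filter_upwards [hb, H.ge] with r hr hr1
      have := hC r hr1
      linarith
  choose s hs hb using hchar
  have hsum2 : ∃ S : ℝ → ℝ, S =o[L] τ ∧ ∀ᶠ r in L,
      τ r ≤ ((n : ℝ) + 1) * (2 * (((n : ℝ) + 1) * ε)) * τ r + S r := by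
    refine ⟨fun r => ∑ i, s i r, IsLittleO.fun_sum fun i _ => hs i, ?_⟩
    filter_upwards [eventually_all.2 hb] with r hr
    have h14 := Finset.sum_le_sum fun i (_ : i ∈ (Finset.univ : Finset (Fin (n + 1)))) => hr i
    rw [Finset.sum_add_distrib, Finset.sum_const, Finset.card_univ, Fintype.card_fin,
      nsmul_eq_mul] at h14
    push_cast at h14
    have e1 : τ r = ∑ i, characteristic (Hc i) ⊤ r := by rw [hτ]
    calc τ r = ∑ i, characteristic (Hc i) ⊤ r := e1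
      _ ≤ _ := h14
      _ = _ := by ring
  obtain ⟨S, hS, hbS⟩ := hsum2
  have hne : L.NeBot := H.big.ne
  have hsmall : ((n : ℝ) + 1) * (2 * (((n : ℝ) + 1) * ε)) ≤ 1 / 2 := by
    have hD2 : (D₁ : ℝ) ≤ D := by exact_mod_cast (by omega : D₁ ≤ D)
    have e1 : ((n : ℝ) + 1) * (2 * (((n : ℝ) + 1) * ε)) =
        2 * (((n : ℝ) + 1) ^ 2 * C₁) / D := by
      rw [hεd]; ring
    rw [e1, div_le_iff₀ hε]
    linarith
  have e8 := isLittleO_iff.1 hS (show (0 : ℝ) < 1 / 4 by norm_num)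
  have e9 := isLittleO_iff.1 H.one (show (0 : ℝ) < 1 by norm_num)
  obtain ⟨r, hr1, hr2, hr3, hr4⟩ := (e8.and (e9.and (hbS.and hτ0))).exists
  rw [Real.norm_eq_abs, Real.norm_eq_abs, abs_of_nonneg hr4] at hr1
  rw [Real.norm_eq_abs, Real.norm_eq_abs, abs_of_nonneg hr4, abs_one, one_mul] at hr2
  have e10 := le_abs_self (S r)
  have e11 := mul_le_mul_of_nonneg_right hsmall hr4
  linarith

end Pool.Agent.W2helper39.LC
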