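import Pool.Agent.W2helper39.LC.Gt
import Pool.Agent.W2helper39.LC.SizeC
import Pool.Agent.W2helper39.LC.SizeD
import Pool.Agent.W2helper39.LC.Alg
import Pool.Agent.N254.SQ.StmQ
import Pool.Agent.N254.SQ.LocDefsQ

/-!
The complements of the hypersurfaces `ℓ ^ (D + 2) + ∑ t, Q_t (x_0 + t x_1 + ⋯) ^ D = 0`: along entire
curves, maps from punctured discs, subvarieties which are not of log general type and algebraic curves
of large degree the sum of the terms `Q_t (x_0 + t x_1 + ⋯) ^ D` has many disjoint vanishing subsums.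
-/

set_option autoImplicit false

namespace Pool.Agent.W2helper39.LC

open MvPolynomial FF Filter Topology Metric
open Pool.Agent.N254.SQ
open Pool.Agent.W602.GT (LogGeneralType coords val)
open Pool.Agent.W603.BP (Ext)
open Pool.Agent.W603.LV (canDeg)
open Pool.Agent.W603.PV (pht pord)

/-- the form `ℓ ^ (D + 2) + ∑ t, Q_t (x_0 + t x_1 + ⋯ + t ^ N x_N) ^ D` -/
noncomputable def affineForm {N M : ℕ} (D : ℕ) (ℓ : MvPolynomial (Fin (N + 1)) ℂ)
    (Q : Fin M → MvPolynomial (Fin (N + 1)) ℂ) : MvPolynomial (Fin (N + 1)) ℂ :=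
  ℓ ^ (D + 2) + ∑ t : Fin M, Q t * (∑ j : Fin (N + 1), C (((t : ℕ) : ℂ) ^ (j : ℕ)) * X j) ^ D

/-- the indices of the terms: `some (some t)`, `t < M`, for the powers of the `ℓ_t`, `some none` for the
power of `ℓ`, and `none` for the sum -/
abbrev Ix (M : ℕ) : Type := Option (Option (Fin M))

section split

/-- the indices in `Fin M` -/
def pr {M : ℕ} (B : Finset (Ix M)) : Finset (Fin M) :=
  Finset.univ.filter fun t : Fin M => (some (some t) : Ix M) ∈ B

theorem mem_pr {M : ℕ} {B : Finset (Ix M)} {t : Fin M} : t ∈ pr B ↔ (some (some t) : Ix M) ∈ B := by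
  simp [pr]

/-- a vanishing sum whose minimal vanishing subsums have few terms -/
theorem split2 {V : Type} [AddCommGroup V] {n M : ℕ} (hn : 1 ≤ n) (hM : M = n * (2 * n + 3))
    (v : Ix M → V) (hv : ∑ i, v i = 0)
    (hsize : ∀ B : Finset (Ix M), n + 1 ≤ (pr B).card → ∑ i ∈ B, v i = 0 →
      (∀ B' ⊆ B, B'.Nonempty → B' ≠ B → ∑ i ∈ B', v i ≠ 0) → False) :
    ∃ 𝓑 : Finset (Finset (Fin M)), (∀ B ∈ 𝓑, B.Nonempty) ∧
      (∀ B ∈ 𝓑, ∀ B' ∈ 𝓑, B ≠ B' → Disjoint B B') ∧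
      (∀ B ∈ 𝓑, ∑ t ∈ B, v (some (some t)) = 0) ∧ 2 * n + 1 ≤ 𝓑.card := by
  classical
  obtain ⟨𝓒, hne, hdis, hcov, hmin⟩ := t_part V (Ix M) v hv
  have hcard : ∀ B ∈ 𝓒, (pr B).card ≤ n := by
    intro B hB
    by_contra hcon
    push Not at hcon
    exact hsize B hcon (hmin B hB).1 (hmin B hB).2
  have hunion : (Finset.univ : Finset (Fin M)) ⊆ 𝓒.biUnion pr := by
    intro t _
    obtain ⟨B, hB, ht⟩ := hcov (some (some t))
    exact Finset.mem_biUnion.2 ⟨B, hB, mem_pr.2 ht⟩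
  have h1 := Finset.card_le_card hunion
  have h2 : (𝓒.biUnion pr).card ≤ 𝓒.card * n :=
    Finset.card_biUnion_le_card_mul _ _ _ fun B hB => hcard B hB
  rw [Finset.card_univ, Fintype.card_fin] at h1
  have h3 : 2 * n + 3 ≤ 𝓒.card := by
    have h4 : n * (2 * n + 3) ≤ n * 𝓒.card := by rw [← hM, mul_comm n]; exact h1.trans h2
    exact Nat.le_of_mul_le_mul_left h4 hn
  have hone : ∀ i : Ix M, (𝓒.filter fun B => i ∈ B).card ≤ 1 := by
    intro i
    rw [Finset.card_le_one]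
    intro B hB B' hB'
    rw [Finset.mem_filter] at hB hB'
    by_contra hne'
    exact Finset.disjoint_left.1 (hdis B hB.1 B' hB'.1 hne') hB.2 hB'.2
  obtain ⟨𝓒', h𝓒'⟩ : ∃ 𝓒' : Finset (Finset (Ix M)), 𝓒' = 𝓒.filter fun B : Finset (Ix M) =>
    ¬ (none ∈ B ∨ (some none : Ix M) ∈ B) := ⟨_, rfl⟩
  have hmem : ∀ B ∈ 𝓒', B ∈ 𝓒 ∧ none ∉ B ∧ (some none : Ix M) ∉ B := by
    intro B hB
    rw [h𝓒', Finset.mem_filter, not_or] at hB
    exact hB
  have h4 : 2 * n + 1 ≤ 𝓒'.card := by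
    have h5 := Finset.card_filter_add_card_filter_not (s := 𝓒)
      (fun B : Finset (Ix M) => none ∈ B ∨ (some none : Ix M) ∈ B)
    rw [← h𝓒', Finset.filter_or] at h5
    have h6 := Finset.card_union_le (𝓒.filter fun B : Finset (Ix M) => none ∈ B)
      (𝓒.filter fun B : Finset (Ix M) => (some none : Ix M) ∈ B)
    have h7 := hone none
    have h8 := hone (some none)
    omega
  have himg : ∀ B ∈ 𝓒', B = (pr B).image fun t => (some (some t) : Ix M) := by
    intro B hB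
    obtain ⟨-, h5, h6⟩ := hmem B hB
    ext i
    rw [Finset.mem_image]
    constructor
    · intro hi
      rcases i with _ | _ | t
      · exact absurd hi h5
      · exact absurd hi h6
      · exact ⟨t, mem_pr.2 hi, rfl⟩
    · rintro ⟨t, ht, rfl⟩
      exact mem_pr.1 ht
  have hinj : Set.InjOn pr (𝓒' : Set (Finset (Ix M))) := by
    intro B hB B' hB' h
    rw [himg B hB, himg B' hB', h]
  refine ⟨𝓒'.image pr, ?_, ?_, ?_, ?_⟩
  · intro B₀ hB₀
    obtain ⟨B, hB, rfl⟩ := Finset.mem_image.1 hB₀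
    obtain ⟨i, hi⟩ := hne B (hmem B hB).1
    rw [himg B hB] at hi
    obtain ⟨t, ht, -⟩ := Finset.mem_image.1 hi
    exact ⟨t, ht⟩
  · intro B₀ hB₀ B₁ hB₁ hBB'
    obtain ⟨B, hB, rfl⟩ := Finset.mem_image.1 hB₀
    obtain ⟨B', hB', rfl⟩ := Finset.mem_image.1 hB₁
    have h5 := hdis B (hmem B hB).1 B' (hmem B' hB').1 fun h => hBB' (by rw [h])
    rw [Finset.disjoint_left] at h5 ⊢
    intro t ht ht'
    exact h5 (mem_pr.1 ht) (mem_pr.1 ht')
  · intro B₀ hB₀
    obtain ⟨B, hB, rfl⟩ := Finset.mem_image.1 hB₀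
    rw [← (hmin B (hmem B hB).1).1]
    conv_rhs => rw [himg B hB]
    rw [Finset.sum_image]
    intro a _ b _ hab
    exact Option.some.inj (Option.some.inj hab)
  · rw [Finset.card_image_of_injOn hinj]
    exact h4

/-- from subsets to subtypes -/
theorem sub_min' {V ι : Type} [AddCommGroup V] (u : ι → V) (B : Finset ι)
    (hmin : ∀ B' ⊆ B, B'.Nonempty → B' ≠ B → ∑ t ∈ B', u t ≠ 0) (B' : Finset {t // t ∈ B})
    (h1 : B'.Nonempty) (h2 : B' ≠ Finset.univ) : ∑ t ∈ B', u t.1 ≠ 0 := by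
  classical
  have h3 := hmin (B'.map (Function.Embedding.subtype _)) (by
    intro t ht
    rw [Finset.mem_map] at ht
    obtain ⟨a, -, rfl⟩ := ht
    exact a.2) (by simpa using h1) (by
    intro h4
    apply h2
    rw [Finset.eq_univ_iff_forall]
    intro a
    have h5 : a.1 ∈ B'.map (Function.Embedding.subtype _) := by
      rw [h4]
      exact a.2
    rw [Finset.mem_map] at h5
    obtain ⟨b, hb, hba⟩ := h5
    have : b = a := Subtype.ext hba
    rwa [← this])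
  rw [Finset.sum_map] at h3
  exact h3

end split

section terms

variable {N M : ℕ} (D : ℕ) (ℓ : MvPolynomial (Fin (N + 1)) ℂ)
  (Q : Fin M → MvPolynomial (Fin (N + 1)) ℂ)

/-- the factors of small degree -/
noncomputable def Gf : Ix M → MvPolynomial (Fin (N + 1)) ℂ
  | none => 0
  | some none => ℓ ^ 2
  | some (some t) => Q t

/-- the linear forms -/
noncomputable def Lf : Ix M → MvPolynomial (Fin (N + 1)) ℂ
  | none => 0
  | some none => ℓ
  | some (some t) => lin ℂ N t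

/-- the terms -/
noncomputable def Ff : Ix M → MvPolynomial (Fin (N + 1)) ℂ
  | none => - affineForm D ℓ Q
  | some none => ℓ ^ 2 * ℓ ^ D
  | some (some t) => Q t * lin ℂ N t ^ D

theorem sum_Ff : ∑ i, Ff D ℓ Q i = 0 := by
  rw [Fintype.sum_option, Fintype.sum_option]
  change - affineForm D ℓ Q + (ℓ ^ 2 * ℓ ^ D + ∑ t : Fin M, Q t * lin ℂ N t ^ D) = 0
  unfold affineForm
  have h : ℓ ^ (D + 2) = ℓ ^ 2 * ℓ ^ D := by rw [← pow_add, add_comm 2 D]
  rw [h]
  exact neg_add_cancel _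

variable {ℓ Q}

theorem affine_hom (hℓ : ℓ.IsHomogeneous 1) (hQ : ∀ t, (Q t).IsHomogeneous 2) :
    (affineForm D ℓ Q).IsHomogeneous (D + 2) := by
  unfold affineForm
  refine IsHomogeneous.add ?_ (IsHomogeneous.sum _ _ _ fun t _ => ?_)
  · have := hℓ.pow (D + 2)
    rwa [one_mul] at this
  · have h : (Q t * lin ℂ N (t : ℕ) ^ D).IsHomogeneous (2 + 1 * D) :=
      (hQ t).mul ((lin_hom ℂ N (t : ℕ)).pow D)
    rw [one_mul, add_comm 2 D] at h
    exact h

theorem Ff_hom (hℓ : ℓ.IsHomogeneous 1) (hQ : ∀ t, (Q t).IsHomogeneous 2) (i : Ix M) :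
    (Ff D ℓ Q i).IsHomogeneous (D + 2) := by
  rcases i with _ | _ | t
  · exact (affine_hom D hℓ hQ).neg
  · have h : (ℓ ^ 2 * ℓ ^ D).IsHomogeneous (1 * 2 + 1 * D) := (hℓ.pow 2).mul (hℓ.pow D)
    rw [one_mul, one_mul, add_comm 2 D] at h
    exact h
  · have h : (Q t * lin ℂ N (t : ℕ) ^ D).IsHomogeneous (2 + 1 * D) :=
      (hQ t).mul ((lin_hom ℂ N (t : ℕ)).pow D)
    rw [one_mul, add_comm 2 D] at h
    exact h

/-- the data of a block with many terms -/
theorem blk (hN : 1 ≤ N) (hℓ : ℓ.IsHomogeneous 1) (hQ : ∀ t, (Q t).IsHomogeneous 2)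
    (B : Finset (Ix M)) (hB : N + 1 ≤ (pr B).card) :
    ∃ (S : Finset {i // i ∈ B}) (p : Fin (N + 1) → ℕ) (ψ : Fin (N + 1) → {i // i ∈ B}),
      Function.Injective p ∧
      (∀ t ∈ S, (Gf ℓ Q t.1).IsHomogeneous 2 ∧ (Lf ℓ t.1).IsHomogeneous 1 ∧
        Ff D ℓ Q t.1 = Gf ℓ Q t.1 * Lf ℓ t.1 ^ D) ∧
      (∀ t, t ∉ S → t.1 = none) ∧
      (∀ i, ψ i ∈ S ∧ Lf ℓ (ψ i).1 = lin ℂ N (p i)) ∧
      Fintype.card {i // i ∈ B} ≤ M + 2 ∧ 2 ≤ Fintype.card {i // i ∈ B} := by
  classical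
  obtain ⟨φ⟩ : Nonempty (Fin (N + 1) ↪ {t // t ∈ pr B}) := by
    apply Function.Embedding.nonempty_of_card_le
    rw [Fintype.card_fin, Fintype.card_coe]
    exact hB
  refine ⟨Finset.univ.filter fun t => t.1 ≠ none, fun i => ((φ i).1 : ℕ),
    fun i => ⟨some (some (φ i).1), mem_pr.1 (φ i).2⟩, ?_, ?_, ?_, ?_, ?_, ?_⟩
  · intro i j hij
    exact φ.injective (Subtype.ext (Fin.ext hij))
  · rintro ⟨t, ht⟩ hts
    have h0 : t ≠ none := (Finset.mem_filter.1 hts).2
    rcases t with _ | _ | t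
    · exact absurd rfl h0
    · refine ⟨?_, hℓ, rfl⟩
      have := hℓ.pow 2
      rwa [one_mul] at this
    · exact ⟨hQ t, lin_hom ℂ N t, rfl⟩
  · intro t ht
    by_contra h
    exact ht (Finset.mem_filter.2 ⟨Finset.mem_univ _, h⟩)
  · intro i
    exact ⟨Finset.mem_filter.2 ⟨Finset.mem_univ _, by simp⟩, rfl⟩
  · rw [Fintype.card_coe]
    refine (Finset.card_le_univ B).trans ?_
    simp
  · rw [Fintype.card_coe]
    have h1 : (pr B).card ≤ B.card := by
      refine Finset.card_le_card_of_injOn (fun t => (some (some t) : Ix M))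
        (fun t ht => mem_pr.1 ht) ?_
      intro a _ b _ hab
      exact Option.some.inj (Option.some.inj hab)
    omega

end terms

end Pool.Agent.W2helper39.LC
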