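import Pool.Agent.W2helper39.LC.ZMain

/-!
The Bombieri–Lang–Vojta conjecture for affine schemes and for the complements of smooth hypersurfaces.
-/

set_option autoImplicit false

namespace Pool.Agent.W2helper39.LC

open MvPolynomial NumberField IsDedekindDomain
open scoped LinearAlgebra.Projectivization
open Pool.Agent.N254.SQ

variable {n N d : ℕ} {m : Fin (N + 1) → Fin (n + 1) → ℕ}

/-- the lift of an entire curve in the Veronese variety -/
theorem lift_gen (hm : Mon n N d m) (hd : 1 ≤ d) {P : (Fin (n + 1) → ℂ) → Prop}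
    (hP : ∀ (c : ℂ) (x : Fin (n + 1) → ℂ), P x → P (c • x)) {f : ℂ → Fin (N + 1) → ℂ}
    (hf : Differentiable ℂ f) (hf0 : ∀ z, f z ≠ 0)
    (h : ∀ z, ∃ x : Fin (n + 1) → ℂ, x ≠ 0 ∧ P x ∧ f z = ver m x) :
    ∃ F : ℂ → Fin (n + 1) → ℂ, Differentiable ℂ F ∧ (∀ z, F z ≠ 0) ∧
      (∀ z, P (F z)) ∧ ∀ z, f z = ver m (F z) := by
  obtain ⟨F, hF, hGF⟩ := t_lift n N d m hm hd ℂ f hf fun z => by
    obtain ⟨x, hx, -, hxG⟩ := h z
    exact ⟨x, hx, hxG⟩
  have hF0 : ∀ z, F z ≠ 0 := by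
    intro z h
    apply hf0 z
    rw [hGF z, h]
    have h2 := ver_smul (Ω := ℂ) hm 0 0
    rw [zero_smul, zero_pow (by omega), zero_smul] at h2
    exact h2
  refine ⟨F, hF, hF0, fun z => ?_, hGF⟩
  obtain ⟨x, hx, hxP, hxG⟩ := h z
  obtain ⟨c, hc⟩ := ver_prop (x := x) (c := 1) hm hd (hF0 z) (by rw [one_smul, ← hGF z, hxG])
  rw [hc]
  exact hP c x hxP

theorem smoothOver_scale {K : Type} [Field K] {c : K} (hc : c ≠ 0)
    {A : MvPolynomial (Fin (N + 1)) K} (h : SmoothOver A) : SmoothOver (C c * A) := by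
  intro Ω _ τ y hy
  obtain ⟨j, hj⟩ := h Ω τ y hy
  refine ⟨j, ?_⟩
  rw [pderiv_C_mul, eval₂_mul, eval₂_C]
  exact mul_ne_zero ((map_ne_zero τ).2 hc) hj

/-- the construction over a number field -/
theorem cons_z (N : ℕ) (hN1 : 1 ≤ N) : ∃ D₁ : ℕ, ∀ (n d : ℕ), 1 ≤ n → 3 ≤ d →
    ∀ (m : Fin (N + 1) → Fin (n + 1) → ℕ), Mon n N d m → 2 * n < N →
      ∀ D, D₁ ≤ D → ∀ (K : Type) [Field K] [NumberField K] (ι : Type) [Finite ι]
        (F : ι → MvPolynomial (Fin (n + 1)) (𝓞 K)), (∀ i, ∃ e ≤ d, (F i).IsHomogeneous e) →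
        ∀ (e : ℕ) (H : MvPolynomial (Fin (n + 1)) (𝓞 K)), 1 ≤ e → e ∣ d → H.IsHomogeneous e →
        ∃ (a : 𝓞 K) (ℓ : MvPolynomial (Fin (N + 1)) (𝓞 K))
          (Q : Fin (Mn N) → MvPolynomial (Fin (N + 1)) (𝓞 K)), a ≠ 0 ∧ ℓ.IsHomogeneous 1 ∧
          (∀ t, (Q t).IsHomogeneous 2) ∧
          SmoothOver (map (algebraMap (𝓞 K) K) (formR D a ℓ Q)) ∧
          (∃ k, 1 ≤ k ∧ ∀ (Ω : Type) [Field Ω] (τ : K →+* Ω) (x : Fin (n + 1) → Ω),
            (∀ i, eval₂ (τ.comp (algebraMap (𝓞 K) K)) x (F i) = 0) →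
            eval₂ (τ.comp (algebraMap (𝓞 K) K)) (ver m x) (formR D a ℓ Q) =
              τ (algebraMap (𝓞 K) K a) * eval₂ (τ.comp (algebraMap (𝓞 K) K)) x H ^ k) ∧
          ∀ (σ : K →+* ℂ) (f : ℂ → Fin (N + 1) → ℂ), Differentiable ℂ f → (∀ z, f z ≠ 0) →
            (∀ z, eval₂ (σ.comp (algebraMap (𝓞 K) K)) (f z) (formR D a ℓ Q) ≠ 0) →
            (¬ ∀ z w, ∃ c : ℂ, f w = c • f z) →
            ∃ F₁ : ℂ → Fin (n + 1) → ℂ, Differentiable ℂ F₁ ∧ (∀ z, F₁ z ≠ 0) ∧
              (∀ z i, eval₂ (σ.comp (algebraMap (𝓞 K) K)) (F₁ z) (F i) = 0) ∧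
              ∀ z, f z = ver m (F₁ z) := by
  classical
  obtain ⟨D₁, hD₁⟩ := consK_main N hN1
  refine ⟨D₁, fun n d hn hd m hm hN D hD K _ _ ι _ F hF e H he1 hed hH => ?_⟩
  have hd1 : 1 ≤ d := by omega
  obtain ⟨FK, hFK⟩ : ∃ FK : ι → MvPolynomial (Fin (n + 1)) K,
    FK = fun i => map (algebraMap (𝓞 K) K) (F i) := ⟨_, rfl⟩
  have eF : ∀ (Ω : Type) [Field Ω] (τ : K →+* Ω) (x : Fin (n + 1) → Ω) (i : ι),
      eval₂ (τ.comp (algebraMap (𝓞 K) K)) x (F i) = eval₂ τ x (FK i) := by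
    intro Ω _ τ x i
    rw [hFK]
    simp only [eval₂_map]
  choose g hg hFg using hF
  have hFKg : ∀ i, (FK i).IsHomogeneous (g i) := by
    intro i
    rw [hFK]
    exact (hFg i).map _
  obtain ⟨ι₁, _, q, hq2, hqv, hqr⟩ := t_ver K n N d m hm hd1 ι FK g hFKg hg
  -- the linear form
  obtain ⟨k, rfl⟩ := hed
  have hk : 1 ≤ k := by
    rcases Nat.eq_zero_or_pos k with h | h
    · rw [h, mul_zero] at hd
      omega
    · exact h
  obtain ⟨ℓ, hℓ, hℓF⟩ := t_zsurj (𝓞 K) n N (e * k) m hm 1 (H ^ k) (by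
    have := hH.pow k
    rwa [show e * k = e * k * 1 by ring] at this)
  have hℓv : ∀ (Ω : Type) [Field Ω] (τ : K →+* Ω) (x : Fin (n + 1) → Ω),
      eval₂ (τ.comp (algebraMap (𝓞 K) K)) (ver m x) ℓ =
        eval₂ (τ.comp (algebraMap (𝓞 K) K)) x H ^ k := by
    intro Ω _ τ x
    rw [← zb_pull, hℓF, eval₂_pow]
  obtain ⟨c₀, c, hc₀, hsm, hcur⟩ := hD₁ D hD K ι₁ q hq2 n (by
    intro Ω _ _ x hx hxq
    have h1 := (hqr Ω x hx hxq).1
    omega) (by
    intro Ω _ _ y a hya hyq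
    have hy0 : y ≠ 0 := by
      intro h
      rw [h] at hya
      exact zero_ne_one hya
    obtain ⟨-, x, a', b, hxa, hyb, hyc, -⟩ := hqr Ω y hy0 hyq
    refine td_scale t_td x a' hxa (ver m x) y (fun b => ?_) a (fun c => ?_)
    · refine ⟨∏ j, X j ^ m b j, ?_⟩
      rw [map_prod]
      unfold ver
      apply Finset.prod_congr rfl
      intro j _
      rw [map_pow, aeval_X]
    · have h1 := hyc a
      rw [hya] at h1
      have h2 : ver m x a ≠ 0 := by
        intro h3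
        rw [h3, mul_zero] at h1
        exact one_ne_zero h1
      rw [hyc c]
      rw [eq_div_iff h2]
      linear_combination (-ver m x c) * h1) (map (algebraMap (𝓞 K) K) ℓ) (hℓ.map _)
  -- denominators
  obtain ⟨QK, hQK⟩ : ∃ QK : Fin (Mn N) → MvPolynomial (Fin (N + 1)) K,
    QK = fun t => ∑ i, C (c t i) * q i := ⟨_, rfl⟩
  have hQK2 : ∀ t, (QK t).IsHomogeneous 2 := by
    intro t
    rw [hQK]
    exact fam_hom hq2 _
  rw [← hQK] at hsm hcur
  obtain ⟨c', Q', hc', hQ', hcQ⟩ := blva_denom QK hQK2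
  obtain ⟨p, s, hs, hps⟩ := IsFractionRing.div_surjective (A := 𝓞 K) c₀
  have hs0 : s ≠ 0 := nonZeroDivisors.ne_zero hs
  have hinj := FaithfulSMul.algebraMap_injective (𝓞 K) K
  have hsK : algebraMap (𝓞 K) K s ≠ 0 := by
    intro h0
    exact hs0 (hinj (by rw [h0, map_zero]))
  have hcK : algebraMap (𝓞 K) K c' ≠ 0 := by
    intro h0
    exact hc' (hinj (by rw [h0, map_zero]))
  have hp : algebraMap (𝓞 K) K p = algebraMap (𝓞 K) K s * c₀ := by
    rw [← hps, mul_div_cancel₀ _ hsK]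
  have hp0 : p ≠ 0 := by
    rintro rfl
    rw [map_zero] at hp
    exact mul_ne_zero hsK hc₀ hp.symm
  have hA : map (algebraMap (𝓞 K) K) (formR D (c' * p) ℓ fun t => C s * Q' t) =
      C (algebraMap (𝓞 K) K (s * c')) *
        formR D c₀ (map (algebraMap (𝓞 K) K) ℓ) QK := by
    rw [formR_map, formR_scale]
    congr 1
    · rw [map_mul, map_mul, hp]
      ring
    · funext t
      rw [map_mul, map_C, hcQ t, map_mul, C_mul, mul_assoc]
  have hscK : algebraMap (𝓞 K) K (s * c') ≠ 0 := by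
    rw [map_mul]
    exact mul_ne_zero hsK hcK
  have hQz : ∀ (Ω : Type) [Field Ω] (τ : K →+* Ω) (x : Fin (n + 1) → Ω),
      (∀ i, eval₂ (τ.comp (algebraMap (𝓞 K) K)) x (F i) = 0) → ∀ t,
      eval₂ (τ.comp (algebraMap (𝓞 K) K)) (ver m x) (C s * Q' t) = 0 := by
    intro Ω _ τ x hx t
    letI := τ.toAlgebra
    have hv := hqv Ω x (fun i => by
      have := hx i
      rw [eF] at this
      exact this)
    rw [← eval₂_map, map_mul, hcQ t, eval₂_mul, eval₂_mul, hQK, eval₂_sum, Finset.sum_eq_zero,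
      mul_zero, mul_zero]
    intro i _
    rw [eval₂_mul]
    have : eval₂ τ (ver m x) (q i) = 0 := hv i
    rw [this, mul_zero]
  refine ⟨c' * p, ℓ, fun t => C s * Q' t, mul_ne_zero hc' hp0, hℓ, fun t => ?_, ?_,
    ⟨k * (D + 2), by nlinarith, ?_⟩, ?_⟩
  · have := (isHomogeneous_C (Fin (N + 1)) s).mul (hQ' t)
    rwa [zero_add] at this
  · rw [hA]
    exact smoothOver_scale hscK hsm
  · intro Ω _ τ x hx
    unfold formR
    rw [eval₂_add, eval₂_mul, eval₂_pow, eval₂_C, hℓv, eval₂_sum, Finset.sum_eq_zero, add_zero,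
      ← pow_mul]
    · rfl
    · intro t _
      rw [eval₂_mul, hQz Ω τ x hx t, zero_mul]
  · intro σ f hf hf0 hfA hnc
    refine lift_gen hm hd1 (P := fun x => ∀ i, eval₂ (σ.comp (algebraMap (𝓞 K) K)) x (F i) = 0)
      (fun b x hx i => ?_) hf hf0 fun z => ?_
    · rw [zb_scale σ (hFg i), hx i, mul_zero]
    · have hnc' : ∃ i j z w, f z i * f w j ≠ f z j * f w i := by
        by_contra h2
        push Not at h2
        apply hnc
        intro z w
        obtain ⟨j0, hj0⟩ : ∃ j, f z j ≠ 0 := by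
          by_contra h3
          push Not at h3
          exact hf0 z (funext h3)
        refine ⟨f w j0 / f z j0, funext fun i => ?_⟩
        rw [Pi.smul_apply, smul_eq_mul, div_mul_eq_mul_div, eq_div_iff hj0]
        exact h2 i j0 w z
      have hqz := hcur σ (fun j z => f z j) (fun j => (differentiable_pi.1 hf) j) (fun z => by
          by_contra h2
          push Not at h2
          exact hf0 z (funext h2)) (fun z => by
          have h3 := hfA z
          rw [← eval₂_map, hA, eval₂_mul] at h3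
          have h4 := right_ne_zero_of_mul h3
          rw [eval_map]
          exact h4) hnc' z
      letI := σ.toAlgebra
      obtain ⟨-, x, a, b, hxa, hyb, hyc, hFx⟩ := hqr ℂ (f z) (hf0 z) (fun i => by
        have := hqz i
        rw [eval_map] at this
        exact this)
      obtain ⟨r, hr⟩ := IsAlgClosed.exists_pow_nat_eq (f z b) (n := e * k) (by omega)
      have hr0 : r ≠ 0 := by
        intro h
        rw [h, zero_pow (by omega)] at hr
        exact hyb hr.symm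
      refine ⟨r • x, ?_, fun i => ?_, ?_⟩
      · intro h
        have h2 := congrFun h a
        rw [Pi.smul_apply, hxa, smul_eq_mul, mul_one] at h2
        exact hr0 h2
      · rw [zb_scale σ (hFg i), eF]
        have : eval₂ σ x (FK i) = 0 := hFx i
        rw [this, mul_zero]
      · rw [ver_smul hm, hr]
        funext c
        exact hyc c

/-- reductions of points -/
theorem red_iff {K : Type} [Field K] (hm : Mon n N d m) (hd : 1 ≤ d)
    {H : MvPolynomial (Fin (n + 1)) (𝓞 K)} {A : MvPolynomial (Fin (N + 1)) (𝓞 K)} {e' : ℕ}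
    (hA : A.IsHomogeneous e') {L : Type} [Field L] [NumberField L] [Algebra K L]
    (P : (Fin (n + 1) → L) → Prop) (hP : ∀ (c : L) (x : Fin (n + 1) → L), P x → P (c • x))
    {α : L} {k : ℕ} (hk : 1 ≤ k)
    (hrel : ∀ x, P x → eval₂ ((algebraMap K L).comp (algebraMap (𝓞 K) K)) (ver m x) A =
      α * eval₂ ((algebraMap K L).comp (algebraMap (𝓞 K) K)) x H ^ k)
    (v : HeightOneSpectrum (𝓞 L)) (hv : v.valuation L α = 1) (x : Fin (n + 1) → L) (c : L)
    (hx : x ≠ 0) (hc : c ≠ 0) (hPx : P x) :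
    RedNotIn (fun _ : Unit => A) (c • ver m x) v ↔ RedNotIn (fun _ : Unit => H) x v := by
  set φ : 𝓞 K →+* L := (algebraMap K L).comp (algebraMap (𝓞 K) K) with hφ
  constructor
  · rintro ⟨c0, h1, ⟨b, hb⟩, u, hk'⟩
    obtain ⟨j0, -, hj0⟩ := Finset.exists_max_image (Finset.univ : Finset (Fin (n + 1)))
      (fun j => v.valuation L (x j)) ⟨0, Finset.mem_univ _⟩
    have hmax : ∀ j, v.valuation L (x j) ≤ v.valuation L (x j0) := fun j =>
      hj0 j (Finset.mem_univ j)
    have hx0 : x j0 ≠ 0 := by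
      intro h0
      apply hx
      funext j
      have h2 := hmax j
      rw [h0, map_zero] at h2
      exact (Valuation.zero_iff _).1 (le_antisymm h2 zero_le)
    have hv0 : v.valuation L (x j0) ≠ 0 := (Valuation.ne_zero_iff _).2 hx0
    obtain ⟨a0, ha0⟩ := zr_single hm j0
    -- the scaling factor
    have e1 : v.valuation L (c0 * c) * v.valuation L (x j0) ^ d = 1 := by
      apply le_antisymm
      · have h2 := h1 a0
        rw [Pi.smul_apply, smul_eq_mul, ha0 x, ← mul_assoc, map_mul, map_pow] at h2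
        exact h2
      · have h2 := hb
        rw [Pi.smul_apply, smul_eq_mul, ← mul_assoc, map_mul] at h2
        rw [← h2]
        exact mul_le_mul_right (zr_le hm (v.valuation L) x _ hmax b) _
    refine ⟨(x j0)⁻¹, fun j => ?_, ⟨j0, ?_⟩, (), ?_⟩
    · rw [map_mul, map_inv₀]
      calc (v.valuation L (x j0))⁻¹ * v.valuation L (x j)
          ≤ (v.valuation L (x j0))⁻¹ * v.valuation L (x j0) := mul_le_mul_right (hmax j) _
        _ = 1 := inv_mul_cancel₀ hv0
    · rw [inv_mul_cancel₀ hx0, map_one]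
    · have e3 : (fun j => c0 * (c • ver m x) j) =
          fun j => (c0 * c * x j0 ^ d) * ver m ((x j0)⁻¹ • x) j := by
        funext j
        rw [ver_smul hm, Pi.smul_apply, Pi.smul_apply, smul_eq_mul, smul_eq_mul, inv_pow]
        field_simp
      rw [e3, zr_scale φ hA, hrel _ (hP _ _ hPx), map_mul, map_pow, map_mul, map_pow,
        e1, one_pow, one_mul, map_mul, map_pow, hv, one_mul] at hk'
      exact (pow_eq_one_iff.1 hk').resolve_right (by omega)
  · rintro ⟨c1, h1, ⟨j0, hj0⟩, u, hk'⟩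
    obtain ⟨a0, ha0⟩ := zr_single hm j0
    have key : ∀ a, c1 ^ d / c * (c • ver m x) a = ver m (c1 • x) a := by
      intro a
      rw [ver_smul hm, Pi.smul_apply, Pi.smul_apply, smul_eq_mul, smul_eq_mul]
      field_simp
    refine ⟨c1 ^ d / c, fun a => ?_, ⟨a0, ?_⟩, (), ?_⟩
    · rw [key]
      refine (zr_le hm (v.valuation L) _ 1 h1 a).trans ?_
      rw [one_pow]
    · rw [key, ha0, Pi.smul_apply, smul_eq_mul, map_pow, hj0, one_pow]
    · have h2 : (fun a => c1 ^ d / c * (c • ver m x) a) = ver m (c1 • x) :=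
        funext key
      have hk'' : v.valuation L (eval₂ φ (c1 • x) H) = 1 := hk'
      rw [h2, hrel _ (hP _ _ hPx), map_mul, map_pow, hv, one_mul, hk'', one_pow]

end Pool.Agent.W2helper39.LC
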