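import Pool.Agent.W2helper39.LC.Smooth

/-!
The general hypersurface `c F + ∑ t, Q_t ℓ_t ^ D = 0` is smooth, over all fields of characteristic zero.
-/

set_option autoImplicit false

namespace Pool.Agent.W2helper39.LC

open MvPolynomial
open Pool.Agent.N254.SQ

/-- The general hypersurface with one more term is smooth. -/
theorem smooth_extK {K : Type} [Field K] [CharZero K] {n L D e r : ℕ} {ι : Type} [Fintype ι]
    {q : ι → MvPolynomial (Fin (n + 1)) K} (hq : ∀ i, (q i).IsHomogeneous e) (hD : 1 ≤ D)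
    (hL : 2 * n + 1 ≤ L) (F₀ : MvPolynomial (Fin (n + 1)) K) (hF₀ : F₀.IsHomogeneous (e + 1 * D))
    (hrank : ∀ (Ω : Type) [Field Ω] [Algebra K Ω] (x : Fin (n + 1) → Ω), x ≠ 0 →
      (∀ i, aeval x (q i) = 0) →
      r < (Matrix.of fun (i : ι) (j : Fin (n + 1)) => (aeval x (pderiv j (q i)) : Ω)).rank)
    (htr : ∀ (Ω : Type) [Field Ω] [Algebra K Ω] (x : Fin (n + 1) → Ω) (a : Fin (n + 1)), x a = 1 →
      (∀ i, aeval x (q i) = 0) → Algebra.trdeg K (Algebra.adjoin K (Set.range x)) ≤ r) :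
    ∃ Δ : MvPolynomial (Option (Fin L × ι)) K, Δ ≠ 0 ∧
      ∀ (Ω : Type) [Field Ω] [Algebra K Ω] (c : Option (Fin L × ι) → Ω), aeval c Δ ≠ 0 →
        ∀ x : Fin (n + 1) → Ω, x ≠ 0 → ∃ j, eval x (pderiv j (C (c none) *
          map (algebraMap K Ω) F₀ + ∑ t : Fin L,
          (∑ i, C (c (some (t, i))) * map (algebraMap K Ω) (q i)) * lin Ω n (t : ℕ) ^ D)) ≠ 0 := by
  classical
  set P : Fin (n + 1) → MvPolynomial (Option (Fin L × ι) ⊕ Fin (n + 1)) K := fun j =>
    X (Sum.inl none) * rename Sum.inr (pderiv j F₀) +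
    ∑ s : Fin L × ι, X (Sum.inl (some s)) *
      rename Sum.inr (pderiv j (q s.2 * lin K n (s.1 : ℕ) ^ D)) with hP
  have hPe : ∀ (Ω : Type) [Field Ω] [Algebra K Ω] (y : Option (Fin L × ι) → Ω)
      (x : Fin (n + 1) → Ω) j, aeval (Sum.elim y x) (P j) = aeval x (pderiv j F₀) * y none +
        ∑ s : Fin L × ι, aeval x (pderiv j (q s.2 * lin K n (s.1 : ℕ) ^ D)) * y (some s) := by
    intro Ω _ _ y x j
    rw [hP, map_add, map_sum, map_mul, aeval_X, aeval_rename, Sum.elim_comp_inr, Sum.elim_inl,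
      mul_comm]
    congr 1
    apply Finset.sum_congr rfl
    intro s _
    rw [map_mul, aeval_X, aeval_rename, Sum.elim_comp_inr, Sum.elim_inl, mul_comm]
  have hhom : ∀ j (s : Fin L × ι), (pderiv j (q s.2 * lin K n (s.1 : ℕ) ^ D)).IsHomogeneous (e + 1 * D - 1) :=
    fun j s => ((hq s.2).mul ((smooth_lin_hom K n s.1).pow D)).pderiv
  have hhom0 : ∀ j, (pderiv j F₀).IsHomogeneous (e + 1 * D - 1) := fun j => hF₀.pderiv
  have hgen : ∀ a : Fin (n + 1), ∃ Δ : MvPolynomial (Option (Fin L × ι)) K, Δ ≠ 0 ∧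
      ∀ (Ω : Type) [Field Ω] [Algebra K Ω] (c : Option (Fin L × ι) → Ω) (x : Fin (n + 1) → Ω),
        aeval c Δ ≠ 0 →
        (∀ i, aeval (Sum.elim c x) (P i) = 0) →
          aeval (Sum.elim c x)
            (X (Sum.inr a) : MvPolynomial (Option (Fin L × ι) ⊕ Fin (n + 1)) K) = 0 := by
    intro a
    apply t_spec
    intro Ω _ _ y x hy hz
    rw [aeval_X, Sum.elim_inr]
    by_contra hxa
    have hz' : ∀ j, aeval x (pderiv j F₀) * y none + ∑ s : Fin L × ι,
        aeval x (pderiv j (q s.2 * lin K n (s.1 : ℕ) ^ D)) * y (some s) = 0 :=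
      fun j => by rw [← hPe]; exact hz j
    apply smooth_core' t_count t_td hq hD hL F₀ hrank htr Ω y (fun j => (x a)⁻¹ * x j) hy a
      (inv_mul_cancel₀ hxa)
    intro j
    have h4 : ∀ s : Fin L × ι, aeval (fun j => (x a)⁻¹ * x j)
          (pderiv j (q s.2 * lin K n (s.1 : ℕ) ^ D)) * y (some s) =
        (x a)⁻¹ ^ (e + 1 * D - 1) *
          (aeval x (pderiv j (q s.2 * lin K n (s.1 : ℕ) ^ D)) * y (some s)) := by
      intro s
      rw [smooth_scale (hhom j s)]
      ring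
    rw [Finset.sum_congr rfl (fun s _ => h4 s), ← Finset.mul_sum, smooth_scale (hhom0 j), mul_assoc,
      ← mul_add, hz' j, mul_zero]
  choose Δ hΔ0 hΔ using hgen
  refine ⟨∏ a, Δ a, Finset.prod_ne_zero_iff.2 (fun a _ => hΔ0 a), ?_⟩
  intro Ω _ _ c hc x hx
  by_contra hcon
  push Not at hcon
  rw [map_prod, Finset.prod_ne_zero_iff] at hc
  apply hx
  funext a
  have h4 := hΔ a Ω c x (hc a (Finset.mem_univ _)) (by
    intro j
    have e1 : eval x (pderiv j (C (c none) * map (algebraMap K Ω) F₀)) =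
        aeval x (pderiv j F₀) * c none := by
      rw [pderiv_C_mul, (eval x).map_mul, eval_C, pderiv_map, eval_map, ← aeval_def, mul_comm]
    have e2 : eval x (pderiv j (∑ t : Fin L,
        (∑ i, C (c (some (t, i))) * map (algebraMap K Ω) (q i)) * lin Ω n (t : ℕ) ^ D)) =
        ∑ s : Fin L × ι, aeval x (pderiv j (q s.2 * lin K n (s.1 : ℕ) ^ D)) * c (some s) := by
      rw [map_sum, map_sum, Fintype.sum_prod_type]
      apply Finset.sum_congr rfl
      intro t _
      rw [Finset.sum_mul, map_sum, map_sum]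
      apply Finset.sum_congr rfl
      intro i _
      rw [smooth_lin_map K Ω, mul_assoc, ← map_pow, ← map_mul, pderiv_C_mul, pderiv_map,
        (eval x).map_mul, eval_C, eval_map, ← aeval_def, mul_comm]
    rw [hPe, ← hcon j, map_add, map_add, e1, e2])
  rw [aeval_X, Sum.elim_inr] at h4
  exact h4

end Pool.Agent.W2helper39.LC
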