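import Pool.Agent.W2helper39.LC.Cons
import Pool.Agent.W2helper39.LC.SmoothK
import Pool.Agent.N254.SQ.Zblv
import Pool.Agent.N254.SQ.Zsurj

/-!
The construction over fields of characteristic zero, for entire curves.
-/

set_option autoImplicit false

namespace Pool.Agent.W2helper39.LC

open MvPolynomial
open Pool.Agent.N254.SQ

/-- the form `a ℓ ^ (D + 2) + ∑ t, Q_t (x_0 + t x_1 + ⋯ + t ^ N x_N) ^ D` with coefficients in the ring
`R` -/
noncomputable def formR {R : Type} [CommRing R] {N M : ℕ} (D : ℕ) (a : R)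
    (ℓ : MvPolynomial (Fin (N + 1)) R) (Q : Fin M → MvPolynomial (Fin (N + 1)) R) :
    MvPolynomial (Fin (N + 1)) R :=
  C a * ℓ ^ (D + 2) +
    ∑ t : Fin M, Q t * (∑ j : Fin (N + 1), C (((t : ℕ) : R) ^ (j : ℕ)) * X j) ^ D

section

variable {N M : ℕ} (D : ℕ)

theorem formR_map {R R' : Type} [CommRing R] [CommRing R'] (σ : R →+* R') (a : R)
    (ℓ : MvPolynomial (Fin (N + 1)) R) (Q : Fin M → MvPolynomial (Fin (N + 1)) R) :
    map σ (formR D a ℓ Q) = formR D (σ a) (map σ ℓ) fun t => map σ (Q t) := by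
  unfold formR
  rw [map_add, map_mul, map_C, map_pow, map_sum]
  congr 1
  refine Finset.sum_congr rfl fun t _ => ?_
  rw [map_mul, map_pow, map_sum]
  congr 2
  refine Finset.sum_congr rfl fun j _ => ?_
  rw [map_mul, map_C, map_X, map_pow, map_natCast]

theorem formR_scale {R : Type} [CommRing R] (b a : R)
    (ℓ : MvPolynomial (Fin (N + 1)) R) (Q : Fin M → MvPolynomial (Fin (N + 1)) R) :
    C b * formR D a ℓ Q = formR D (b * a) ℓ fun t => C b * Q t := by
  unfold formR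
  rw [mul_add, Finset.mul_sum, ← mul_assoc, ← C_mul]
  congr 1
  refine Finset.sum_congr rfl fun t _ => ?_
  rw [mul_assoc]

theorem formR_affine {a β : ℂ} (h : β ^ (D + 2) = a) (ℓ : MvPolynomial (Fin (N + 1)) ℂ)
    (Q : Fin M → MvPolynomial (Fin (N + 1)) ℂ) : formR D a ℓ Q = affineForm D (C β * ℓ) Q := by
  unfold formR affineForm
  rw [mul_pow, ← map_pow, h]

theorem formR_hom {R : Type} [CommRing R] {a : R}
    {ℓ : MvPolynomial (Fin (N + 1)) R} {Q : Fin M → MvPolynomial (Fin (N + 1)) R}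
    (hℓ : ℓ.IsHomogeneous 1) (hQ : ∀ t, (Q t).IsHomogeneous 2) :
    (formR D a ℓ Q).IsHomogeneous (D + 2) := by
  refine IsHomogeneous.add ?_ (IsHomogeneous.sum _ _ _ fun t _ => ?_)
  · have := (isHomogeneous_C (Fin (N + 1)) a).mul (hℓ.pow (D + 2))
    rwa [zero_add, one_mul] at this
  · have h1 : (∑ j : Fin (N + 1), C (((t : ℕ) : R) ^ (j : ℕ)) * X j :
        MvPolynomial (Fin (N + 1)) R).IsHomogeneous 1 := by
      refine IsHomogeneous.sum _ _ _ fun j _ => ?_
      have h2 := (isHomogeneous_C (Fin (N + 1)) (((t : ℕ) : R) ^ (j : ℕ))).mul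
        (isHomogeneous_X R j)
      rwa [zero_add] at h2
    have h3 := (hQ t).mul (h1.pow D)
    rwa [one_mul, add_comm 2 D] at h3

end

/-- The properties of the general hypersurface over a field of characteristic zero. -/
theorem consK_main (N : ℕ) (hN : 1 ≤ N) :
    ∃ D₁ : ℕ, ∀ D, D₁ ≤ D → ∀ (K : Type) [Field K] [CharZero K] (ι : Type) [Fintype ι]
      (q : ι → MvPolynomial (Fin (N + 1)) K),
      (∀ i, (q i).IsHomogeneous 2) → ∀ r : ℕ,
      (∀ (Ω : Type) [Field Ω] [Algebra K Ω] (x : Fin (N + 1) → Ω), x ≠ 0 →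
        (∀ i, aeval x (q i) = 0) →
        r < (Matrix.of fun (i : ι) (j : Fin (N + 1)) => (aeval x (pderiv j (q i)) : Ω)).rank) →
      (∀ (Ω : Type) [Field Ω] [Algebra K Ω] (x : Fin (N + 1) → Ω) (a : Fin (N + 1)), x a = 1 →
        (∀ i, aeval x (q i) = 0) → Algebra.trdeg K (Algebra.adjoin K (Set.range x)) ≤ r) →
      ∀ ℓ₀ : MvPolynomial (Fin (N + 1)) K, ℓ₀.IsHomogeneous 1 →
      ∃ (c₀ : K) (c : Fin (Mn N) → ι → K), c₀ ≠ 0 ∧
        SmoothOver (formR D c₀ ℓ₀ fun t => ∑ i, C (c t i) * q i) ∧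
        ∀ σ : K →+* ℂ, ∀ f : Fin (N + 1) → ℂ → ℂ, (∀ j, Differentiable ℂ (f j)) →
          (∀ z, ∃ j, f j z ≠ 0) →
          (∀ z, eval (fun j => f j z)
            (map σ (formR D c₀ ℓ₀ fun t => ∑ i, C (c t i) * q i)) ≠ 0) →
          (∃ i j z w, f i z * f j w ≠ f j z * f i w) →
          ∀ z i, eval (fun j => f j z) (map σ (q i)) = 0 := by
  classical
  obtain ⟨D₁, hD₁⟩ := curves_c hN
  refine ⟨max D₁ 1, fun D hD K _ _ ι _ q hq r hr1 hr2 ℓ₀ hℓ₀ => ?_⟩
  have hDD : D₁ ≤ D := le_trans (le_max_left _ _) hD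
  have hD1 : 1 ≤ D := le_trans (le_max_right _ _) hD
  have hL2 : 2 * N + 1 ≤ Mn N := by
    unfold Mn
    nlinarith
  obtain ⟨Δ₁, hΔ₁, hB1⟩ := t_blocks t_spec t_count t_td K N (Mn N) D 2 ι q hq
  have hF₀ : (ℓ₀ ^ (D + 2)).IsHomogeneous (2 + 1 * D) := by
    have := hℓ₀.pow (D + 2)
    rwa [show 1 * (D + 2) = 2 + 1 * D by ring] at this
  obtain ⟨Δ₂, hΔ₂, hS1⟩ := smooth_extK (L := Mn N) hq hD1 hL2 (ℓ₀ ^ (D + 2)) hF₀ hr1 hr2
  obtain ⟨c, hc⟩ : ∃ c : Option (Fin (Mn N) × ι) → K,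
      eval c (rename some Δ₁ * X none * Δ₂) ≠ 0 := by
    by_contra hcon
    push Not at hcon
    have h1 : rename some Δ₁ ≠ (0 : MvPolynomial (Option (Fin (Mn N) × ι)) K) := by
      intro h
      exact hΔ₁ (rename_injective _ (Option.some_injective _) (by rw [h, map_zero]))
    exact mul_ne_zero (mul_ne_zero h1 (X_ne_zero _)) hΔ₂
      (MvPolynomial.funext fun c => by rw [hcon c, map_zero])
  rw [map_mul, map_mul, eval_X, eval_rename] at hc
  have hc1 := left_ne_zero_of_mul (left_ne_zero_of_mul hc)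
  have hc0 := right_ne_zero_of_mul (left_ne_zero_of_mul hc)
  have hc2 := right_ne_zero_of_mul hc
  obtain ⟨Q, hQ⟩ : ∃ Q : Fin (Mn N) → MvPolynomial (Fin (N + 1)) K,
      Q = fun t => ∑ i, C (c (some (t, i))) * q i := ⟨_, rfl⟩
  have hQ2 : ∀ t, (Q t).IsHomogeneous 2 := by
    intro t
    rw [hQ]
    exact fam_hom hq _
  have haev : ∀ {κ : Type} (Ω : Type) [Field Ω] (σ : K →+* Ω) (Δ : MvPolynomial κ K) (c : κ → K),
      eval c Δ ≠ 0 → eval₂ σ (fun p => σ (c p)) Δ ≠ 0 := by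
    intro κ Ω _ σ Δ c h h2
    apply h
    apply σ.injective
    rw [map_zero, ← h2]
    exact (eval₂_comp (f := σ) (g := c) Δ).trans rfl
  refine ⟨c none, fun t i => c (some (t, i)), hc0, ?_, ?_⟩
  · intro Ω _ τ x hx
    letI : Algebra K Ω := τ.toAlgebra
    obtain ⟨j, hj⟩ := hS1 Ω (fun p => τ (c p)) (haev Ω τ Δ₂ c hc2) x hx
    refine ⟨j, ?_⟩
    have h1 : (C (τ (c none)) * map (algebraMap K Ω) (ℓ₀ ^ (D + 2)) + ∑ t : Fin (Mn N),
        (∑ i, C (τ (c (some (t, i)))) * map (algebraMap K Ω) (q i)) * lin Ω N (t : ℕ) ^ D) =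
        map τ (formR D (c none) ℓ₀ fun t => ∑ i, C (c (some (t, i))) * q i) := by
      rw [formR_map]
      unfold formR
      rw [map_pow]
      congr 1
      refine Finset.sum_congr rfl fun t _ => ?_
      have h2 : map τ (∑ i, C (c (some (t, i))) * q i) =
          ∑ i, C (τ (c (some (t, i)))) * map (algebraMap K Ω) (q i) := by
        rw [map_sum]
        refine Finset.sum_congr rfl fun i _ => ?_
        rw [map_mul, map_C]
        rfl
      rw [← h2]
      rfl
    rw [h1, pderiv_map, eval_map] at hj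
    exact hj
  · intro σ f hf h0 hA hnc z i
    obtain ⟨β, hβ⟩ := IsAlgClosed.exists_pow_nat_eq (σ (c none)) (n := D + 2) (by omega)
    have hA' : map σ (formR D (c none) ℓ₀ fun t => ∑ i, C (c (some (t, i))) * q i) =
        affineForm D (C β * map σ ℓ₀) fun t => map σ (Q t) := by
      rw [formR_map, formR_affine D hβ, hQ]
    rw [hA'] at hA
    have hℓ1 : (C β * map σ ℓ₀).IsHomogeneous 1 := by
      have := (isHomogeneous_C (Fin (N + 1)) β).mul (hℓ₀.map σ)
      rwa [zero_add] at this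
    obtain ⟨𝓑, hne, hdis, hvan, hcard⟩ := hD₁ D hDD _ (fun t => map σ (Q t)) hℓ1
      (fun t => (hQ2 t).map σ) f hf h0 hA hnc
    have hx : (fun j => f j z) ≠ (0 : Fin (N + 1) → ℂ) := by
      intro h
      obtain ⟨j, hj⟩ := h0 z
      exact hj (congrFun h j)
    letI : Algebra K ℂ := σ.toAlgebra
    have key := hB1 ℂ (fun p => σ (c (some p))) (haev ℂ σ Δ₁ (fun p => c (some p)) hc1) 𝓑 hne
      hdis hcard (fun j => f j z) hx (by
        intro B hBB
        rw [← hvan B hBB z]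
        apply Finset.sum_congr rfl
        intro t _
        rw [hQ, ← map_lin σ, eval_map, eval_map, eval₂_sum]
        congr 1
        refine Finset.sum_congr rfl fun i _ => ?_
        rw [eval₂_mul, eval₂_C]
        rfl) i
    rw [eval_map]
    exact key

end Pool.Agent.W2helper39.LC
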