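import Pool.Agent.N254.SQ.Smooth
import Pool.Agent.N254.SQ.Spec
import Pool.Agent.N254.SQ.Count
import Pool.Agent.N254.SQ.Td

/-!
The general hypersurface `c F + ∑ t, Q_t ℓ_t ^ D = 0` is smooth, where `F` is a given form.
-/

set_option autoImplicit false

namespace Pool.Agent.W2helper39.LC

open MvPolynomial
open Pool.Agent.N254.SQ

/-- the generic case -/
theorem smooth_core' (hcount : Count_stm) (htd : Td_stm)
    {K : Type} [Field K] [CharZero K] {n L D e r : ℕ} {ι : Type} [Fintype ι]
    {q : ι → MvPolynomial (Fin (n + 1)) K} (hq : ∀ i, (q i).IsHomogeneous e) (hD : 1 ≤ D)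
    (hL : 2 * n + 1 ≤ L) (F₀ : MvPolynomial (Fin (n + 1)) K)
    (hrank : ∀ (Ω : Type) [Field Ω] [Algebra K Ω] (x : Fin (n + 1) → Ω), x ≠ 0 →
      (∀ i, aeval x (q i) = 0) →
      r < (Matrix.of fun (i : ι) (j : Fin (n + 1)) => (aeval x (pderiv j (q i)) : Ω)).rank)
    (htr : ∀ (Ω : Type) [Field Ω] [Algebra K Ω] (x : Fin (n + 1) → Ω) (a : Fin (n + 1)), x a = 1 →
      (∀ i, aeval x (q i) = 0) → Algebra.trdeg K (Algebra.adjoin K (Set.range x)) ≤ r)
    (Ω : Type) [Field Ω] [Algebra K Ω] (y : Option (Fin L × ι) → Ω) (x : Fin (n + 1) → Ω)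
    (hy : AlgebraicIndependent K y) (a : Fin (n + 1)) (ha : x a = 1)
    (hz : ∀ j, aeval x (pderiv j F₀) * y none + ∑ s : Fin L × ι,
      aeval x (pderiv j (q s.2 * lin K n (s.1 : ℕ) ^ D)) * y (some s) = 0) :
    False := by
  classical
  have hch : CharZero Ω := charZero_of_injective_algebraMap (FaithfulSMul.algebraMap_injective K Ω)
  have hx0 : x ≠ 0 := by
    intro h
    rw [h] at ha
    exact zero_ne_one ha
  set P' : Matrix (Fin (n + 1)) (Option (Fin L × ι)) (MvPolynomial (Fin (n + 1)) K) :=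
    Matrix.of fun j s => pderiv j (s.elim F₀ fun s => q s.2 * lin K n (s.1 : ℕ) ^ D) with hP'
  have hcnt' := hcount K Ω (Fin (n + 1)) (Option (Fin L × ι)) (Fin (n + 1)) x y hy P' (fun j => by
    rw [Fintype.sum_option]
    exact hz j)
  set M : Matrix (Fin (n + 1)) (Fin L × ι) Ω := (P'.map fun p => (aeval x p : Ω)).submatrix id
    some with hM
  have hcnt : ((M.rank : ℕ) : Cardinal) ≤ Algebra.trdeg K (Algebra.adjoin K (Set.range x)) :=
    le_trans (Nat.cast_le.2 (Matrix.rank_submatrix_le _ _ _)) hcnt'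
  have hMe : ∀ j t i, M j (t, i) = aeval x (lin K n (t : ℕ)) ^ (D - 1) *
      (aeval x (pderiv j (q i)) * aeval x (lin K n (t : ℕ)) +
        D * aeval x (q i) * ((t : ℕ) : Ω) ^ (j : ℕ)) := by
    intro j t i
    exact smooth_entry D t hD (q i) j x
  -- the forms which do not vanish
  set T : Finset (Fin L) := Finset.univ.filter fun t : Fin L => aeval x (lin K n (t : ℕ)) ≠ (0 : Ω)
    with hT
  have hTc : n + 1 ≤ T.card := by
    by_contra hcon
    have h1 := Finset.card_filter_add_card_filter_not (s := (Finset.univ : Finset (Fin L)))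
      (p := fun t : Fin L => aeval x (lin K n (t : ℕ)) ≠ (0 : Ω))
    rw [Finset.card_univ, Fintype.card_fin] at h1
    apply hx0
    apply smooth_vand x (Finset.univ.filter fun t : Fin L => ¬ aeval x (lin K n (t : ℕ)) ≠ (0 : Ω))
    · rw [← hT] at h1
      omega
    · intro t ht
      have h2 := (Finset.mem_filter.1 ht).2
      rw [not_not, smooth_lin_eval] at h2
      exact h2
  by_cases hall : ∀ i, aeval x (q i) = (0 : Ω)
  · -- case 2
    obtain ⟨t₀, ht₀⟩ : T.Nonempty := Finset.card_pos.1 (by omega)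
    have hl0 := (Finset.mem_filter.1 ht₀).2
    set l : Ω := aeval x (lin K n (t₀ : ℕ)) with hl
    have hJ : (Matrix.of fun (i : ι) (j : Fin (n + 1)) => (aeval x (pderiv j (q i)) : Ω)).rank ≤
        M.rank := by
      have h1 : (Matrix.of fun (i : ι) (j : Fin (n + 1)) => (aeval x (pderiv j (q i)) : Ω)) =
          ((M.submatrix id fun i : ι => (t₀, i)).transpose) *
            ((l ^ D)⁻¹ • (1 : Matrix (Fin (n + 1)) (Fin (n + 1)) Ω)) := by
        ext i j
        rw [Matrix.mul_smul, Matrix.mul_one, Matrix.smul_apply, Matrix.transpose_apply,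
          Matrix.submatrix_apply, id, hMe, hall i, Matrix.of_apply, smul_eq_mul]
        have h2 : l ^ D = l ^ (D - 1) * l := by
          rw [← pow_succ]
          congr 1
          omega
        have h3 : l ^ (D - 1) ≠ 0 := pow_ne_zero _ hl0
        rw [h2]
        field_simp
        ring
      rw [h1]
      refine (Matrix.rank_mul_le_left _ _).trans ?_
      rw [Matrix.rank_transpose]
      exact Matrix.rank_submatrix_le _ _ _
    have h1 := hrank Ω x hx0 hall
    have h2 := htr Ω x a ha hall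
    have h3 := hcnt.trans h2
    rw [Nat.cast_le] at h3
    omega
  · -- case 1
    push Not at hall
    obtain ⟨i₀, hi₀⟩ := hall
    have h2 := htd K Ω n n x a x ha (fun b => ⟨X b, (aeval_X _ _).symm⟩)
    have h3 := hcnt.trans h2
    rw [Nat.cast_le] at h3
    have hli : LinearIndependent Ω M.row := by
      rw [Fintype.linearIndependent_iff]
      intro g hg
      have hg' : ∀ t i, ∑ j, g j * M j (t, i) = 0 := by
        intro t i
        have := congrFun hg (t, i)
        simpa [Finset.sum_apply, Matrix.row] using this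
      set qv : Ω := aeval x (q i₀) with hqv
      set Dq : Ω := ∑ j, g j * aeval x (pderiv j (q i₀)) with hDq
      have hw : (fun j => Dq * x j + D * qv * g j) = 0 := by
        apply smooth_vand _ T hTc
        intro t ht
        have hl0 := (Finset.mem_filter.1 ht).2
        have h4 := hg' t i₀
        have h5 : ∑ j, g j * M j (t, i₀) = aeval x (lin K n (t : ℕ)) ^ (D - 1) *
            ∑ j : Fin (n + 1), (Dq * x j + D * qv * g j) * ((t : ℕ) : Ω) ^ (j : ℕ) := by
          have h6 : ∑ j : Fin (n + 1), (Dq * x j + D * qv * g j) * ((t : ℕ) : Ω) ^ (j : ℕ) =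
              Dq * aeval x (lin K n (t : ℕ)) + D * qv * ∑ j : Fin (n + 1), g j * ((t : ℕ) : Ω) ^ (j : ℕ) := by
            rw [smooth_lin_eval, Finset.mul_sum, Finset.mul_sum, ← Finset.sum_add_distrib]
            apply Finset.sum_congr rfl
            intro j _
            ring
          rw [h6, hDq, Finset.sum_mul, Finset.mul_sum, ← Finset.sum_add_distrib, Finset.mul_sum]
          apply Finset.sum_congr rfl
          intro j _
          rw [hMe]
          ring
        rw [h5] at h4
        exact (mul_eq_zero.1 h4).resolve_left (pow_ne_zero _ hl0)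
      have heuler : ∑ j, x j * aeval x (pderiv j (q i₀)) = e * qv := by
        have h4 := congrArg (aeval x) (hq i₀).sum_X_mul_pderiv
        rw [map_sum, map_nsmul, nsmul_eq_mul] at h4
        rw [← h4]
        apply Finset.sum_congr rfl
        intro j _
        rw [map_mul, aeval_X]
      have hD0 : (D : Ω) ≠ 0 := Nat.cast_ne_zero.2 (by omega)
      have hDq0 : Dq = 0 := by
        have h4 : ∑ j, (Dq * x j + D * qv * g j) * aeval x (pderiv j (q i₀)) = 0 := by
          apply Finset.sum_eq_zero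
          intro j _
          have := congrFun hw j
          simp only [Pi.zero_apply] at this
          rw [this, zero_mul]
        have h5 : ∑ j, (Dq * x j + D * qv * g j) * aeval x (pderiv j (q i₀)) =
            Dq * (e * qv) + D * qv * Dq := by
          rw [← heuler]
          nth_rewrite 3 [hDq]
          rw [Finset.mul_sum, Finset.mul_sum, ← Finset.sum_add_distrib]
          apply Finset.sum_congr rfl
          intro j _
          ring
        rw [h5] at h4
        have h6 : Dq * qv * ((e + D : ℕ) : Ω) = 0 := by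
          push_cast
          linear_combination h4
        have h7 : ((e + D : ℕ) : Ω) ≠ 0 := Nat.cast_ne_zero.2 (by omega)
        rcases mul_eq_zero.1 ((mul_eq_zero.1 h6).resolve_right h7) with h | h
        · exact h
        · exact absurd h hi₀
      intro j
      have := congrFun hw j
      simp only [Pi.zero_apply, hDq0, zero_mul, zero_add] at this
      exact (mul_eq_zero.1 this).resolve_left (mul_ne_zero hD0 hi₀)
    rw [hli.rank_matrix, Fintype.card_fin] at h3
    omega

/-- The general hypersurface with one more term is smooth. -/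
theorem smooth_ext {n L D e r : ℕ} {ι : Type} [Fintype ι]
    {q : ι → MvPolynomial (Fin (n + 1)) ℂ} (hq : ∀ i, (q i).IsHomogeneous e) (hD : 1 ≤ D)
    (hL : 2 * n + 1 ≤ L) (F₀ : MvPolynomial (Fin (n + 1)) ℂ) (hF₀ : F₀.IsHomogeneous (e + 1 * D))
    (hrank : ∀ (Ω : Type) [Field Ω] [Algebra ℂ Ω] (x : Fin (n + 1) → Ω), x ≠ 0 →
      (∀ i, aeval x (q i) = 0) →
      r < (Matrix.of fun (i : ι) (j : Fin (n + 1)) => (aeval x (pderiv j (q i)) : Ω)).rank)
    (htr : ∀ (Ω : Type) [Field Ω] [Algebra ℂ Ω] (x : Fin (n + 1) → Ω) (a : Fin (n + 1)), x a = 1 →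
      (∀ i, aeval x (q i) = 0) → Algebra.trdeg ℂ (Algebra.adjoin ℂ (Set.range x)) ≤ r) :
    ∃ Δ : MvPolynomial (Option (Fin L × ι)) ℂ, Δ ≠ 0 ∧
      ∀ c : Option (Fin L × ι) → ℂ, eval c Δ ≠ 0 →
        ∀ x : Fin (n + 1) → ℂ, x ≠ 0 → ∃ j, eval x (pderiv j (C (c none) * F₀ + ∑ t : Fin L,
          (∑ i, C (c (some (t, i))) * q i) * lin ℂ n (t : ℕ) ^ D)) ≠ 0 := by
  classical
  set P : Fin (n + 1) → MvPolynomial (Option (Fin L × ι) ⊕ Fin (n + 1)) ℂ := fun j =>
    X (Sum.inl none) * rename Sum.inr (pderiv j F₀) +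
    ∑ s : Fin L × ι, X (Sum.inl (some s)) *
      rename Sum.inr (pderiv j (q s.2 * lin ℂ n (s.1 : ℕ) ^ D)) with hP
  have hPe : ∀ (Ω : Type) [Field Ω] [Algebra ℂ Ω] (y : Option (Fin L × ι) → Ω)
      (x : Fin (n + 1) → Ω) j, aeval (Sum.elim y x) (P j) = aeval x (pderiv j F₀) * y none +
        ∑ s : Fin L × ι, aeval x (pderiv j (q s.2 * lin ℂ n (s.1 : ℕ) ^ D)) * y (some s) := by
    intro Ω _ _ y x j
    rw [hP, map_add, map_sum, map_mul, aeval_X, aeval_rename, Sum.elim_comp_inr, Sum.elim_inl,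
      mul_comm]
    congr 1
    apply Finset.sum_congr rfl
    intro s _
    rw [map_mul, aeval_X, aeval_rename, Sum.elim_comp_inr, Sum.elim_inl, mul_comm]
  have hhom : ∀ j (s : Fin L × ι), (pderiv j (q s.2 * lin ℂ n (s.1 : ℕ) ^ D)).IsHomogeneous (e + 1 * D - 1) :=
    fun j s => ((hq s.2).mul ((smooth_lin_hom ℂ n s.1).pow D)).pderiv
  have hhom0 : ∀ j, (pderiv j F₀).IsHomogeneous (e + 1 * D - 1) := fun j => hF₀.pderiv
  have hgen : ∀ a : Fin (n + 1), ∃ Δ : MvPolynomial (Option (Fin L × ι)) ℂ, Δ ≠ 0 ∧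
      ∀ (Ω : Type) [Field Ω] [Algebra ℂ Ω] (c : Option (Fin L × ι) → Ω) (x : Fin (n + 1) → Ω),
        aeval c Δ ≠ 0 →
        (∀ i, aeval (Sum.elim c x) (P i) = 0) →
          aeval (Sum.elim c x)
            (X (Sum.inr a) : MvPolynomial (Option (Fin L × ι) ⊕ Fin (n + 1)) ℂ) = 0 := by
    intro a
    apply t_spec
    intro Ω _ _ y x hy hz
    rw [aeval_X, Sum.elim_inr]
    by_contra hxa
    have hz' : ∀ j, aeval x (pderiv j F₀) * y none + ∑ s : Fin L × ι,
        aeval x (pderiv j (q s.2 * lin ℂ n (s.1 : ℕ) ^ D)) * y (some s) = 0 :=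
      fun j => by rw [← hPe]; exact hz j
    apply smooth_core' t_count t_td hq hD hL F₀ hrank htr Ω y (fun j => (x a)⁻¹ * x j) hy a
      (inv_mul_cancel₀ hxa)
    intro j
    have h4 : ∀ s : Fin L × ι, aeval (fun j => (x a)⁻¹ * x j)
          (pderiv j (q s.2 * lin ℂ n (s.1 : ℕ) ^ D)) * y (some s) =
        (x a)⁻¹ ^ (e + 1 * D - 1) *
          (aeval x (pderiv j (q s.2 * lin ℂ n (s.1 : ℕ) ^ D)) * y (some s)) := by
      intro s
      rw [smooth_scale (hhom j s)]
      ring
    rw [Finset.sum_congr rfl (fun s _ => h4 s), ← Finset.mul_sum, smooth_scale (hhom0 j), mul_assoc,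
      ← mul_add, hz' j, mul_zero]
  choose Δ hΔ0 hΔ using hgen
  refine ⟨∏ a, Δ a, Finset.prod_ne_zero_iff.2 (fun a _ => hΔ0 a), ?_⟩
  intro c hc x hx
  by_contra hcon
  push Not at hcon
  rw [map_prod, Finset.prod_ne_zero_iff] at hc
  apply hx
  funext a
  have h4 := hΔ a ℂ c x (hc a (Finset.mem_univ _)) (by
    intro j
    rw [hPe, ← hcon j]
    rw [map_add, map_add, pderiv_C_mul, (eval x).map_mul, eval_C, mul_comm]
    congr 1
    rw [map_sum, map_sum, Fintype.sum_prod_type]
    apply Finset.sum_congr rfl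
    intro t _
    rw [Finset.sum_mul, map_sum, map_sum]
    apply Finset.sum_congr rfl
    intro i _
    rw [mul_assoc, pderiv_C_mul, (eval x).map_mul, eval_C, mul_comm]
    rfl)
  rw [aeval_X, Sum.elim_inr] at h4
  exact h4

end Pool.Agent.W2helper39.LC
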