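import Pool.Agent.W2helper39.LC.Core2
import Pool.Agent.W2helper39.LC.Smooth
import Pool.Agent.N254.SQ.Fin2
import Pool.Agent.N254.SQ.VerSurj
import Pool.Agent.N254.SQ.GeoC
import Pool.Agent.N254.SQ.Qdisc

/-!
Smooth affine varieties `P^N ∖ {A = 0}`, `A = ℓ ^ (D + 2) + ∑ t, Q_t (x_0 + t x_1 + ⋯) ^ D`, with a given
affine variety as closed subset which contains everything.
-/

set_option autoImplicit false

namespace Pool.Agent.W2helper39.LC

open MvPolynomial FF Filter Topology Metric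
open Pool.Agent.N254.SQ
open Pool.Agent.W602.GT (LogGeneralType coords val)
open Pool.Agent.W603.BP (Ext)
open Pool.Agent.W603.LV (canDeg Ge)
open Pool.Agent.W603.PV (pht pord exists_pord ge_pord)

/-- the number of linear forms -/
abbrev Mn (N : ℕ) : ℕ := N * (2 * N + 3)

/-- The properties of the general hypersurface. -/
theorem cons_main (N : ℕ) (hN : 1 ≤ N) :
    ∃ D₁ : ℕ, ∀ D, D₁ ≤ D → ∀ (ι : Type) [Fintype ι] (q : ι → MvPolynomial (Fin (N + 1)) ℂ),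
      (∀ i, (q i).IsHomogeneous 2) → ∀ r : ℕ,
      (∀ (Ω : Type) [Field Ω] [Algebra ℂ Ω] (x : Fin (N + 1) → Ω), x ≠ 0 →
        (∀ i, aeval x (q i) = 0) →
        r < (Matrix.of fun (i : ι) (j : Fin (N + 1)) => (aeval x (pderiv j (q i)) : Ω)).rank) →
      (∀ (Ω : Type) [Field Ω] [Algebra ℂ Ω] (x : Fin (N + 1) → Ω) (a : Fin (N + 1)), x a = 1 →
        (∀ i, aeval x (q i) = 0) → Algebra.trdeg ℂ (Algebra.adjoin ℂ (Set.range x)) ≤ r) →
      ∀ ℓ₀ : MvPolynomial (Fin (N + 1)) ℂ, ℓ₀.IsHomogeneous 1 →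
      ∃ (β : ℂ) (c : Fin (Mn N) → ι → ℂ) (ℓ : MvPolynomial (Fin (N + 1)) ℂ)
        (Q : Fin (Mn N) → MvPolynomial (Fin (N + 1)) ℂ), β ≠ 0 ∧ ℓ = C β * ℓ₀ ∧
        (∀ t, Q t = ∑ i, C (c t i) * q i) ∧ ℓ.IsHomogeneous 1 ∧ (∀ t, (Q t).IsHomogeneous 2) ∧
        SmoothForm (affineForm D ℓ Q) ∧
        (∀ f : Fin (N + 1) → ℂ → ℂ, (∀ j, Differentiable ℂ (f j)) → (∀ z, ∃ j, f j z ≠ 0) →
          (∀ z, eval (fun j => f j z) (affineForm D ℓ Q) ≠ 0) →
          (∃ i j z w, f i z * f j w ≠ f j z * f i w) →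
          ∀ z i, eval (fun j => f j z) (q i) = 0) ∧
        (∀ (L : Type) [Field L] [Algebra ℂ L] (w : ℕ) (y : Fin (N + 1) → L), 1 ≤ w → Gen L w y →
          LogGeneral {affineForm D ℓ Q} L w y ∨ ∀ i, aeval y (q i) = 0) ∧
        (∀ (E : Type) [Field E] [Algebra ℂ E] [IsFF ℂ E] (s : Finset (Place ℂ E))
          (y : Fin (N + 1) → E), y ≠ 0 → (∀ P ∉ s, ValueNotIn {affineForm D ℓ Q} y P) →
          pht ℂ y ≤ max (canDeg ℂ E + s.card) 0 ∨ ∀ i, aeval y (q i) = 0) ∧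
        ∀ (R : ℝ) (f : Fin (N + 1) → ℂ → ℂ), 0 < R → (∀ j, AnalyticOnNhd ℂ (f j) (Ext R)) →
          (∀ z ∈ Ext R, ∃ m : ℤ,
            meromorphicOrderAt (fun z => eval (fun j => f j z) (affineForm D ℓ Q)) z =
              (((D + 2 : ℕ) * m : ℤ) : WithTop ℤ)) →
          (∀ z ∈ Ext R, ∀ i, eval (fun j => f j z) (q i) = 0) ∨
          ∀ i l, (∃ z ∈ Ext R, f l z ≠ 0) → ∃ (ρ : ℂ → ℂ) (b : ℝ), MeromorphicAt ρ 0 ∧ R ≤ b ∧
            ∀ z ∈ Ext b, f i z = ρ z⁻¹ * f l z := by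
  classical
  obtain ⟨D₁, hD₁⟩ := curves_c hN
  obtain ⟨D₂, hD₂⟩ := special_c hN
  obtain ⟨D₃, hD₃⟩ := discs_c hN
  obtain ⟨D₄, hD₄⟩ := alg_cc hN
  refine ⟨max (max (max D₁ D₂) (max D₃ 1)) D₄, fun D hD' ι _ q hq r hr1 hr2 ℓ₀ hℓ₀ => ?_⟩
  have hD : max (max D₁ D₂) (max D₃ 1) ≤ D := le_trans (le_max_left _ _) hD'
  have hDD4 : D₄ ≤ D := le_trans (le_max_right _ _) hD'
  have hDD : D₁ ≤ D := le_trans (le_trans (le_max_left _ _) (le_max_left _ _)) hD
  have hDD2 : D₂ ≤ D := le_trans (le_trans (le_max_right _ _) (le_max_left _ _)) hD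
  have hDD3 : D₃ ≤ D := le_trans (le_trans (le_max_left _ _) (le_max_right _ _)) hD
  have hD1 : 1 ≤ D := le_trans (le_trans (le_max_right _ _) (le_max_right _ _)) hD
  have hL2 : 2 * N + 1 ≤ Mn N := by
    unfold Mn
    nlinarith
  obtain ⟨Δ₁, hΔ₁, hB1⟩ := t_blocks t_spec t_count t_td ℂ N (Mn N) D 2 ι q hq
  have hF₀ : (ℓ₀ ^ (D + 2)).IsHomogeneous (2 + 1 * D) := by
    have := hℓ₀.pow (D + 2)
    rwa [show 1 * (D + 2) = 2 + 1 * D by ring] at this
  obtain ⟨Δ₂, hΔ₂, hS1⟩ := smooth_ext (L := Mn N) hq hD1 hL2 (ℓ₀ ^ (D + 2)) hF₀ hr1 hr2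
  obtain ⟨c, hc⟩ : ∃ c : Option (Fin (Mn N) × ι) → ℂ,
      eval c (rename some Δ₁ * X none * Δ₂) ≠ 0 := by
    by_contra hcon
    push Not at hcon
    have h1 : rename some Δ₁ ≠ (0 : MvPolynomial (Option (Fin (Mn N) × ι)) ℂ) := by
      intro h
      exact hΔ₁ (rename_injective _ (Option.some_injective _) (by rw [h, map_zero]))
    exact mul_ne_zero (mul_ne_zero h1 (X_ne_zero _)) hΔ₂
      (MvPolynomial.funext fun c => by rw [hcon c, map_zero])
  rw [map_mul, map_mul, eval_X, eval_rename] at hc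
  have hc1 := left_ne_zero_of_mul (left_ne_zero_of_mul hc)
  have hc0 := right_ne_zero_of_mul (left_ne_zero_of_mul hc)
  have hc2 := right_ne_zero_of_mul hc
  obtain ⟨β, hβ⟩ := IsAlgClosed.exists_pow_nat_eq (c none) (n := D + 2) (by omega)
  have hβ0 : β ≠ 0 := by
    rintro rfl
    apply hc0
    rw [← hβ, zero_pow (by omega)]
  obtain ⟨ℓ, hℓ⟩ : ∃ ℓ, ℓ = C β * ℓ₀ := ⟨_, rfl⟩
  obtain ⟨Q, hQ⟩ : ∃ Q : Fin (Mn N) → MvPolynomial (Fin (N + 1)) ℂ,
      Q = fun t => ∑ i, C (c (some (t, i))) * q i := ⟨_, rfl⟩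
  have hℓ1 : ℓ.IsHomogeneous 1 := by
    have := (isHomogeneous_C (Fin (N + 1)) β).mul hℓ₀
    rw [zero_add] at this
    rwa [hℓ]
  have hQ2 : ∀ t, (Q t).IsHomogeneous 2 := by
    intro t
    rw [hQ]
    exact fam_hom hq _
  have hkey : ∀ (Ω : Type) [Field Ω] [Algebra ℂ Ω] (x : Fin (N + 1) → Ω)
      (𝓑 : Finset (Finset (Fin (Mn N)))), x ≠ 0 → (∀ B ∈ 𝓑, B.Nonempty) →
      (∀ B ∈ 𝓑, ∀ B' ∈ 𝓑, B ≠ B' → Disjoint B B') → 2 * N + 1 ≤ 𝓑.card →
      (∀ B ∈ 𝓑, ∑ t ∈ B, aeval x (Q t) * aeval x (lin ℂ N (t : ℕ)) ^ D = 0) →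
      ∀ i, aeval x (q i) = 0 := by
    intro Ω _ _ x 𝓑 hx hne hdis hcard hvan i
    refine hB1 Ω (fun p => algebraMap ℂ Ω (c (some p))) ?_ 𝓑 hne hdis hcard x hx ?_ i
    · intro h
      apply hc1
      have h2 : aeval (fun p => algebraMap ℂ Ω (c (some p))) Δ₁ =
          algebraMap ℂ Ω (eval (c ∘ some) Δ₁) := by
        rw [aeval_def]
        exact (eval₂_comp (f := algebraMap ℂ Ω) (g := fun p => c (some p)) Δ₁).symm
      rw [h2] at h
      exact (map_eq_zero (algebraMap ℂ Ω)).1 h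
    · intro B hBB
      rw [← hvan B hBB]
      refine Finset.sum_congr rfl fun t _ => ?_
      rw [hQ, map_sum]
      congr 1
      refine Finset.sum_congr rfl fun i _ => ?_
      rw [map_mul, aeval_C]
  refine ⟨β, fun t i => c (some (t, i)), ℓ, Q, hβ0, hℓ, fun t => by rw [hQ], hℓ1, hQ2, ?_, ?_, ?_,
    ?_, ?_⟩
  · intro x hx
    obtain ⟨j, hj⟩ := hS1 c hc2 x hx
    refine ⟨j, ?_⟩
    have h1 : affineForm D ℓ Q = C (c none) * ℓ₀ ^ (D + 2) + ∑ t : Fin (Mn N),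
        (∑ i, C (c (some (t, i))) * q i) * lin ℂ N (t : ℕ) ^ D := by
      rw [← hβ, map_pow, ← mul_pow, ← hℓ, affineForm, hQ]
      rfl
    rw [h1]
    exact hj
  · intro f hf h0 hA hnc z i
    obtain ⟨𝓑, hne, hdis, hvan, hcard⟩ := hD₁ D hDD ℓ Q hℓ1 hQ2 f hf h0 hA hnc
    have hx : (fun j => f j z) ≠ (0 : Fin (N + 1) → ℂ) := by
      intro h
      obtain ⟨j, hj⟩ := h0 z
      exact hj (congrFun h j)
    exact hkey ℂ _ 𝓑 hx hne hdis hcard (fun B hBB => hvan B hBB z) i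
  · intro L _ _ w y hw hy
    by_cases hlog : LogGeneral {affineForm D ℓ Q} L w y
    · exact Or.inl hlog
    · right
      obtain ⟨𝓑, hne, hdis, hvan, hcard⟩ := hD₂ D hDD2 ℓ Q hℓ1 hQ2 L w y hw hy hlog
      exact hkey L y 𝓑 hy.ne hne hdis hcard hvan
  · intro E _ _ _ s y hy0 hy
    by_cases hb : pht ℂ y ≤ max (canDeg ℂ E + s.card) 0
    · exact Or.inl hb
    · right
      obtain ⟨𝓑, hne, hdis, hvan, hcard⟩ := hD₄ D hDD4 ℓ Q hℓ1 hQ2 E s y hy0 hy hb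
      exact hkey E y 𝓑 hy0 hne hdis hcard hvan
  · intro R f hR hf hA
    by_cases hmer : ∀ i l, (∃ z ∈ Ext R, f l z ≠ 0) → ∃ (ρ : ℂ → ℂ) (b : ℝ),
        MeromorphicAt ρ 0 ∧ R ≤ b ∧ ∀ z ∈ Ext b, f i z = ρ z⁻¹ * f l z
    · exact Or.inr hmer
    · left
      obtain ⟨𝓑, hne, hdis, hvan, hcard⟩ := hD₃ D hDD3 ℓ Q hℓ1 hQ2 R f hR hf hA hmer
      intro z hz i
      by_cases hx : (fun j => f j z) = (0 : Fin (N + 1) → ℂ)
      · rw [hx]
        have h1 := eval_scale (hq i) 0 (0 : Fin (N + 1) → ℂ)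
        rw [zero_smul, zero_pow (by omega), zero_mul] at h1
        exact h1
      · exact hkey ℂ _ 𝓑 hx hne hdis hcard (fun B hBB => hvan B hBB z hz) i

/-- The set `V(S) ∖ {H = 0}` is embedded by the Veronese map as a closed subset of
`P^N ∖ {A = 0}` which contains all entire curves, all non-extending maps from punctured discs, all
closed subvarieties which are not of log general type, and all algebraic curves of large degree. -/
structure GoodC (n N d : ℕ) (m : Fin (N + 1) → Fin (n + 1) → ℕ)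
    (S : Set (MvPolynomial (Fin (n + 1)) ℂ)) (H : MvPolynomial (Fin (n + 1)) ℂ)
    (A : MvPolynomial (Fin (N + 1)) ℂ) : Prop where
  mon : Mon n N d m
  deg : 1 ≤ d
  homS : ∀ p ∈ S, IsForm p
  homH : IsForm H
  homA : IsForm A
  sub : ∃ (γ : ℂ) (k : ℕ), γ ≠ 0 ∧ 1 ≤ k ∧ ∀ (L : Type) [Field L] [Algebra ℂ L]
    (x : Fin (n + 1) → L), (∀ p ∈ S, aeval x p = 0) →
      aeval (ver m x) A = algebraMap ℂ L γ * aeval x H ^ k
  curves : ∀ f : ℂ → Fin (N + 1) → ℂ, Differentiable ℂ f → (∀ z, f z ≠ 0) →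
    (∀ z, eval (f z) A ≠ 0) → (∀ z w, ∃ c : ℂ, f w = c • f z) ∨
      ∀ z, ∃ x : Fin (n + 1) → ℂ, x ≠ 0 ∧ (∀ p ∈ S, eval x p = 0) ∧ f z = ver m x
  special : ∀ (L : Type) [Field L] [Algebra ℂ L] (w : ℕ) (y : Fin (N + 1) → L), 1 ≤ w →
    Gen L w y → LogGeneral {A} L w y ∨
      ∃ (x : Fin (n + 1) → L) (c : L), x ≠ 0 ∧ c ≠ 0 ∧ (∀ p ∈ S, aeval x p = 0) ∧ y = c • ver m x
  discs : ∀ f : ℂ → Fin (N + 1) → ℂ, DifferentiableOn ℂ f (ball 0 1 \ {0}) →
    (∃ w ∈ ball (0 : ℂ) 1 \ {0}, f w ≠ 0) → (∀ z ∈ ball (0 : ℂ) 1 \ {0}, ValueIn ∅ {A} f z) →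
    Extends f ∨ ∀ w ∈ ball (0 : ℂ) 1 \ {0}, f w ≠ 0 →
      ∃ x : Fin (n + 1) → ℂ, x ≠ 0 ∧ (∀ p ∈ S, eval x p = 0) ∧ f w = ver m x
  alg : ∀ (E : Type) [Field E] [Algebra ℂ E] [IsFF ℂ E] (s : Finset (Place ℂ E))
    (y : Fin (N + 1) → E), y ≠ 0 → (∀ P ∉ s, ValueNotIn {A} y P) →
    pht ℂ y ≤ max (canDeg ℂ E + s.card) 0 ∨
      ∃ (x : Fin (n + 1) → E) (c : E), x ≠ 0 ∧ c ≠ 0 ∧ (∀ p ∈ S, aeval x p = 0) ∧ y = c • ver m x

/-- the order of the values of a form along a map from the punctured disc to the complement -/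
theorem disc_order {N k : ℕ} {A : MvPolynomial (Fin (N + 1)) ℂ} (hA : A.IsHomogeneous k)
    {f : ℂ → Fin (N + 1) → ℂ} (hf : DifferentiableOn ℂ f (ball 0 1 \ {0}))
    (hf0 : ∃ w ∈ ball (0 : ℂ) 1 \ {0}, f w ≠ 0) {z : ℂ} (hz : z ∈ ball (0 : ℂ) 1 \ {0})
    (hv : ValueIn ∅ {A} f z) :
    ∃ m : ℤ, meromorphicOrderAt (fun w => eval (f w) A) z = (((k : ℕ) * m : ℤ) : WithTop ℤ) := by
  obtain ⟨g, hg, hgz, hrel, -, G, hG, hG0⟩ := hv
  rw [Set.mem_singleton_iff] at hG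
  subst hG
  obtain ⟨j, hj⟩ := Function.ne_iff.1 hgz
  have hj' : g z j ≠ 0 := hj
  have hgj : AnalyticAt ℂ (fun w => g w j) z := (analyticAt_pi_iff.1 hg) j
  have hfj : AnalyticAt ℂ (fun w => f w j) z :=
    ((differentiableOn_pi.1 hf j).analyticOnNhd disc_open) z hz
  have hne := qd_ne hf hf0 hz
  have hgjne : ∀ᶠ w in 𝓝[≠] z, g w j ≠ 0 :=
    nhdsWithin_le_nhds (hgj.continuousAt.eventually_ne hj')
  have hh : AnalyticAt ℂ (fun w => f w j / g w j) z := hfj.fun_div hgj hj'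
  have hrel2 : ∀ᶠ w in 𝓝[≠] z, f w j / g w j ≠ 0 ∧
      eval (f w) G = (f w j / g w j) ^ k * eval (g w) G := by
    filter_upwards [hne, hgjne, hrel] with w h1 h2 h3
    obtain ⟨c, hc⟩ := h3
    have hc0 : c ≠ 0 := by
      rintro rfl
      exact h1 (by rw [hc, zero_smul])
    have h4 : f w j / g w j = c := by
      rw [hc, Pi.smul_apply, smul_eq_mul, mul_div_cancel_right₀ _ h2]
    rw [h4]
    exact ⟨hc0, by rw [hc, eval_scale hA]⟩
  have hord : meromorphicOrderAt (fun w => f w j / g w j) z ≠ ⊤ := by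
    rw [meromorphicOrderAt_ne_top_iff_eventually_ne_zero hh.meromorphicAt]
    filter_upwards [hrel2] with w hw using hw.1
  obtain ⟨μ, hμ⟩ := WithTop.ne_top_iff_exists.1 hord
  refine ⟨μ, ?_⟩
  have hAg : AnalyticAt ℂ (fun w => eval (g w) G) z := by
    exact AnalyticAt.aeval_mvPolynomial (fun j => (analyticAt_pi_iff.1 hg) j) G
  rw [meromorphicOrderAt_congr (hrel2.mono fun w hw => hw.2)]
  have h1 : meromorphicOrderAt (fun w => eval (g w) G) z = 0 := by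
    rw [hAg.meromorphicOrderAt_eq, hAg.analyticOrderAt_eq_zero.2 hG0]
    rfl
  have h2 : meromorphicOrderAt (fun w => (f w j / g w j) ^ k * eval (g w) G) z =
      meromorphicOrderAt (fun w => (f w j / g w j) ^ k) z +
        meromorphicOrderAt (fun w => eval (g w) G) z :=
    meromorphicOrderAt_mul (f := fun w => (f w j / g w j) ^ k) (g := fun w => eval (g w) G)
      (hh.meromorphicAt.fun_pow k) hAg.meromorphicAt
  have h3 : meromorphicOrderAt (fun w => (f w j / g w j) ^ k) z =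
      k * meromorphicOrderAt (fun w => f w j / g w j) z :=
    meromorphicOrderAt_pow (f := fun w => f w j / g w j) hh.meromorphicAt
  rw [h2, h1, add_zero, h3, ← hμ]
  push_cast
  rfl

/-- The construction. -/
theorem cons_all : ∃ D₁ : ℕ → ℕ, ∀ (n d : ℕ), 1 ≤ n → 3 ≤ d →
    ∀ (N : ℕ) (m : Fin (N + 1) → Fin (n + 1) → ℕ), Mon n N d m → 2 * n < N →
      ∀ D, D₁ N ≤ D → ∀ S : Set (MvPolynomial (Fin (n + 1)) ℂ),
        (∀ p ∈ S, ∃ e ≤ d, p.IsHomogeneous e) → ∀ (e : ℕ) (H : MvPolynomial (Fin (n + 1)) ℂ),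
        1 ≤ e → e ∣ d → H.IsHomogeneous e →
        ∃ (ℓ : MvPolynomial (Fin (N + 1)) ℂ) (Q : Fin (Mn N) → MvPolynomial (Fin (N + 1)) ℂ),
          ℓ.IsHomogeneous 1 ∧ (∀ t, (Q t).IsHomogeneous 2) ∧ SmoothForm (affineForm D ℓ Q) ∧
          GoodC n N d m S H (affineForm D ℓ Q) := by
  classical
  refine ⟨fun N => if h : 1 ≤ N then (cons_main N h).choose else 0, fun n d hn hd N m hm hN => ?_⟩
  have hN1 : 1 ≤ N := by omega
  have hd1 : 1 ≤ d := by omega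
  simp only [hN1, dif_pos]
  have hD₁ := (cons_main N hN1).choose_spec
  intro D hD S hS e H he1 hed hH
  -- finitely many equations
  obtain ⟨T, hT, hTS⟩ := reduce S
  have hT2 : ∀ p : T, ∃ e ≤ d, (p : MvPolynomial (Fin (n + 1)) ℂ).IsHomogeneous e :=
    fun p => hS _ (hT p.2)
  choose g hg hF using hT2
  have hS2 : ∀ (Ω : Type) [Field Ω] [Algebra ℂ Ω] (x : Fin (n + 1) → Ω),
      (∀ p : T, aeval x (p : MvPolynomial (Fin (n + 1)) ℂ) = 0) → ∀ p ∈ S, aeval x p = 0 := by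
    intro Ω _ _ x hx p hpS
    have h1 := hTS Ω (algebraMap ℂ Ω) x (fun p hp => by
      rw [eval_map]
      exact hx ⟨p, hp⟩) p hpS
    rw [eval_map] at h1
    exact h1
  obtain ⟨ι, _, q, hq2, hqv, hqr⟩ := t_ver ℂ n N d m hm hd1 T
    (fun p => (p : MvPolynomial (Fin (n + 1)) ℂ)) g hF hg
  -- the linear form
  obtain ⟨k, rfl⟩ := hed
  have hk : 1 ≤ k := by
    rcases Nat.eq_zero_or_pos k with h | h
    · rw [h, mul_zero] at hd
      omega
    · exact h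
  obtain ⟨ℓ₀, hℓ₀, hℓ₀F⟩ := t_versurj n N (e * k) m hm 1 (H ^ k) (by
    have := hH.pow k
    rwa [show e * k = e * k * 1 by ring] at this)
  have hℓ₀v : ∀ (Ω : Type) [Field Ω] [Algebra ℂ Ω] (x : Fin (n + 1) → Ω),
      aeval (ver m x) ℓ₀ = aeval x H ^ k := by
    intro Ω _ _ x
    rw [← aeval_pull]
    have : pull m ℓ₀ = H ^ k := hℓ₀F
    rw [this, map_pow]
  obtain ⟨β, c, ℓ, Q, hβ, hℓ, hQ, hℓ1, hQ2, hsm, hc1, hc2, hc4, hc3⟩ := hD₁ D hD ι q hq2 n (by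
    intro Ω _ _ x hx hxq
    have h1 := (hqr Ω x hx hxq).1
    omega) (by
    intro Ω _ _ y a hya hyq
    have hy0 : y ≠ 0 := by
      intro h
      rw [h] at hya
      exact zero_ne_one hya
    obtain ⟨-, x, a', b, hxa, hyb, hyc, -⟩ := hqr Ω y hy0 hyq
    refine td_scale t_td x a' hxa (ver m x) y (fun b => ?_) a (fun c => ?_)
    · refine ⟨∏ j, X j ^ m b j, ?_⟩
      rw [map_prod]
      unfold ver
      apply Finset.prod_congr rfl
      intro j _
      rw [map_pow, aeval_X]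
    · have h1 := hyc a
      rw [hya] at h1
      have h2 : ver m x a ≠ 0 := by
        intro h3
        rw [h3, mul_zero] at h1
        exact one_ne_zero h1
      rw [hyc c]
      rw [eq_div_iff h2]
      linear_combination (-ver m x c) * h1) ℓ₀ hℓ₀
  -- a point at which the quadrics vanish
  have hpt' : ∀ (Ω : Type) [Field Ω] [Algebra ℂ Ω] (y : Fin (N + 1) → Ω), y ≠ 0 →
      (∀ i, aeval y (q i) = 0) → ∃ (x : Fin (n + 1) → Ω) (c : Ω), x ≠ 0 ∧ c ≠ 0 ∧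
        (∀ p ∈ S, aeval x p = 0) ∧ y = c • ver m x := by
    intro Ω _ _ y hy hyq
    obtain ⟨-, x, a, b, hxa, hyb, hyc, hFx⟩ := hqr Ω y hy hyq
    refine ⟨x, y b, ?_, hyb, hS2 Ω x hFx, funext fun c => hyc c⟩
    intro h
    rw [h] at hxa
    exact zero_ne_one hxa
  have hpt : ∀ (y : Fin (N + 1) → ℂ), y ≠ 0 → (∀ i, eval y (q i) = 0) →
      ∃ x : Fin (n + 1) → ℂ, x ≠ 0 ∧ (∀ p ∈ S, eval x p = 0) ∧ y = ver m x := by
    intro y hy hyq
    obtain ⟨x, c, hx, hc, hxS, hyx⟩ := hpt' ℂ y hy hyq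
    obtain ⟨s, hs⟩ := IsAlgClosed.exists_pow_nat_eq c (n := e * k) (by omega)
    have hs0 : s ≠ 0 := by
      intro h
      rw [h, zero_pow (by omega)] at hs
      exact hc hs.symm
    refine ⟨s • x, smul_ne_zero hs0 hx, fun p hp => ?_, ?_⟩
    · obtain ⟨e', -, he'⟩ := hS p hp
      rw [eval_scale he']
      have : eval x p = 0 := hxS p hp
      rw [this, mul_zero]
    · rw [ver_smul hm, hs]
      exact hyx
  have hAhom := affine_hom D hℓ1 hQ2
  refine ⟨ℓ, Q, hℓ1, hQ2, hsm, hm, hd1, ?_, ⟨e, hH⟩, ⟨_, hAhom⟩, ?_, ?_, ?_, ?_, ?_⟩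
  · intro p hp
    obtain ⟨e', -, he'⟩ := hS p hp
    exact ⟨e', he'⟩
  · refine ⟨β ^ (D + 2), k * (D + 2), pow_ne_zero _ hβ, by nlinarith, fun L _ _ x hx => ?_⟩
    have hv := hqv L x (fun p => hx _ (hT p.2))
    have h1 : ∀ t : Fin (Mn N), aeval (ver m x) (Q t) = 0 := by
      intro t
      rw [hQ t, map_sum]
      refine Finset.sum_eq_zero fun i _ => ?_
      rw [map_mul, hv i, mul_zero]
    rw [affineForm, map_add, map_sum, map_pow, Finset.sum_eq_zero, add_zero, hℓ, map_mul, aeval_C,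
      hℓ₀v, mul_pow, ← map_pow, ← pow_mul]
    intro t _
    rw [map_mul, h1 t, zero_mul]
  · -- entire curves
    intro f hf hf0 hfA
    by_cases hcon : ∀ z w, ∃ c : ℂ, f w = c • f z
    · exact Or.inl hcon
    · right
      intro z
      have hnc : ∃ i j z w, f z i * f w j ≠ f z j * f w i := by
        by_contra h2
        push Not at h2
        apply hcon
        intro z w
        obtain ⟨j0, hj0⟩ : ∃ j, f z j ≠ 0 := by
          by_contra h3
          push Not at h3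
          exact hf0 z (funext h3)
        refine ⟨f w j0 / f z j0, funext fun i => ?_⟩
        rw [Pi.smul_apply, smul_eq_mul, div_mul_eq_mul_div, eq_div_iff hj0]
        exact h2 i j0 w z
      refine hpt (f z) (hf0 z) ?_
      exact hc1 (fun j z => f z j) (fun j => (differentiable_pi.1 hf) j)
        (fun z => by
          by_contra h2
          push Not at h2
          exact hf0 z (funext h2)) (fun z => hfA z) hnc z
  · -- subvarieties
    intro L _ _ w y hw hy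
    rcases hc2 L w y hw hy with h | h
    · exact Or.inl h
    · exact Or.inr (hpt' L y hy.ne h)
  · -- the punctured disc
    intro f hf hfn hfA
    have hmem : ∀ z ∈ Ext (1 : ℝ), z⁻¹ ∈ ball (0 : ℂ) 1 \ {0} := by
      intro z hz
      have hz1 : 1 < ‖z‖ := hz
      have hz0 : z ≠ 0 := Pool.Agent.W603.BP.ext_ne_zero zero_le_one hz
      refine ⟨?_, inv_ne_zero hz0⟩
      rw [mem_ball_zero_iff, norm_inv]
      exact inv_lt_one_of_one_lt₀ hz1
    have hinv : ∀ w ∈ ball (0 : ℂ) 1 \ {0}, w⁻¹ ∈ Ext (1 : ℝ) := by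
      intro w hw
      have hw0 : w ≠ 0 := hw.2
      change 1 < ‖w⁻¹‖
      rw [norm_inv]
      exact (one_lt_inv₀ (norm_pos_iff.2 hw0)).2 (mem_ball_zero_iff.1 hw.1)
    have hfan : ∀ j, ∀ w ∈ ball (0 : ℂ) 1 \ {0}, AnalyticAt ℂ (fun w => f w j) w := by
      intro j w hw
      have h1 : DifferentiableOn ℂ (fun w => f w j) (ball (0 : ℂ) 1 \ {0}) := fun w hw =>
        (differentiableWithinAt_pi.1 (hf w hw)) j
      exact h1.analyticAt (disc_open.mem_nhds hw)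
    rcases hc3 1 (fun j z => f z⁻¹ j) one_pos (by
      intro j z hz
      exact AnalyticAt.comp' (f := fun z : ℂ => z⁻¹) (g := fun w => f w j) (hfan j _ (hmem z hz))
        (analyticAt_inv (Pool.Agent.W603.BP.ext_ne_zero zero_le_one hz))) (by
      intro z hz
      have hz0 : z ≠ 0 := Pool.Agent.W603.BP.ext_ne_zero zero_le_one hz
      obtain ⟨μ, hμ⟩ := disc_order hAhom hf hfn (hmem z hz) (hfA _ (hmem z hz))
      refine ⟨μ, ?_⟩
      rw [← hμ]
      exact meromorphicOrderAt_comp_of_deriv_ne_zero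
        (f := fun w => eval (f w) (affineForm D ℓ Q)) (g := fun z : ℂ => z⁻¹) (x := z)
        (analyticAt_inv hz0) (by
          rw [deriv_inv]
          exact neg_ne_zero.2 (inv_ne_zero (pow_ne_zero 2 hz0)))) with h | h
    · right
      intro w hw hfw
      have h1 := h _ (hinv w hw)
      simp only [inv_inv] at h1
      exact hpt (f w) hfw h1
    · left
      change Extd f
      rw [t_ext N f hf hfn]
      rintro j k ⟨w, hw, hwk⟩
      obtain ⟨ρ, b, hρ, hb, hρf⟩ := h j k ⟨w⁻¹, hinv w hw, by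
          change f w⁻¹⁻¹ k ≠ 0
          rwa [inv_inv]⟩
      have hb0 : 0 < b := lt_of_lt_of_le one_pos hb
      refine ⟨ρ, hρ, ?_⟩
      filter_upwards [Pool.Agent.W603.BP.PB_mem (inv_pos.2 hb0)] with w hw
      have h2 := hρf w⁻¹ (by
        have := Pool.Agent.W603.BP.inv_mem_Ext hw
        rwa [inv_inv] at this)
      rwa [inv_inv] at h2
  · intro E _ _ _ s y hy0 hy
    rcases hc4 E s y hy0 hy with h | h
    · exact Or.inl h
    · exact Or.inr (hpt' E y hy0 h)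

end Pool.Agent.W2helper39.LC
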