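import Pool.Agent.W2helper39.LC.Core

/-!
The four applications: subvarieties, entire curves, algebraic curves, maps from punctured discs.
-/

set_option autoImplicit false

namespace Pool.Agent.W2helper39.LC

open MvPolynomial FF Filter Topology Metric
open Pool.Agent.N254.SQ
open Pool.Agent.W602.GT (LogGeneralType coords val)
open Pool.Agent.W603.BP (Ext)
open Pool.Agent.W603.LV (canDeg Ge)
open Pool.Agent.W603.PV (pht pord exists_pord ge_pord)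

/-- the order of the value of a form which does not vanish at the centre -/
theorem value_ord {N k : ℕ} {L : Type} [Field L] [Algebra ℂ L] {A : MvPolynomial (Fin (N + 1)) ℂ}
    (hA : A.IsHomogeneous k) {y : Fin (N + 1) → L} {P : Place ℂ L} (h : ValueNotIn {A} y P) {μ : ℤ}
    (hμ : ∀ i, Ge P μ (y i)) (hj : ∃ j, y j ≠ 0 ∧ P.ord (y j) = μ) :
    P.ord (aeval y A) = k * μ := by
  obtain ⟨c, hreg, ⟨j₀, hj0, hj1⟩, H, hH, hH0, hH1⟩ := h
  rw [Set.mem_singleton_iff] at hH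
  subst hH
  have hc : c ≠ 0 := left_ne_zero_of_mul hj0
  have hy0 : y j₀ ≠ 0 := right_ne_zero_of_mul hj0
  rw [P.ord_mul hc hy0] at hj1
  have h1 := (hμ j₀).resolve_left hy0
  obtain ⟨j, hyj, hjμ⟩ := hj
  have h2 := (P.reg_iff (mul_ne_zero hc hyj)).1 (hreg j)
  rw [P.ord_mul hc hyj, hjμ] at h2
  have h3 : P.ord c = - μ := by omega
  have h4 : aeval (c • y) H = c ^ k * aeval y H := eval₂_scale (algebraMap ℂ L) hA c y
  rw [h4] at hH0 hH1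
  rw [P.ord_mul (pow_ne_zero _ hc) (right_ne_zero_of_mul hH0), P.ord_pow, h3] at hH1
  linarith

variable {N : ℕ}

/-- subvarieties -/
theorem special_c (hN : 1 ≤ N) : ∃ D₁ : ℕ, ∀ D, D₁ ≤ D →
    ∀ (ℓ : MvPolynomial (Fin (N + 1)) ℂ) (Q : Fin (N * (2 * N + 3)) → MvPolynomial (Fin (N + 1)) ℂ),
      ℓ.IsHomogeneous 1 → (∀ t, (Q t).IsHomogeneous 2) →
      ∀ (L : Type) [Field L] [Algebra ℂ L] (w : ℕ) (y : Fin (N + 1) → L), 1 ≤ w → Gen L w y →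
        ¬ LogGeneral {affineForm D ℓ Q} L w y →
        ∃ 𝓑 : Finset (Finset (Fin (N * (2 * N + 3)))), (∀ B ∈ 𝓑, B.Nonempty) ∧
          (∀ B ∈ 𝓑, ∀ B' ∈ 𝓑, B ≠ B' → Disjoint B B') ∧
          (∀ B ∈ 𝓑, ∑ t ∈ B, aeval y (Q t) * aeval y (lin ℂ N (t : ℕ)) ^ D = 0) ∧
          2 * N + 1 ≤ 𝓑.card := by
  obtain ⟨D₁, h⟩ := gt_log 2 (N * (2 * N + 3) + 2)
  refine ⟨D₁, fun D hD ℓ Q hℓ hQ L _ _ w y hw hy hlog => ?_⟩
  obtain ⟨𝓑, h1, h2, h3, h4⟩ := split2 hN rfl (fun i => aeval y (Ff D ℓ Q i)) (by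
    rw [← map_sum, sum_Ff, map_zero]) (by
    intro B hB hB0 hBmin
    obtain ⟨S, p, ψ, b1, b2, b3, b4, b5, b6⟩ := blk D hN hℓ hQ B hB
    apply hlog
    refine h D hD L N w y hw hy.ne hy.gen hy.dim _ {i // i ∈ B} b5 b6
      (fun i => aeval y (Ff D ℓ Q i.1)) S (fun i => Gf ℓ Q i.1) (fun i => Lf ℓ i.1) p ψ b1 ?_ ?_ b4
      ?_ ?_
    · intro t ht
      refine ⟨(b2 t ht).1, (b2 t ht).2.1, ?_⟩
      change aeval y (Ff D ℓ Q t.1) = aeval y (Gf ℓ Q t.1) * aeval y (Lf ℓ t.1) ^ D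
      rw [(b2 t ht).2.2, map_mul, map_pow]
    · intro t ht P hP μ hμ hj
      rw [not_not] at hP
      have h5 := value_ord (affine_hom D hℓ hQ) hP hμ hj
      have h6 : aeval y (Ff D ℓ Q t.1) = - aeval y (affineForm D ℓ Q) := by
        rw [b3 t ht]
        exact map_neg _ _
      change P.ord (aeval y (Ff D ℓ Q t.1)) = _
      rw [h6, P.ord_neg, h5]
      push_cast
      ring
    · have h7 := hB0
      rw [← Finset.sum_coe_sort] at h7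
      exact h7
    · exact fun B' => sub_min' (fun i => aeval y (Ff D ℓ Q i)) B hBmin B')
  refine ⟨𝓑, h1, h2, fun B hB => ?_, h4⟩
  rw [← h3 B hB]
  refine Finset.sum_congr rfl fun t _ => ?_
  change _ = aeval y (Q t * lin ℂ N t ^ D)
  rw [map_mul, map_pow]

/-- entire curves -/
theorem curves_c (hN : 1 ≤ N) : ∃ D₁ : ℕ, ∀ D, D₁ ≤ D →
    ∀ (ℓ : MvPolynomial (Fin (N + 1)) ℂ) (Q : Fin (N * (2 * N + 3)) → MvPolynomial (Fin (N + 1)) ℂ),
      ℓ.IsHomogeneous 1 → (∀ t, (Q t).IsHomogeneous 2) →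
      ∀ f : Fin (N + 1) → ℂ → ℂ, (∀ j, Differentiable ℂ (f j)) → (∀ z, ∃ j, f j z ≠ 0) →
        (∀ z, eval (fun j => f j z) (affineForm D ℓ Q) ≠ 0) →
        (∃ i j z w, f i z * f j w ≠ f j z * f i w) →
        ∃ 𝓑 : Finset (Finset (Fin (N * (2 * N + 3)))), (∀ B ∈ 𝓑, B.Nonempty) ∧
          (∀ B ∈ 𝓑, ∀ B' ∈ 𝓑, B ≠ B' → Disjoint B B') ∧
          (∀ B ∈ 𝓑, ∀ z, ∑ t ∈ B, eval (fun j => f j z) (Q t) *
            eval (fun j => f j z) (lin ℂ N (t : ℕ)) ^ D = 0) ∧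
          2 * N + 1 ≤ 𝓑.card := by
  obtain ⟨D₁, h⟩ := size_c N 2 (N * (2 * N + 3) + 2) (by norm_num)
  refine ⟨D₁, fun D hD ℓ Q hℓ hQ f hf hf0 hA hnc => ?_⟩
  obtain ⟨𝓑, h1, h2, h3, h4⟩ := split2 hN rfl
    (fun i (z : ℂ) => eval (fun j => f j z) (Ff D ℓ Q i)) (by
    funext z
    rw [Finset.sum_apply, ← map_sum, sum_Ff, map_zero]
    rfl) (by
    intro B hB hB0 hBmin
    obtain ⟨S, p, ψ, b1, b2, b3, b4, b5, b6⟩ := blk D hN hℓ hQ B hB
    obtain ⟨i, j, z, w, hne⟩ := hnc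
    apply hne
    refine h D hD {i // i ∈ B} b5 b6 (fun i => Ff D ℓ Q i.1) (fun i => Gf ℓ Q i.1)
      (fun i => Lf ℓ i.1) S p ψ b1 b2 (fun t => Ff_hom D hℓ hQ t.1) b4 f hf hf0 ?_ ?_ ?_ i j z w
    · intro t ht z
      rw [b3 t ht]
      change eval (fun j => f j z) (- affineForm D ℓ Q) ≠ 0
      rw [map_neg]
      exact neg_ne_zero.2 (hA z)
    · intro z
      have h5 := congrFun hB0 z
      rw [← Finset.sum_coe_sort, Finset.sum_apply] at h5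
      exact h5
    · intro B' hB' hB'u
      have h5 := sub_min' (fun i (z : ℂ) => eval (fun j => f j z) (Ff D ℓ Q i)) B hBmin B' hB' hB'u
      by_contra hcon
      push Not at hcon
      apply h5
      funext z
      rw [Finset.sum_apply]
      exact hcon z)
  refine ⟨𝓑, h1, h2, fun B hB z => ?_, h4⟩
  have h5 := congrFun (h3 B hB) z
  rw [Finset.sum_apply] at h5
  refine Eq.trans ?_ h5
  refine Finset.sum_congr rfl fun t _ => ?_
  change _ = eval (fun j => f j z) (Q t * lin ℂ N t ^ D)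
  rw [map_mul, map_pow]

/-- algebraic curves -/
theorem alg_cc (hN : 1 ≤ N) : ∃ D₁ : ℕ, ∀ D, D₁ ≤ D →
    ∀ (ℓ : MvPolynomial (Fin (N + 1)) ℂ) (Q : Fin (N * (2 * N + 3)) → MvPolynomial (Fin (N + 1)) ℂ),
      ℓ.IsHomogeneous 1 → (∀ t, (Q t).IsHomogeneous 2) →
      ∀ (E : Type) [Field E] [Algebra ℂ E] [IsFF ℂ E] (s : Finset (Place ℂ E))
        (y : Fin (N + 1) → E), y ≠ 0 → (∀ P ∉ s, ValueNotIn {affineForm D ℓ Q} y P) →
        ¬ pht ℂ y ≤ max (canDeg ℂ E + s.card) 0 →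
        ∃ 𝓑 : Finset (Finset (Fin (N * (2 * N + 3)))), (∀ B ∈ 𝓑, B.Nonempty) ∧
          (∀ B ∈ 𝓑, ∀ B' ∈ 𝓑, B ≠ B' → Disjoint B B') ∧
          (∀ B ∈ 𝓑, ∑ t ∈ B, aeval y (Q t) * aeval y (lin ℂ N (t : ℕ)) ^ D = 0) ∧
          2 * N + 1 ≤ 𝓑.card := by
  obtain ⟨D₁, h⟩ := alg_c N 2 (N * (2 * N + 3) + 2)
  refine ⟨D₁, fun D hD ℓ Q hℓ hQ E _ _ _ s y hy hA hb => ?_⟩
  obtain ⟨𝓑, h1, h2, h3, h4⟩ := split2 hN rfl (fun i => aeval y (Ff D ℓ Q i)) (by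
    rw [← map_sum, sum_Ff, map_zero]) (by
    intro B hB hB0 hBmin
    obtain ⟨S, p, ψ, b1, b2, b3, b4, b5, b6⟩ := blk D hN hℓ hQ B hB
    apply hb
    refine h D hD E s {i // i ∈ B} b5 b6 y hy
      (fun i => aeval y (Ff D ℓ Q i.1)) S (fun i => Gf ℓ Q i.1) (fun i => Lf ℓ i.1) p ψ b1 ?_ ?_ b4
      ?_ ?_
    · intro t ht
      refine ⟨(b2 t ht).1, (b2 t ht).2.1, ?_⟩
      rw [(b2 t ht).2.2, map_mul, map_pow]
    · intro t ht P hP
      obtain ⟨j₀, hj₀⟩ : ∃ j, y j ≠ 0 := by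
        by_contra hcon
        push Not at hcon
        exact hy (funext hcon)
      obtain ⟨j, hj1, hj2⟩ := exists_pord P ⟨j₀, hj₀⟩
      have h5 := value_ord (affine_hom D hℓ hQ) (hA P hP) (fun i => ge_pord P y i) ⟨j, hj1, hj2⟩
      have h6 : aeval y (Ff D ℓ Q t.1) = - aeval y (affineForm D ℓ Q) := by
        rw [b3 t ht]
        exact map_neg _ _
      change P.ord (aeval y (Ff D ℓ Q t.1)) = _
      rw [h6, P.ord_neg, h5]
      push_cast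
      ring
    · have h7 := hB0
      rw [← Finset.sum_coe_sort] at h7
      exact h7
    · exact fun B' => sub_min' (fun i => aeval y (Ff D ℓ Q i)) B hBmin B')
  refine ⟨𝓑, h1, h2, fun B hB => ?_, h4⟩
  rw [← h3 B hB]
  refine Finset.sum_congr rfl fun t _ => ?_
  change _ = aeval y (Q t * lin ℂ N t ^ D)
  rw [map_mul, map_pow]

/-- maps from punctured discs -/
theorem discs_c (hN : 1 ≤ N) : ∃ D₁ : ℕ, ∀ D, D₁ ≤ D →
    ∀ (ℓ : MvPolynomial (Fin (N + 1)) ℂ) (Q : Fin (N * (2 * N + 3)) → MvPolynomial (Fin (N + 1)) ℂ),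
      ℓ.IsHomogeneous 1 → (∀ t, (Q t).IsHomogeneous 2) →
      ∀ (R : ℝ) (f : Fin (N + 1) → ℂ → ℂ), 0 < R → (∀ j, AnalyticOnNhd ℂ (f j) (Ext R)) →
        (∀ z ∈ Ext R, ∃ m : ℤ,
          meromorphicOrderAt (fun z => eval (fun j => f j z) (affineForm D ℓ Q)) z =
            (((D + 2 : ℕ) * m : ℤ) : WithTop ℤ)) →
        (¬ ∀ i l, (∃ z ∈ Ext R, f l z ≠ 0) → ∃ (ρ : ℂ → ℂ) (b : ℝ), MeromorphicAt ρ 0 ∧ R ≤ b ∧
          ∀ z ∈ Ext b, f i z = ρ z⁻¹ * f l z) →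
        ∃ 𝓑 : Finset (Finset (Fin (N * (2 * N + 3)))), (∀ B ∈ 𝓑, B.Nonempty) ∧
          (∀ B ∈ 𝓑, ∀ B' ∈ 𝓑, B ≠ B' → Disjoint B B') ∧
          (∀ B ∈ 𝓑, ∀ z ∈ Ext R, ∑ t ∈ B, eval (fun j => f j z) (Q t) *
            eval (fun j => f j z) (lin ℂ N (t : ℕ)) ^ D = 0) ∧
          2 * N + 1 ≤ 𝓑.card := by
  obtain ⟨D₁, h⟩ := size_d N 2 (N * (2 * N + 3) + 2)
  refine ⟨D₁, fun D hD ℓ Q hℓ hQ R f hR hf hA hnc => ?_⟩
  obtain ⟨𝓑, h1, h2, h3, h4⟩ := split2 hN rfl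
    (fun i (z : Ext R) => eval (fun j => f j z) (Ff D ℓ Q i)) (by
    funext z
    rw [Finset.sum_apply, ← map_sum, sum_Ff, map_zero]
    rfl) (by
    intro B hB hB0 hBmin
    obtain ⟨S, p, ψ, b1, b2, b3, b4, b5, b6⟩ := blk D hN hℓ hQ B hB
    apply hnc
    refine h D hD {i // i ∈ B} b5 b6 (fun i => Ff D ℓ Q i.1) (fun i => Gf ℓ Q i.1)
      (fun i => Lf ℓ i.1) S p ψ b1 b2 ?_ b4 R f hR hf ?_ ?_ ?_
    · intro t t' ht ht'
      exact Subtype.ext ((b3 t ht).trans (b3 t' ht').symm)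
    · intro t ht z hz
      obtain ⟨m, hm⟩ := hA z hz
      refine ⟨m, ?_⟩
      rw [← hm]
      have h5 : (fun z => eval (fun j => f j z) (Ff D ℓ Q t.1)) =
          fun z => - eval (fun j => f j z) (affineForm D ℓ Q) := by
        funext z
        rw [b3 t ht]
        exact map_neg _ _
      rw [h5]
      exact meromorphicOrderAt_fun_neg.symm
    · intro z hz
      have h5 := congrFun hB0 ⟨z, hz⟩
      rw [← Finset.sum_coe_sort, Finset.sum_apply] at h5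
      exact h5
    · intro B' hB' hB'u
      have h5 := sub_min' (fun i (z : Ext R) => eval (fun j => f j z) (Ff D ℓ Q i)) B hBmin B'
        hB' hB'u
      by_contra hcon
      push Not at hcon
      apply h5
      funext z
      rw [Finset.sum_apply]
      exact hcon z z.2)
  refine ⟨𝓑, h1, h2, fun B hB z hz => ?_, h4⟩
  have h5 := congrFun (h3 B hB) ⟨z, hz⟩
  rw [Finset.sum_apply] at h5
  refine Eq.trans ?_ h5
  refine Finset.sum_congr rfl fun t _ => ?_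
  change _ = eval (fun j => f j z) (Q t * lin ℂ N t ^ D)
  rw [map_mul, map_pow]

end Pool.Agent.W2helper39.LC
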