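import Pool.Agent.N254.SQ.Fin2
import Pool.Agent.N254.SQ.Logd

/-!
Functions near infinity all whose zeros have large multiplicity: the logarithmic derivative.
-/

set_option autoImplicit false

namespace Pool.Agent.W2helper39.LC

open MvPolynomial Filter Topology Asymptotics ValueDistribution Metric
open Pool.Agent.N131.SR (Big NZ)
open MeromorphicOn
open Pool.Agent.W603.BP (Ext Ext_open Ext_preconn Ext_mono Ext_nonempty ext_ne_zero birkhoff
  annulus)
open Pool.Agent.N254.SQ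

theorem lepalg : LePAlg := t_lepalg t_uniq

theorem lepder : LePDer_stm := t_lepder lepalg t_lepadd t_moder

/-- zeros and poles of large multiplicity -/
theorem count_mult {H : ℂ → ℂ} (hm : Meromorphic H) (hnz : NZ H) {k : ℕ}
    (hord : ∀ z, meromorphicOrderAt H z = 0 ∨ (k : ℤ) ≤ |(meromorphicOrderAt H z).untop₀|)
    {r : ℝ} (hr : 1 ≤ r) : (k : ℝ) * ValueDistribution.logCounting (logDeriv H) ⊤ r ≤
      ValueDistribution.logCounting H 0 r + ValueDistribution.logCounting H ⊤ r := by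
  rw [logCounting_top, logCounting_zero, logCounting_top, ← Pi.add_apply,
    ← Function.locallyFinsuppWithin.logCounting.map_add, ← nsmul_eq_mul, ← Pi.smul_apply,
    ← Function.locallyFinsuppWithin.logCounting.map_nsmul]
  apply Function.locallyFinsuppWithin.logCounting_le _ hr
  intro z
  change k • (divisor (logDeriv H) Set.univ z)⁻ ≤
    (divisor H Set.univ z)⁺ + (divisor H Set.univ z)⁻
  obtain ⟨a1, a2⟩ := logd_ord hm hnz z
  rw [posPart_add_negPart, divisor_apply hm.meromorphicOn (Set.mem_univ z)]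
  rcases hord z with h | h
  · rw [a2 h, smul_zero]
    exact abs_nonneg _
  · refine le_trans ?_ h
    rw [nsmul_eq_mul]
    have : (0 : ℤ) ≤ k := Int.natCast_nonneg k
    nlinarith

theorem mult_le {L : Filter ℝ} {τ : ℝ → ℝ} (hL : Cmp L τ) {H : ℂ → ℂ} (hnz : NZ H) {k : ℕ}
    (hk : 1 ≤ k)
    (hord : ∀ z, meromorphicOrderAt H z = 0 ∨ (k : ℤ) ≤ |(meromorphicOrderAt H z).untop₀|)
    {C : ℝ} (h : Le L τ (k * C) H) :
    Le L τ (2 * C) (logDeriv H) := by
  obtain ⟨hm, s, hs, hb⟩ := h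
  have hOT : OT L τ H := by
    refine ⟨hm, ?_⟩
    have h1 : (fun r => k * C * τ r + s r) =O[L] τ :=
      ((isBigO_refl _ _).const_mul_left _).add hs.isBigO
    refine O_of_ev ?_ h1
    filter_upwards [hb, hL.ge] with r h2 h3
    exact ⟨char_nonneg _ h3, h2⟩
  have hprox := ld_o hL hOT
  obtain ⟨C', hC'⟩ := char_inv hm
  have hk0 : (0 : ℝ) < k := by exact_mod_cast hk
  refine ⟨hm.deriv.div hm, fun r => proximity (logDeriv H) ⊤ r + (k : ℝ)⁻¹ * (2 * s r + C'), ?_, ?_⟩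
  · exact hprox.add (((hs.const_mul_left 2).add (hL.const C')).const_mul_left _)
  · filter_upwards [hb, hL.ge] with r h1 h2
    have h4 := count_mult hm hnz hord h2
    have h5 : ValueDistribution.logCounting H ⊤ r ≤ characteristic H ⊤ r := by
      unfold characteristic
      simp only [Pi.add_apply]
      have := proximity_nonneg (f := H) (a := ⊤) r
      simp only [Pi.zero_apply] at this
      linarith
    have h6 : ValueDistribution.logCounting H 0 r ≤ characteristic H ⊤ r + C' := by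
      refine le_trans ?_ (hC' r)
      have e1 : (fun z => (H z)⁻¹) = H⁻¹ := rfl
      rw [e1]
      unfold characteristic
      simp only [Pi.add_apply]
      rw [logCounting_inv]
      have := proximity_nonneg (f := H⁻¹) (a := ⊤) r
      simp only [Pi.zero_apply] at this
      linarith
    have h7 : (k : ℝ) * ValueDistribution.logCounting (logDeriv H) ⊤ r ≤
        2 * (k * C * τ r + s r) + C' := by linarith
    have h8 : ValueDistribution.logCounting (logDeriv H) ⊤ r ≤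
        (k : ℝ)⁻¹ * (2 * (k * C * τ r + s r) + C') := by
      rw [← div_eq_inv_mul, le_div_iff₀ hk0]
      linarith
    have h9 : (k : ℝ)⁻¹ * (2 * (k * C * τ r + s r) + C') =
        2 * C * τ r + (k : ℝ)⁻¹ * (2 * s r + C') := by
      field_simp
      ring
    rw [h9] at h8
    unfold characteristic
    simp only [Pi.add_apply]
    linarith

theorem qe_entire {h : ℂ → ℂ} (hh : Differentiable ℂ h) : QE h :=
  ⟨h, fun _ => 1, hh, differentiable_const _, ⟨0, one_ne_zero⟩, fun z => by simp⟩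

/-- the orders of an analytic function which is not identically zero are finite -/
theorem ext_order {R : ℝ} (hR : 0 < R) {h : ℂ → ℂ} (hh : AnalyticOnNhd ℂ h (Ext R))
    (h0 : ∃ z ∈ Ext R, h z ≠ 0) {z : ℂ} (hz : z ∈ Ext R) :
    ∃ c : ℤ, meromorphicOrderAt h z = (c : WithTop ℤ) := by
  have h1 : meromorphicOrderAt h z ≠ ⊤ := by
    intro h2
    rw [meromorphicOrderAt_eq_top_iff] at h2
    have h3 := sizep_punct (sizep_ne hR hh h0) hz
    obtain ⟨w, h4, h5⟩ := (h2.and h3).exists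
    exact h5 h4
  obtain ⟨c, hc⟩ := WithTop.ne_top_iff_exists.1 h1
  exact ⟨c, hc.symm⟩

/-- the logarithmic derivative of a term all whose zeros have large multiplicity -/
theorem free_logd {L : Filter ℝ} {τ : ℝ → ℝ} (H : Cmp L τ) (h0 : ∀ᶠ r in L, 0 ≤ τ r) {R : ℝ}
    (hR : 0 < R) {fl : ℂ → ℂ} (hfl : AnalyticOnNhd ℂ fl (Ext R)) (hl : ∃ z ∈ Ext R, fl z ≠ 0)
    {F : ℂ → ℂ} (hF : AnalyticOnNhd ℂ F (Ext R)) (hF0 : ∃ z ∈ Ext R, F z ≠ 0) {k : ℕ} (hk : 1 ≤ k)
    (hord : ∀ z ∈ Ext R, ∃ m : ℤ, meromorphicOrderAt F z = ((k * m : ℤ) : WithTop ℤ))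
    {C : ℝ} (hle : LeP L τ (k * C) fun z => F z / fl z ^ k) :
    LeP L τ (2 * C) (logDeriv fun z => F z / fl z ^ k) := by
  -- an annulus without zeros
  obtain ⟨r0, hr0⟩ : ∃ r0, r0 = max 1 R := ⟨_, rfl⟩
  have hr01 : 1 ≤ r0 := by rw [hr0]; exact le_max_left _ _
  have hr0R : R ≤ r0 := by rw [hr0]; exact le_max_right _ _
  have hext : ∀ {h : ℂ → ℂ}, AnalyticOnNhd ℂ h (Ext R) → (∃ z ∈ Ext R, h z ≠ 0) →
      ∀ b, R ≤ b → ∀ᶠ z in codiscreteWithin (Ext b), h z ≠ 0 := by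
    intro h hh h1 b hb
    exact (sizep_ne hR hh h1).filter_mono (codiscreteWithin_mono (Ext_mono hb))
  have hprod : ∃ z ∈ Ext r0, F z * fl z ≠ 0 := by
    obtain ⟨z, hz⟩ := Ext_nonempty r0
    have h1 := sizep_punct (hext hF hF0 r0 hr0R) hz
    have h2 := sizep_punct (hext hfl hl r0 hr0R) hz
    have h3 : ∀ᶠ w in 𝓝[≠] z, w ∈ Ext r0 := nhdsWithin_le_nhds ((Ext_open r0).mem_nhds hz)
    obtain ⟨w, ⟨h4, h5⟩, h6⟩ := ((h1.and h2).and h3).exists
    exact ⟨w, h6, mul_ne_zero h4 h5⟩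
  obtain ⟨r1, r2, h01, h12, hann⟩ := annulus (by linarith : 0 < r0)
    (fun z hz => ((hF z (Ext_mono hr0R hz)).fun_mul (hfl z (Ext_mono hr0R hz)))) hprod
  obtain ⟨a, ha⟩ : ∃ a, a = (r1 + r2) / 2 := ⟨_, rfl⟩
  have har1 : r1 < a := by rw [ha]; linarith
  have har2 : a < r2 := by rw [ha]; linarith
  have ha1 : 1 ≤ a := by linarith
  have haR : R ≤ a := by linarith
  have hsub : ∀ z : ℂ, r1 < ‖z‖ → z ∈ Ext R := fun z hz => by
    change R < ‖z‖
    linarith
  obtain ⟨k₁, q₁, G₁, hq₁, hG₁, hG₁0, hfG₁⟩ := birkhoff (F := F) (by linarith : 0 ≤ r1) har1 har2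
    (fun z hz => (hF z (hsub z hz)).differentiableAt.differentiableWithinAt)
    (fun z hz hz2 => left_ne_zero_of_mul (hann z hz hz2))
  obtain ⟨k₂, q₂, G₂, hq₂, hG₂, hG₂0, hfG₂⟩ := birkhoff (F := fl) (by linarith : 0 ≤ r1) har1 har2
    (fun z hz => (hfl z (hsub z hz)).differentiableAt.differentiableWithinAt)
    (fun z hz hz2 => right_ne_zero_of_mul (hann z hz hz2))
  have hG₁e : ∃ z, G₁ z ≠ 0 := ⟨0, hG₁0 0 (by rw [norm_zero]; linarith)⟩
  have hG₂e : ∃ z, G₂ z ≠ 0 := ⟨0, hG₂0 0 (by rw [norm_zero]; linarith)⟩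
  obtain ⟨W, hW⟩ : ∃ W : ℂ → ℂ, W = fun z => F z / fl z ^ k := ⟨_, rfl⟩
  obtain ⟨Hc, hHc⟩ : ∃ Hc : ℂ → ℂ, Hc = fun z => G₁ z / G₂ z ^ k := ⟨_, rfl⟩
  obtain ⟨q, hq⟩ : ∃ q : ℂ → ℂ, q = fun z => q₁ z - k * q₂ z := ⟨_, rfl⟩
  obtain ⟨E, hE⟩ : ∃ E : ℂ → ℂ, E = fun z => z ^ (k₁ - k₂ * k) * Complex.exp (q z⁻¹) := ⟨_, rfl⟩
  have hqd : DifferentiableOn ℂ q (ball 0 a⁻¹) := by
    rw [hq]
    exact hq₁.fun_sub (hq₂.const_mul _)
  have hz0 : ∀ z ∈ Ext a, z ≠ 0 := fun z hz => ext_ne_zero (by linarith) hz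
  have hE0 : ∀ z ∈ Ext a, E z ≠ 0 := fun z hz => by
    rw [hE]
    exact mul_ne_zero (zpow_ne_zero _ (hz0 z hz)) (Complex.exp_ne_zero _)
  have hkey : ∀ z ∈ Ext a, W z = E z * Hc z := by
    intro z hz
    have h1 := hz0 z hz
    rw [hW, hE, hHc, hq]
    simp only
    rw [hfG₁ z hz, hfG₂ z hz, Complex.exp_sub, Complex.exp_nat_mul, zpow_sub₀ h1, mul_pow, mul_pow,
      zpow_mul, zpow_natCast]
    have h2 := Complex.exp_ne_zero (q₂ z⁻¹)
    have h3 := zpow_ne_zero k₂ h1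
    field_simp
  have hEa : ∀ z ∈ Ext a, AnalyticAt ℂ E z := by
    intro z hz
    have h1 := hz0 z hz
    rw [hE]
    have hqz : AnalyticAt ℂ q z⁻¹ := by
      have hmem : z⁻¹ ∈ ball (0 : ℂ) a⁻¹ := by
        rw [mem_ball, dist_zero_right, norm_inv]
        exact inv_strictAnti₀ (by linarith) hz
      exact hqd.analyticAt (isOpen_ball.mem_nhds hmem)
    have hqi : AnalyticAt ℂ (fun w => q w⁻¹) z :=
      AnalyticAt.comp (f := fun w : ℂ => w⁻¹) (g := q) hqz (analyticAt_id.fun_inv h1)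
    exact (analyticAt_id.fun_zpow h1).fun_mul hqi.cexp'
  have hHm : Meromorphic Hc := by
    rw [hHc]
    exact fun z => (diff_mero hG₁ z).div ((diff_mero hG₂ z).pow k)
  have hHnz : NZ Hc := by
    refine nz_of_ne hHm (Eventually.frequently ?_)
    filter_upwards [diff_ne hG₁ hG₁e, diff_ne hG₂ hG₂e] with z z1 z2
    rw [hHc]
    exact div_ne_zero z1 (pow_ne_zero _ z2)
  have hRp : Rp a W Hc := by
    refine ⟨⟨G₁, fun z => G₂ z ^ k, hG₁, hG₂.pow k, ?_, fun z => by rw [hHc]⟩, k₁ - k₂ * k, q, hqd, ?_⟩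
    · obtain ⟨z, hz⟩ := hG₂e
      exact ⟨z, pow_ne_zero _ hz⟩
    · refine sizep_self fun z hz => ?_
      rw [hkey z hz, hE]
  -- the orders
  have hordH : ∀ z, meromorphicOrderAt Hc z = 0 ∨
      (k : ℤ) ≤ |(meromorphicOrderAt Hc z).untop₀| := by
    intro z
    rcases le_or_gt ‖z‖ a with hz | hz
    · left
      have h1 : AnalyticAt ℂ Hc z := by
        rw [hHc]
        exact (hG₁.analyticAt z).fun_div ((hG₂.analyticAt z).fun_pow k) (pow_ne_zero _ (hG₂0 z hz))
      rw [h1.meromorphicOrderAt_eq, h1.analyticOrderAt_eq_zero.2 (by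
        rw [hHc]
        exact div_ne_zero (hG₁0 z hz) (pow_ne_zero _ (hG₂0 z hz)))]
      rfl
    · have hzR : z ∈ Ext R := Ext_mono haR hz
      obtain ⟨m, hm⟩ := hord z hzR
      obtain ⟨c, hc⟩ := ext_order hR hfl hl hzR
      have h1 : meromorphicOrderAt W z = ((k * m - k * c : ℤ) : WithTop ℤ) := by
        have h2 : meromorphicOrderAt W z = meromorphicOrderAt F z -
            meromorphicOrderAt (fl ^ k) z := by
          rw [hW]
          exact meromorphicOrderAt_div (hF z hzR).meromorphicAt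
            ((hfl z hzR).meromorphicAt.pow k)
        rw [h2, meromorphicOrderAt_pow (hfl z hzR).meromorphicAt, hm, hc]
        push_cast
        rfl
      have h2 : meromorphicOrderAt W z = meromorphicOrderAt Hc z := by
        have h3 : W =ᶠ[𝓝[≠] z] (E * Hc) := by
          have h4 : ∀ᶠ w in 𝓝[≠] z, w ∈ Ext a := nhdsWithin_le_nhds ((Ext_open a).mem_nhds hz)
          filter_upwards [h4] with w hw
          rw [hkey w hw]
          rfl
        rw [meromorphicOrderAt_congr h3, meromorphicOrderAt_mul (hEa z hz).meromorphicAt (hHm z),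
          (hEa z hz).meromorphicOrderAt_eq, (hEa z hz).analyticOrderAt_eq_zero.2 (hE0 z hz)]
        exact zero_add _
      rw [← h2, h1, WithTop.untop₀_coe]
      by_cases hmc : m = c
      · left
        rw [hmc, sub_self]
        rfl
      · right
        rw [← mul_sub, abs_mul, Nat.abs_cast]
        have h5 : 1 ≤ |m - c| := Int.one_le_abs (sub_ne_zero.2 hmc)
        have h6 : (0 : ℤ) ≤ k := Int.natCast_nonneg k
        nlinarith
  -- the characteristic
  have hleH : Le L τ (k * C) Hc := by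
    obtain ⟨a', ha', H', hRp', _, s, hs, hb⟩ := hle
    rw [← hW] at hRp'
    have e1 := lepalg.mono_rp _ (max a a') _ _ ha' (le_max_right _ _) hRp'
    have e2 := lepalg.mono_rp _ (max a a') _ _ ha1 (le_max_left _ _) hRp
    obtain ⟨Cu, hCu⟩ := t_uniq (max a a') _ H' Hc (ha1.trans (le_max_left _ _)) e1 e2
    refine ⟨hHm, fun r => s r + Cu * (1 + Real.log r), hs.add ?_, ?_⟩
    · have e3 : (fun r => (1 : ℝ) + Real.log r) =o[L] τ := H.one.add H.log
      exact e3.const_mul_left Cu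
    · filter_upwards [hb, H.ge] with r hr hr1
      have := hCu r hr1
      linarith
  have hld := mult_le H hHnz hk hordH hleH
  -- the representation of the logarithmic derivative
  obtain ⟨H₂, hH₂⟩ : ∃ H₂ : ℂ → ℂ, H₂ = fun z =>
      (deriv G₁ z * G₂ z - k * (G₁ z * deriv G₂ z)) / (G₁ z * G₂ z) := ⟨_, rfl⟩
  have hQE : QE H₂ := by
    refine ⟨fun z => deriv G₁ z * G₂ z - k * (G₁ z * deriv G₂ z), fun z => G₁ z * G₂ z,
      (hG₁.deriv.fun_mul hG₂).fun_sub ((hG₁.fun_mul hG₂.deriv).const_mul _), hG₁.fun_mul hG₂, ?_,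
      fun z => by rw [hH₂]⟩
    exact ⟨0, mul_ne_zero (hG₁0 0 (by rw [norm_zero]; linarith))
      (hG₂0 0 (by rw [norm_zero]; linarith))⟩
  have hlog : ∀ z, G₁ z ≠ 0 → G₂ z ≠ 0 → logDeriv Hc z = H₂ z := by
    intro z z1 z2
    rw [hHc, hH₂]
    have h1 : logDeriv (fun z => G₁ z / (fun z => G₂ z ^ k) z) z =
        logDeriv G₁ z - logDeriv (fun z => G₂ z ^ k) z :=
      logDeriv_div z z1 (pow_ne_zero k z2) (hG₁ z) ((hG₂ z).fun_pow k)
    have h2 : logDeriv (fun z => G₂ z ^ k) z = k * logDeriv G₂ z := logDeriv_fun_pow (hG₂ z) k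
    have h3 : logDeriv (fun z => G₁ z / G₂ z ^ k) z = logDeriv G₁ z - k * logDeriv G₂ z := by
      rw [← h2]
      exact h1
    rw [h3, logDeriv_apply, logDeriv_apply]
    field_simp
  have hLe₂ : Le L τ (2 * C) H₂ := by
    refine size_congr H hld (sizep_qe hQE) ?_
    filter_upwards [diff_ne hG₁ hG₁e, diff_ne hG₂ hG₂e] with z z1 z2
    exact hlog z z1 z2
  have hLeP₂ : LeP L τ (2 * C) H₂ := ⟨a, ha1, H₂, ⟨hQE, 0, fun _ => 0, differentiableOn_const _,
    sizep_self fun z _ => by simp⟩, hLe₂⟩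
  have hQE1 : QE fun _ => (1 : ℂ) := qe_entire (differentiable_const _)
  have hEL : LeP L τ 0 E := ⟨a, ha1, fun _ => 1, ⟨hQE1, k₁ - k₂ * k, q, hqd, by
    rw [hE]
    exact sizep_self fun z _ => by rw [mul_one]⟩, size_const H 1⟩
  have h3 := t_lepadd L τ H h0 _ _ _ _ (sizep_logd lepalg lepder H h0 hEL) hLeP₂
  rw [mul_zero, zero_add] at h3
  rw [← hW]
  refine lepalg.congr L τ _ a _ _ ?_ h3
  filter_upwards [hext hF hF0 a haR, hext hfl hl a haR, self_mem_codiscreteWithin (Ext a)] with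
    z hz1 hz2 hza
  have g1 : G₁ z ≠ 0 := fun h => hz1 (by rw [hfG₁ z hza, h, mul_zero])
  have g2 : G₂ z ≠ 0 := fun h => hz2 (by rw [hfG₂ z hza, h, mul_zero])
  have hev : W =ᶠ[𝓝 z] fun w => E w * Hc w := by
    filter_upwards [(Ext_open a).mem_nhds hza] with w hw
    exact hkey w hw
  have hHa : AnalyticAt ℂ Hc z := by
    rw [hHc]
    exact (hG₁.analyticAt z).fun_div ((hG₂.analyticAt z).fun_pow k) (pow_ne_zero _ g2)
  have hHc0 : Hc z ≠ 0 := by
    rw [hHc]
    exact div_ne_zero g1 (pow_ne_zero _ g2)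
  have hldW : logDeriv W z = logDeriv (fun w => E w * Hc w) z := by
    rw [logDeriv_apply, logDeriv_apply, hev.deriv_eq, hev.eq_of_nhds]
  rw [hldW, logDeriv_mul (f := E) (g := Hc) z (hE0 z hza) hHc0 (hEa z hza).differentiableAt
    hHa.differentiableAt, hlog z g1 g2]

end Pool.Agent.W2helper39.LC
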