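import Pool.Agent.W2helper39.LC.Imp

/-!
Exceptional sets of the morphisms from the multiplicative group.
-/

set_option autoImplicit false

namespace Pool.Agent.W2helper39.LC

open MvPolynomial FF Filter Topology Metric
open Pool.Agent.N254.SQ
open Pool.Agent.W602.GT (SubVar LogGeneralType coords)

/-- the value at `z` of a vector of polynomials -/
def pv {n : ℕ} (x : Fin (n + 1) → Polynomial ℂ) (z : ℂ) : Fin (n + 1) → ℂ :=
  fun j => (x j).eval z

/-- `G` vanishes on the images of all nonconstant morphisms from the multiplicative group to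
`V(S) ∖ V(T)`, given by vectors of polynomials without common zeros on `ℂ ∖ {0}` -/
def OnGmQ {n : ℕ} (S T : Set (MvPolynomial (Fin (n + 1)) ℂ))
    (G : MvPolynomial (Fin (n + 1)) ℂ) : Prop :=
  ∀ x : Fin (n + 1) → Polynomial ℂ, (∀ z : ℂ, z ≠ 0 → pv x z ≠ 0) →
    (∀ z : ℂ, z ≠ 0 → ∀ p ∈ S, MvPolynomial.eval (pv x z) p = 0) →
    (∀ z : ℂ, z ≠ 0 → ∃ H ∈ T, MvPolynomial.eval (pv x z) H ≠ 0) →
    (∀ z w : ℂ, z ≠ 0 → w ≠ 0 → ∃ c : ℂ, pv x w = c • pv x z) ∨
      ∀ z : ℂ, z ≠ 0 → MvPolynomial.eval (pv x z) G = 0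

section poly

variable {n : ℕ}

theorem eval_pv (x : Fin (n + 1) → Polynomial ℂ) (z : ℂ) (p : MvPolynomial (Fin (n + 1)) ℂ) :
    MvPolynomial.eval (pv x z) p = (aeval x p).eval z := by
  have h1 : ((Polynomial.aeval z : Polynomial ℂ →ₐ[ℂ] ℂ).comp (aeval x)) p =
      aeval (pv x z) p := by
    rw [comp_aeval]
    rfl
  exact h1.symm

/-- a polynomial vanishing off `0` and off the zeros of `g` -/
theorem poly_zero {f g : Polynomial ℂ} (hg : g ≠ 0)
    (h : ∀ z : ℂ, z ≠ 0 → g.eval z ≠ 0 → f.eval z = 0) : f = 0 := by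
  have h1 : Polynomial.X * g * f = 0 := by
    apply Polynomial.funext
    intro z
    rw [Polynomial.eval_mul, Polynomial.eval_mul, Polynomial.eval_X, Polynomial.eval_zero]
    by_cases h0 : z = 0
    · rw [h0, zero_mul, zero_mul]
    · by_cases h2 : g.eval z = 0
      · rw [h2, mul_zero, zero_mul]
      · rw [h z h0 h2, mul_zero]
  exact (mul_eq_zero.1 h1).resolve_left (mul_ne_zero Polynomial.X_ne_zero hg)

theorem gm_zero_iff (x : Fin (n + 1) → Polynomial ℂ) (p : MvPolynomial (Fin (n + 1)) ℂ) :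
    (∀ z : ℂ, z ≠ 0 → MvPolynomial.eval (pv x z) p = 0) ↔ aeval x p = 0 := by
  constructor
  · intro h
    refine poly_zero (g := 1) one_ne_zero fun z hz _ => ?_
    rw [← eval_pv]
    exact h z hz
  · intro h z _
    rw [eval_pv, h, Polynomial.eval_zero]

/-- a common factor -/
theorem poly_gcd {ι : Type} [Fintype ι] [Nonempty ι] (y : ι → Polynomial ℂ) :
    ∃ (g : Polynomial ℂ) (F : ι → Polynomial ℂ), (∀ j, y j = g * F j) ∧
      ∀ z : ℂ, ∃ j, (F j).eval z ≠ 0 := by
  classical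
  letI : NormalizedGCDMonoid (Polynomial ℂ) := UniqueFactorizationMonoid.toNormalizedGCDMonoid _
  obtain ⟨F, h1, h2⟩ := Finset.extract_gcd (s := (Finset.univ : Finset ι)) y
    Finset.univ_nonempty
  refine ⟨Finset.univ.gcd y, F, fun j => h1 j (Finset.mem_univ j), fun z => ?_⟩
  by_contra hcon
  push Not at hcon
  have h3 : (Polynomial.X - Polynomial.C z) ∣ Finset.univ.gcd F :=
    Finset.dvd_gcd fun j _ => Polynomial.dvd_iff_isRoot.2 (hcon j)
  rw [h2] at h3
  exact Polynomial.not_isUnit_X_sub_C z (isUnit_of_dvd_one h3)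

end poly

variable {n N d : ℕ} {m : Fin (N + 1) → Fin (n + 1) → ℕ}

theorem pv_ver (x : Fin (n + 1) → Polynomial ℂ) (z : ℂ) : pv (ver m x) z = ver m (pv x z) := by
  funext b
  unfold ver pv
  rw [Polynomial.eval_prod]
  refine Finset.prod_congr rfl fun j _ => ?_
  rw [Polynomial.eval_pow]

/-- lifting morphisms from the multiplicative group to the Veronese variety -/
theorem gm_lift (hm : Mon n N d m) (hd : 1 ≤ d) {S : Set (MvPolynomial (Fin (n + 1)) ℂ)}
    (hS : ∀ p ∈ S, IsForm p) (x : Fin (N + 1) → Polynomial ℂ)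
    (hx0 : ∀ z : ℂ, z ≠ 0 → pv x z ≠ 0)
    (h : ∀ z : ℂ, z ≠ 0 → ∃ x' : Fin (n + 1) → ℂ, x' ≠ 0 ∧ (∀ p ∈ S, eval x' p = 0) ∧
      pv x z = ver m x') :
    ∃ F : Fin (n + 1) → Polynomial ℂ, (∀ z : ℂ, z ≠ 0 → pv F z ≠ 0) ∧
      (∀ z : ℂ, z ≠ 0 → ∀ p ∈ S, eval (pv F z) p = 0) ∧
      ∀ z : ℂ, z ≠ 0 → ∃ c : ℂ, c ≠ 0 ∧ ver m (pv F z) = c • pv x z := by
  classical
  obtain ⟨x₁, hx₁, -, hx₁v⟩ := h 1 one_ne_zero
  obtain ⟨a, ha⟩ : ∃ a, x₁ a ≠ 0 := by
    by_contra hcon
    push Not at hcon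
    exact hx₁ (funext hcon)
  choose b hb using fun j => ver_near (Ω := ℂ) hm hd a j
  obtain ⟨g, F, hgF, hF⟩ := poly_gcd fun j => x (b j)
  have hg : g ≠ 0 := by
    rintro rfl
    have h1 : pv x 1 (b a) = 0 := by
      change (x (b a)).eval 1 = 0
      rw [hgF a, zero_mul, Polynomial.eval_zero]
    rw [hx₁v, hb] at h1
    exact mul_ne_zero (pow_ne_zero _ ha) ha h1
  have hF0 : ∀ z : ℂ, pv F z ≠ 0 := by
    intro z h0
    obtain ⟨j, hj⟩ := hF z
    exact hj (congrFun h0 j)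
  -- the proportionality
  have hrel : ∀ b b' : Fin (N + 1), ver m F b * x b' = ver m F b' * x b := by
    intro b₁ b₂
    rw [← sub_eq_zero]
    refine poly_zero hg fun z hz hgz => ?_
    obtain ⟨x', -, -, hx'⟩ := h z hz
    have h1 : pv F z = (x' a ^ (d - 1) / g.eval z) • x' := by
      funext j
      have h2 : g.eval z * (F j).eval z = x' a ^ (d - 1) * x' j := by
        rw [← Polynomial.eval_mul, ← hgF j]
        change pv x z (b j) = _
        rw [hx', hb]
      change (F j).eval z = _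
      rw [Pi.smul_apply, smul_eq_mul, div_mul_eq_mul_div, eq_div_iff hgz, ← h2, mul_comm]
    have h2 : ∀ b, (ver m F b).eval z = (x' a ^ (d - 1) / g.eval z) ^ d * (x b).eval z := by
      intro b
      have h3 := congrFun (pv_ver (m := m) F z) b
      rw [h1, ver_smul hm, ← hx'] at h3
      exact h3
    rw [Polynomial.eval_sub, Polynomial.eval_mul, Polynomial.eval_mul, h2, h2]
    ring
  have hprop : ∀ z : ℂ, z ≠ 0 → ∃ c : ℂ, c ≠ 0 ∧ ver m (pv F z) = c • pv x z := by
    intro z hz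
    obtain ⟨b₀, hb₀⟩ := Function.ne_iff.1 (hx0 z hz)
    have hb₀' : (x b₀).eval z ≠ 0 := hb₀
    have h1 : ver m (pv F z) = ((ver m F b₀).eval z / (x b₀).eval z) • pv x z := by
      rw [← pv_ver]
      funext b'
      have h2 := congrArg (Polynomial.eval z) (hrel b₀ b')
      rw [Polynomial.eval_mul, Polynomial.eval_mul] at h2
      change (ver m F b').eval z = _ * (x b').eval z
      rw [div_mul_eq_mul_div, eq_div_iff hb₀', ← h2]
    refine ⟨_, ?_, h1⟩
    intro h0
    rw [h0, zero_smul] at h1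
    exact ver_ne_zero hm hd (hF0 z) h1
  refine ⟨F, fun z _ => hF0 z, fun z hz p hp => ?_, hprop⟩
  obtain ⟨x', hx', hx'S, hx'v⟩ := h z hz
  obtain ⟨c, hc, hv⟩ := hprop z hz
  rw [hx'v] at hv
  obtain ⟨c', hc'⟩ := ver_prop hm hd (hF0 z) hv
  obtain ⟨e, he⟩ := hS p hp
  rw [hc', eval_scale he, hx'S p hp, mul_zero]

/-! ### the axioms -/

theorem gm_idl (n : ℕ) (S T : Set (MvPolynomial (Fin (n + 1)) ℂ)) : Idl (OnGmQ S T) where
  zero := fun f _ _ _ => Or.inr fun z _ => map_zero _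
  add := fun e G G' _ _ h h' f h0 hS hT => by
    rcases h f h0 hS hT with h1 | h1
    · exact Or.inl h1
    rcases h' f h0 hS hT with h2 | h2
    · exact Or.inl h2
    exact Or.inr fun z hz => by rw [map_add, h1 z hz, h2 z hz, add_zero]
  mul := fun G F _ _ h f h0 hS hT => by
    rcases h f h0 hS hT with h1 | h1
    · exact Or.inl h1
    exact Or.inr fun z hz => by rw [map_mul, h1 z hz, zero_mul]
  rad := fun G r _ h f h0 hS hT => by
    rcases h f h0 hS hT with h1 | h1
    · exact Or.inl h1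
    refine Or.inr fun z hz => ?_
    have h2 := h1 z hz
    rw [map_pow] at h2
    exact qc_pow h2

theorem gm_restr (n : ℕ) (S T : Set (MvPolynomial (Fin (n + 1)) ℂ)) (L : Type) [Field L]
    [Algebra ℂ L] (y : Fin (n + 1) → L) (G H : MvPolynomial (Fin (n + 1)) ℂ)
    (hF : ∀ F, IsForm F → aeval y F = 0 → OnGmQ S T (F * H)) (hG : OnGmQ (Eqs y) T G) :
    OnGmQ S T (G * H) := by
  intro f hf0 hfS hfT
  by_cases hcon : ∀ z w : ℂ, z ≠ 0 → w ≠ 0 → ∃ c : ℂ, pv f w = c • pv f z
  · exact Or.inl hcon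
  right
  by_cases hH0 : aeval f H = 0
  · intro z hz
    rw [map_mul, (gm_zero_iff f H).2 hH0 z hz, mul_zero]
  have hE : ∀ z : ℂ, z ≠ 0 → ∀ p ∈ Eqs y, eval (pv f z) p = 0 := by
    intro z hz p hp
    have h1 := (gm_zero_iff f _).1 ((hF p hp.1 hp.2 f hf0 hfS hfT).resolve_left hcon)
    rw [map_mul, mul_eq_zero] at h1
    exact (gm_zero_iff f p).2 (h1.resolve_right hH0) z hz
  intro z hz
  have h3 := (hG f hf0 hE hfT).resolve_left hcon
  rw [map_mul, h3 z hz, zero_mul]

theorem gm_point (n : ℕ) (T : Set (MvPolynomial (Fin (n + 1)) ℂ)) (L : Type) [Field L]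
    [Algebra ℂ L] (y : Fin (n + 1) → L) (hy : Gen L 0 y) : OnGmQ (Eqs y) T 1 := by
  have h1 := hy.dim
  rw [Nat.cast_zero, trdeg_eq_zero_iff] at h1
  have hsurj : Function.Surjective (algebraMap ℂ L) :=
    (IsAlgClosed.algebraMap_bijective_of_isIntegral (k := ℂ) (K := L)).2
  choose c hc using fun j => hsurj (y j)
  have hc0 : c ≠ 0 := by
    intro h
    apply hy.ne
    funext j
    rw [← hc j, h, Pi.zero_apply, Pi.zero_apply, map_zero]
  obtain ⟨a, ha⟩ : ∃ a, c a ≠ 0 := by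
    by_contra hcon
    push Not at hcon
    exact hc0 (funext hcon)
  have hform : ∀ i j, (C (c i) * X j - C (c j) * X i : MvPolynomial (Fin (n + 1)) ℂ) ∈ Eqs y := by
    intro i j
    refine ⟨⟨1, ?_⟩, ?_⟩
    · have h2 : ∀ i j, (C (c i) * X j : MvPolynomial (Fin (n + 1)) ℂ).IsHomogeneous 1 := by
        intro i j
        have := (isHomogeneous_C (Fin (n + 1)) (c i)).mul (isHomogeneous_X ℂ j)
        rwa [zero_add] at this
      exact (h2 i j).sub (h2 j i)
    · rw [map_sub, map_mul, map_mul, aeval_X, aeval_X, aeval_C, aeval_C, hc, hc]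
      ring
  intro f hf0 hfS _
  left
  have h5 : ∀ z : ℂ, z ≠ 0 → ∀ j, c a * pv f z j = c j * pv f z a := by
    intro z hz j
    have h6 := hfS z hz _ (hform a j)
    rwa [map_sub, map_mul, map_mul, eval_X, eval_X, eval_C, eval_C, sub_eq_zero] at h6
  have h7 : ∀ z : ℂ, z ≠ 0 → pv f z a ≠ 0 := by
    intro z hz h
    apply hf0 z hz
    funext j
    have h8 := h5 z hz j
    rw [h, mul_zero, mul_eq_zero] at h8
    exact h8.resolve_left ha
  intro z w hz hw
  refine ⟨pv f w a / pv f z a, ?_⟩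
  funext j
  rw [Pi.smul_apply, smul_eq_mul, div_mul_eq_mul_div, eq_div_iff (h7 z hz)]
  have h8 := h5 z hz j
  have h9 := h5 w hw j
  apply mul_left_cancel₀ ha
  linear_combination (pv f z a) * h9 - (pv f w a) * h8

theorem gm_coord (n : ℕ) (S T : Set (MvPolynomial (Fin (n + 1)) ℂ))
    (G : MvPolynomial (Fin (n + 1)) ℂ) (h : ∀ j, OnGmQ S T (G * X j)) : OnGmQ S T G := by
  intro f hf0 hfS hfT
  by_cases hcon : ∀ z w : ℂ, z ≠ 0 → w ≠ 0 → ∃ c : ℂ, pv f w = c • pv f z
  · exact Or.inl hcon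
  right
  intro z hz
  obtain ⟨j, hj⟩ : ∃ j, pv f z j ≠ 0 := by
    by_contra h1
    push Not at h1
    exact hf0 z hz (funext h1)
  have h1 := (h j f hf0 hfS hfT).resolve_left hcon z hz
  rw [map_mul, eval_X, mul_eq_zero] at h1
  exact h1.resolve_right hj

theorem gm_away (n : ℕ) (S T : Set (MvPolynomial (Fin (n + 1)) ℂ))
    (H : MvPolynomial (Fin (n + 1)) ℂ) (h : ∀ F ∈ T, OnGmQ S T (F * H)) : OnGmQ S T H := by
  intro f hf0 hfS hfT
  by_cases hcon : ∀ z w : ℂ, z ≠ 0 → w ≠ 0 → ∃ c : ℂ, pv f w = c • pv f z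
  · exact Or.inl hcon
  right
  intro z hz
  obtain ⟨F, hF, hF0⟩ := hfT z hz
  have h1 := (h F hF f hf0 hfS hfT).resolve_left hcon z hz
  rw [map_mul, mul_eq_zero] at h1
  exact h1.resolve_left hF0

/-! ### the entire curve of a morphism from the multiplicative group -/

/-- composition with the exponential function -/
noncomputable def expc {n : ℕ} (x : Fin (n + 1) → Polynomial ℂ) (z : ℂ) : Fin (n + 1) → ℂ :=
  pv x (Complex.exp z)

theorem expc_diff {n : ℕ} (x : Fin (n + 1) → Polynomial ℂ) : Differentiable ℂ (expc x) := by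
  rw [differentiable_pi]
  intro j
  exact (x j).differentiable.comp Complex.differentiable_exp

theorem expc_all {n : ℕ} {x : Fin (n + 1) → Polynomial ℂ} {Q : (Fin (n + 1) → ℂ) → Prop} :
    (∀ z, Q (expc x z)) ↔ ∀ z : ℂ, z ≠ 0 → Q (pv x z) := by
  constructor
  · intro h z hz
    have := h (Complex.log z)
    unfold expc at this
    rwa [Complex.exp_log hz] at this
  · intro h z
    exact h _ (Complex.exp_ne_zero z)

theorem expc_const {n : ℕ} {x : Fin (n + 1) → Polynomial ℂ}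
    (h : ∀ z w, ∃ c : ℂ, expc x w = c • expc x z) :
    ∀ z w : ℂ, z ≠ 0 → w ≠ 0 → ∃ c : ℂ, pv x w = c • pv x z := by
  intro z w hz hw
  have := h (Complex.log z) (Complex.log w)
  unfold expc at this
  rwa [Complex.exp_log hz, Complex.exp_log hw] at this

/-- the transfer, given the lift -/
theorem gm_down (hm : Mon n N d m) (hd : 1 ≤ d) {x : Fin (N + 1) → Polynomial ℂ}
    {F : Fin (n + 1) → Polynomial ℂ} (hx0 : ∀ z : ℂ, z ≠ 0 → pv x z ≠ 0)
    (hF : ∀ z : ℂ, z ≠ 0 → ∃ c : ℂ, c ≠ 0 ∧ ver m (pv F z) = c • pv x z)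
    (h : ∀ z w : ℂ, z ≠ 0 → w ≠ 0 → ∃ c : ℂ, pv F w = c • pv F z) :
    ∀ z w : ℂ, z ≠ 0 → w ≠ 0 → ∃ c : ℂ, pv x w = c • pv x z := by
  intro z w hz hw
  obtain ⟨c, hc⟩ := h z w hz hw
  obtain ⟨c₁, hc₁, h1⟩ := hF z hz
  obtain ⟨c₂, hc₂, h2⟩ := hF w hw
  refine ⟨c₂⁻¹ * (c ^ d * c₁), ?_⟩
  rw [hc, ver_smul hm, h1] at h2
  rw [mul_smul, mul_smul, h2, smul_smul, inv_mul_cancel₀ hc₂, one_smul]

theorem gm_transfer {S : Set (MvPolynomial (Fin (n + 1)) ℂ)} {A : MvPolynomial (Fin (N + 1)) ℂ}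
    (hg : Good n N d m S A) {T : Set (MvPolynomial (Fin (n + 1)) ℂ)}
    {T' : Set (MvPolynomial (Fin (N + 1)) ℂ)} (hT : Lifts m d T T')
    {G : MvPolynomial (Fin (N + 1)) ℂ} (hG : IsForm G) :
    OnGmQ {A} T' G ↔ OnGmQ S T (pull m G) := by
  have hd0 : d ≠ 0 := by
    have := hg.deg
    omega
  constructor
  · intro h F hF0 hFS hFT
    rcases h (ver m F) (fun z hz => by
        rw [pv_ver]
        exact ver_ne_zero hg.mon hg.deg (hF0 z hz)) (fun z hz p hp => by
        rw [Set.mem_singleton_iff] at hp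
        rw [hp, pv_ver]
        exact hg.sub ℂ (pv F z) (hFS z hz)) (fun z hz => by
        obtain ⟨H, hH, hH0⟩ := hFT z hz
        obtain ⟨G', hG', e, -, -, hpull⟩ := hT.up H hH
        refine ⟨G', hG', ?_⟩
        rw [pv_ver, ← eval_pull, hpull, map_pow]
        exact pow_ne_zero _ hH0) with h1 | h1
    · left
      intro z w hz hw
      obtain ⟨c, hc⟩ := h1 z w hz hw
      rw [pv_ver, pv_ver] at hc
      exact ver_prop hg.mon hg.deg (hF0 w hw) hc
    · right
      intro z hz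
      rw [eval_pull, ← pv_ver]
      exact h1 z hz
  · intro h x hx0 hxA hxT
    by_cases hcon : ∀ z w : ℂ, z ≠ 0 → w ≠ 0 → ∃ c : ℂ, pv x w = c • pv x z
    · exact Or.inl hcon
    · right
      have h1 := (hg.curves (expc x) (expc_diff x) (fun z => hx0 _ (Complex.exp_ne_zero z))
        (fun z => hxA _ (Complex.exp_ne_zero z) A rfl)).resolve_left fun h => hcon (expc_const h)
      obtain ⟨F, hF0, hFS, hFx⟩ := gm_lift hg.mon hg.deg hg.homS x hx0
        (expc_all (Q := fun v => ∃ x' : Fin (n + 1) → ℂ, x' ≠ 0 ∧ (∀ p ∈ S, eval x' p = 0) ∧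
          v = ver m x') |>.1 h1)
      rcases h F hF0 hFS (fun z hz => by
          obtain ⟨G', hG', hG0⟩ := hxT z hz
          obtain ⟨H, hH, e, -, he', hpull⟩ := hT.down G' hG'
          refine ⟨H, hH, fun h0 => hG0 ?_⟩
          obtain ⟨c, hc, hv⟩ := hFx z hz
          have h2 : eval (ver m (pv F z)) G' = 0 := by
            rw [← eval_pull, hpull, map_pow, h0, zero_pow hd0]
          rw [hv, eval_scale he'] at h2
          exact (mul_eq_zero.1 h2).resolve_left (pow_ne_zero _ hc)) with h2 | h2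
      · exact absurd (gm_down hg.mon hg.deg hx0 hFx h2) hcon
      · intro z hz
        have h3 := h2 z hz
        obtain ⟨c, hc, hv⟩ := hFx z hz
        obtain ⟨e, he⟩ := hG
        rw [eval_pull, hv, eval_scale he] at h3
        exact (mul_eq_zero.1 h3).resolve_left (pow_ne_zero _ hc)

/-- the exceptional sets of the morphisms from the multiplicative group -/
theorem exc_gm : Exc (fun _ S T G => OnGmQ S T G) where
  idl := gm_idl
  van := by
    intro n S T G _ h f _ hfS _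
    right
    intro z hz
    exact h ℂ (pv f z) (hfS z hz)
  restr := by
    intro n S T L _ _ y G H _ _ hF hG
    exact gm_restr n S T L y G H hF hG
  mono := by
    intro n S S' T hSS G h f hf0 hfS hfT
    exact h f hf0 (fun z hz => hSS ℂ (pv f z) (hfS z hz)) hfT
  coord := fun n S T G _ h => gm_coord n S T G h
  away := fun n S T H _ _ h => gm_away n S T H h
  point := gm_point
  transfer := fun n N d m S A hg _ T T' hT G hG => gm_transfer hg hT hG

theorem trans_gm : TransC (fun _ S T G => OnGmQ S T G) := by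
  intro n N d m S H A hg G hG
  constructor
  · intro h F hF0 hFS hFT
    rcases h (ver m F) (fun z hz => by
        rw [pv_ver]
        exact ver_ne_zero hg.mon hg.deg (hF0 z hz))
        (fun z hz p hp => absurd hp (Set.notMem_empty _)) (fun z hz => by
        obtain ⟨H', hH, hH0⟩ := hFT z hz
        rw [Set.mem_singleton_iff] at hH
        subst hH
        refine ⟨A, rfl, ?_⟩
        rw [pv_ver]
        exact (hg.eval_iff (hFS z hz)).2 hH0) with h1 | h1
    · left
      intro z w hz hw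
      obtain ⟨c, hc⟩ := h1 z w hz hw
      rw [pv_ver, pv_ver] at hc
      exact ver_prop hg.mon hg.deg (hF0 w hw) hc
    · right
      intro z hz
      rw [eval_pull, ← pv_ver]
      exact h1 z hz
  · intro h x hx0 _ hxT
    by_cases hcon : ∀ z w : ℂ, z ≠ 0 → w ≠ 0 → ∃ c : ℂ, pv x w = c • pv x z
    · exact Or.inl hcon
    · right
      have hxA : ∀ z : ℂ, z ≠ 0 → eval (pv x z) A ≠ 0 := by
        intro z hz
        obtain ⟨A', hA, hA0⟩ := hxT z hz
        rw [Set.mem_singleton_iff] at hA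
        rwa [hA] at hA0
      have h1 := (hg.curves (expc x) (expc_diff x) (fun z => hx0 _ (Complex.exp_ne_zero z))
        (fun z => hxA _ (Complex.exp_ne_zero z))).resolve_left fun h => hcon (expc_const h)
      obtain ⟨F, hF0, hFS, hFx⟩ := gm_lift hg.mon hg.deg hg.homS x hx0
        (expc_all (Q := fun v => ∃ x' : Fin (n + 1) → ℂ, x' ≠ 0 ∧ (∀ p ∈ S, eval x' p = 0) ∧
          v = ver m x') |>.1 h1)
      rcases h F hF0 hFS (fun z hz => by
          refine ⟨H, rfl, (hg.eval_iff (hFS z hz)).1 ?_⟩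
          obtain ⟨c, hc, hv⟩ := hFx z hz
          obtain ⟨e, he⟩ := hg.homA
          rw [hv, eval_scale he]
          exact mul_ne_zero (pow_ne_zero _ hc) (hxA z hz)) with h2 | h2
      · exact absurd (gm_down hg.mon hg.deg hx0 hFx h2) hcon
      · intro z hz
        have h3 := h2 z hz
        obtain ⟨c, hc, hv⟩ := hFx z hz
        obtain ⟨e, he⟩ := hG
        rw [eval_pull, hv, eval_scale he] at h3
        exact (mul_eq_zero.1 h3).resolve_left (pow_ne_zero _ hc)

end Pool.Agent.W2helper39.LC
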