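import Pool.Agent.N254.SQ.GTA

/-!
Pluricanonical forms from circuits, with logarithmic poles: the forms of `GTA` are logarithmic at all
places where the sum of the jumps and of the order of the factor is nonnegative.
-/

set_option autoImplicit false

namespace Pool.Agent.W2helper39.LC

open FF Pool.Agent.W602.GT Pool.Agent.W603.LV Pool.Agent.N254.SQ

theorem gta_log (K : Type) [Field K] [Algebra ℂ K] (w : ℕ) (t : Fin w → K)
    (hbasis : IsTranscendenceBasis ℂ t) (I : Type) [Fintype I] (m : I → ℕ)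
    (T : ∀ i : I, Fin (m i + 1) → K) (hT : ∀ i j, T i j ≠ 0) (hsum : ∀ i, ∑ j, T i j = 0)
    (hlin : ∀ i, LinearIndependent ℂ (fun l => T i ((Fin.last (m i)).succAbove l))) :
    ∃ g₀ : K, g₀ ≠ 0 ∧ ∀ (h : K) (P : Place ℂ K), h ≠ 0 →
      (((∀ j, P.ord (t j) = 0) ∧ (∀ i j l, P.ord (T i j) = P.ord (T i l)) ∧ 0 ≤ P.ord h ∨
        ∃ b : ∀ i, Fin (m i + 1), (∀ i j, P.ord (T i (b i)) ≤ P.ord (T i j)) ∧
          (wt2 m : ℤ) ≤ ∑ i, ∑ j, (P.ord (T i j) - P.ord (T i (b i))) + P.ord h) →
      RegAt P (form t (wt2 m) (g₀ * h))) ∧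
      ((∃ b : ∀ i, Fin (m i + 1), (∀ i j, P.ord (T i (b i)) ≤ P.ord (T i j)) ∧
          0 ≤ ∑ i, ∑ j, (P.ord (T i j) - P.ord (T i (b i))) + P.ord h) →
      LogAt P (form t (wt2 m) (g₀ * h))) := by
  classical
  obtain ⟨lam, hlam⟩ := exists_lam ℂ w
  obtain ⟨D0, hD0⟩ := exists_der t hbasis (fun j => algebraMap ℂ K (lam j) * t j)
  have ht0 : ∀ j, t j ≠ 0 := by
    intro j hj
    have h4 := hbasis.1.transcendental j
    rw [hj] at h4
    exact h4 isAlgebraic_zero
  have hconst : ∀ h, D0 h = 0 → ∃ c : ℂ, h = algebraMap ℂ K c := fun h hh =>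
    const_of_der t hbasis lam hlam D0 hD0 hh
  have heta0 : ∀ i, eta D0 (T i) ≠ 0 := fun i =>
    div_ne_zero (wr_ne hconst _ (hlin i)) (Finset.prod_ne_zero_iff.2 fun j _ => hT i j)
  have hG0 : gta_G D0 T ≠ 0 := Finset.prod_ne_zero_iff.2 fun i _ =>
    mul_ne_zero (pow_ne_zero _ (heta0 i)) (Finset.prod_ne_zero_iff.2 fun j _ => hT i j)
  have hpt : (∏ j, t j) ≠ 0 := Finset.prod_ne_zero_iff.2 fun j _ => ht0 j
  refine ⟨gta_G D0 T / (∏ j, t j) ^ wt2 m, div_ne_zero hG0 (pow_ne_zero _ hpt), ?_⟩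
  intro h P hh
  have hkey : ∀ D : Fin w → Derivation ℂ K K,
      form t (wt2 m) (gta_G D0 T / (∏ j, t j) ^ wt2 m * h) D =
      h * (gta_G (con t lam D) T * (lmat t D).det) := by
    intro D
    have h1 : con t lam D = (lmat t D).det • D0 := by
      apply der_ext t hbasis
      intro l
      rw [con_t t lam D ht0 l, Derivation.coe_smul, Pi.smul_apply, hD0, smul_eq_mul]
      ring
    have h2 : (Matrix.of fun i j => D i (t j)).det = (∏ j, t j) * (lmat t D).det := by
      rw [← Matrix.det_mul_row]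
      congr 1
      ext i j
      simp only [Matrix.of_apply, lmat]
      have := ht0 j
      field_simp
    unfold form
    rw [h1, gta_smul, h2, mul_pow]
    have h3 : (lmat t D).det ^ wt2 m =
        (lmat t D).det ^ (∑ i, (m i + 1) * tn (m i)) * (lmat t D).det := by
      unfold wt2
      rw [pow_succ]
    rw [h3]
    field_simp
  refine ⟨fun halt D hD => ?_, fun halt D hD => ?_⟩
  · rw [hkey, reg_iff_ge]
    rcases halt with ⟨ht1, ht2, hh0⟩ | ⟨b, hb, hbb⟩
    · -- no zeros or poles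
      have hE := con_reg t lam D hD ht0 ht1
      have h1 := gta_ge (P := P) (E := con t lam D) hT (b := fun i => 0) (ε := 0) (fun i => by
        rw [zero_mul, sub_zero]
        exact eta_reg hE (hT i) (hsum i) 0 (fun j => ht2 i j 0))
      have h2 : Ge P 0 (lmat t D).det :=
        ge_det P _ 0 (fun _ _ => 0) (fun i l => ge_logder_reg (hD i) (ht0 l) (ht1 l))
          (fun σ => by simp)
      have h3 := (ge_ord P h).mul (h1.mul h2)
      refine h3.mono ?_
      have h4 : ∑ i, ∑ j, (P.ord (T i j) - P.ord (T i 0)) = 0 :=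
        Finset.sum_eq_zero fun i _ => Finset.sum_eq_zero fun j _ => by rw [ht2 i j 0, sub_self]
      rw [h4]
      linarith
    · have h1 := gta_ge (P := P) (E := con t lam D) hT (b := b) (ε := 1) (fun i => by
        have hE : ∀ x : K, x ≠ 0 → Ge P (-1) (con t lam D x / x) := fun x hx =>
          con_pole t lam D hD ht0 hx
        exact eta_log hE (hT i) (hsum i) (b i))
      have h2 : Ge P (-1) (lmat t D).det := det_log D hD t ht0
      have h3 := (ge_ord P h).mul (h1.mul h2)
      refine h3.mono ?_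
      unfold wt2 at hbb
      push_cast at hbb ⊢
      linarith
  · rw [hkey, reg_iff_ge]
    obtain ⟨b, hb, hbb⟩ := halt
    have h1 := gta_ge (P := P) (E := con t lam D) hT (b := b) (ε := 0) (fun i => by
      have hE : ∀ x : K, x ≠ 0 → Ge P (-0) (con t lam D x / x) := fun x hx => by
        rw [neg_zero]
        exact con_log t lam D hD x
      exact eta_log hE (hT i) (hsum i) (b i))
    have h2 : Ge P 0 (lmat t D).det :=
      ge_det P _ 0 (fun _ _ => 0) (fun i l => (reg_iff_ge P _).1 (hD i (t l)))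
        (fun σ => by simp)
    have h3 := (ge_ord P h).mul (h1.mul h2)
    refine h3.mono ?_
    linarith

end Pool.Agent.W2helper39.LC
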