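import Pool.Agent.N254.SQ.GT
import Pool.Agent.N254.SQ.Circ
import Pool.Agent.W2helper39.LC.Gta

/-!
Logarithmic general type from minimal vanishing sums with many powers: some of the terms may be units
outside of the boundary.
-/

set_option autoImplicit false

namespace Pool.Agent.W2helper39.LC

open MvPolynomial FF Pool.Agent.W602.GT Pool.Agent.W603.LV Pool.Agent.N254.SQ

/-- the main estimate at all places -/
theorem gt_numl {κ I : Type} [Fintype κ] [Fintype I] {m : I → ℕ} (E : ∀ i, Fin (m i + 1) → κ)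
    (b : ∀ i, Fin (m i + 1)) {M N₁ A A₁ D : ℕ} {c₀ i₀ : κ} {o : κ → ℤ} {g lc g₁ g₂ : ℤ} {c : ℤ}
    (hM : Fintype.card κ ≤ M) (hA : A ≤ A₁)
    (hD : 2 * A₁ * M + 2 * N₁ + 1 ≤ D)
    (hc₀ : o c₀ = g₁ + D * lc + c) (hi₀ : o i₀ = g₂ + c) (hl : 0 ≤ lc) (hg₁ : 0 ≤ g₁)
    (hg₂ : g₂ ≤ g) (hg : 0 ≤ g)
    (hb : ∀ i j, o (E i (b i)) ≤ o (E i j))
    (hdiff : ∀ i j, |o i - o j| ≤ Fintype.card κ * ∑ i, ∑ j, (o (E i j) - o (E i (b i)))) :
    2 * (A : ℤ) * lc ≤ ∑ i, ∑ j, (o (E i j) - o (E i (b i))) + g := by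
  classical
  obtain ⟨J, hJ⟩ : ∃ J, J = ∑ i, ∑ j, (o (E i j) - o (E i (b i))) := ⟨_, rfl⟩
  rw [← hJ] at hdiff ⊢
  have hJ0 : 0 ≤ J := by
    rw [hJ]
    exact Finset.sum_nonneg fun i _ => Finset.sum_nonneg fun j _ => sub_nonneg.2 (hb i j)
  have hκ : 1 ≤ Fintype.card κ := Fintype.card_pos_iff.2 ⟨i₀⟩
  have hM1 : (1 : ℤ) ≤ M := by exact_mod_cast hκ.trans hM
  have hMz : (Fintype.card κ : ℤ) ≤ M := by exact_mod_cast hM
  have hAz : (A : ℤ) ≤ A₁ := by exact_mod_cast hA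
  have hDz : 2 * (A₁ : ℤ) * M + 2 * N₁ + 1 ≤ D := by exact_mod_cast hD
  have hN0 : (0 : ℤ) ≤ N₁ := Int.natCast_nonneg _
  have hdM : ∀ i j, |o i - o j| ≤ M * J := fun i j =>
    (hdiff i j).trans (mul_le_mul_of_nonneg_right hMz hJ0)
  have h1 : (D : ℤ) * lc ≤ M * J + g := by
    have h2 := (abs_le.1 (hdM c₀ i₀)).2
    rw [hc₀, hi₀] at h2
    linarith
  have h5 : 2 * (A₁ : ℤ) * M * lc ≤ D * lc :=
    mul_le_mul_of_nonneg_right (by linarith) hl
  have h6 : 2 * (A : ℤ) * lc * M ≤ 2 * (A₁ : ℤ) * M * lc := by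
    have h7 : (A : ℤ) * (lc * M) ≤ A₁ * (lc * M) :=
      mul_le_mul_of_nonneg_right hAz (mul_nonneg hl (by linarith))
    nlinarith
  have h8 : g ≤ M * g := by nlinarith
  have h9 : 2 * (A : ℤ) * lc * M ≤ (J + g) * M := by
    calc 2 * (A : ℤ) * lc * M ≤ M * J + g := by linarith
      _ ≤ (J + g) * M := by linarith
  exact le_of_mul_le_mul_right h9 (by linarith)

theorem gt_log (e M : ℕ) : ∃ D₁ : ℕ, ∀ D, D₁ ≤ D → ∀ (K : Type) [Field K] [Algebra ℂ K] (n w : ℕ)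
    (y : Fin (n + 1) → K), 1 ≤ w → y ≠ 0 → coords ℂ y = ⊤ → Algebra.trdeg ℂ K = w →
    ∀ (Bd : Place ℂ K → Prop) (κ : Type) [Fintype κ], Fintype.card κ ≤ M → 2 ≤ Fintype.card κ →
    ∀ (u : κ → K) (S : Finset κ) (G lf : κ → MvPolynomial (Fin (n + 1)) ℂ) (p : Fin (n + 1) → ℕ)
      (ψ : Fin (n + 1) → κ), Function.Injective p →
      (∀ t ∈ S, (G t).IsHomogeneous e ∧ (lf t).IsHomogeneous 1 ∧
        u t = val y (G t) * val y (lf t) ^ D) →
      (∀ t, t ∉ S → ∀ P : Place ℂ K, ¬ Bd P → ∀ μ : ℤ, (∀ i, Ge P μ (y i)) →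
        (∃ j, y j ≠ 0 ∧ P.ord (y j) = μ) → P.ord (u t) = e * μ + D * μ) →
      (∀ i, ψ i ∈ S ∧ lf (ψ i) = lin ℂ n (p i)) →
      ∑ t, u t = 0 → (∀ B : Finset κ, B.Nonempty → B ≠ Finset.univ → ∑ t ∈ B, u t ≠ 0) →
      LogGeneralType ℂ K w Bd := by
  classical
  obtain ⟨N₁, hN₁⟩ : ∃ N₁, N₁ = M ^ 2 * (M * tn M) + 1 := ⟨_, rfl⟩
  obtain ⟨s, hs⟩ : ∃ s, s = N₁ + 1 := ⟨_, rfl⟩
  refine ⟨2 * (s * e * M + 1) * M + 2 * N₁ + 1, ?_⟩
  intro D hD K _ _ n w y hw hy0 hgen htr Bd κ _ hM hκ2 u S G lf p ψ hp hS hbd hψ hsum hmin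
  have hu0 : ∀ t, u t ≠ 0 := by
    intro t
    have := hmin {t} (Finset.singleton_nonempty t) (by
      intro h
      have := congrArg Finset.card h
      rw [Finset.card_singleton, Finset.card_univ] at this
      omega)
    rwa [Finset.sum_singleton] at this
  obtain ⟨Λ, hΛ⟩ : ∃ Λ : κ → K, ∀ t, val y (lf t) = Λ t := ⟨_, fun t => rfl⟩
  obtain ⟨g, hg⟩ : ∃ g : κ → K, ∀ t, val y (G t) = g t := ⟨_, fun t => rfl⟩
  have hu : ∀ t ∈ S, u t = g t * Λ t ^ D := fun t ht => by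
    rw [← hΛ, ← hg]
    exact (hS t ht).2.2
  have hg0 : ∀ t ∈ S, g t ≠ 0 := fun t ht => by
    have := hu0 t
    rw [hu t ht] at this
    exact left_ne_zero_of_mul this
  have hΛ0 : ∀ t ∈ S, Λ t ≠ 0 := by
    intro t ht h
    have := hu0 t
    rw [hu t ht, h] at this
    apply right_ne_zero_of_mul this
    exact zero_pow (by omega)
  have hψ0 : ∀ i, Λ (ψ i) ≠ 0 := fun i => hΛ0 _ (hψ i).1
  have hlinψ : ∀ i, val y (lin ℂ n (p i)) = Λ (ψ i) := fun i => by rw [← (hψ i).2, hΛ]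
  obtain ⟨I, _, m, E, T, hI, hm, hT0, hTsum, hTlin, hTord, hcon⟩ := GT_circuits u hu0
  obtain ⟨a, ha⟩ := GT_basis y hgen htr p hp (by
    rw [hlinψ]
    exact hψ0 0)
  simp only [hlinψ] at ha
  obtain ⟨t, ht⟩ : ∃ t : Fin w → K, (fun j => Λ (ψ (a j)) / Λ (ψ 0)) = t := ⟨_, rfl⟩
  rw [ht] at ha
  have htj : ∀ j, t j = Λ (ψ (a j)) / Λ (ψ 0) := fun j => by rw [← ht]
  obtain ⟨g₀, hg₀, hreg⟩ := gta_log K w t ha I m T hT0 hTsum hTlin
  obtain ⟨N, hN⟩ : ∃ N, N = wt2 m := ⟨_, rfl⟩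
  rw [← hN] at hreg
  have hNN₁ : N ≤ N₁ := by
    rw [hN, hN₁]
    unfold wt2
    apply Nat.add_le_add_right
    calc ∑ i, (m i + 1) * tn (m i) ≤ ∑ _i : I, M * tn M := by
          refine Finset.sum_le_sum fun i _ => ?_
          have h3 : m i + 1 ≤ M := (hm i).trans hM
          exact Nat.mul_le_mul h3 (tn_mono (by omega))
      _ = Fintype.card I * (M * tn M) := by
          rw [Finset.sum_const, Finset.card_univ, smul_eq_mul]
      _ ≤ M ^ 2 * (M * tn M) :=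
          Nat.mul_le_mul_right _ (hI.trans (Nat.pow_le_pow_left hM 2))
  obtain ⟨A, hA⟩ : ∃ A, A = s * e * S.card + 1 := ⟨_, rfl⟩
  have hAA₁ : A ≤ s * e * M + 1 := by
    rw [hA]
    exact Nat.add_le_add_right (Nat.mul_le_mul_left _ ((Finset.card_le_univ S).trans hM)) 1
  let c : Fin (w + 1) → Fin (n + 1) := Fin.cases 0 a
  obtain ⟨h, hh⟩ : ∃ h : Fin (w + 1) → K, ∀ j,
      (∏ t ∈ S, g t) ^ s * Λ (ψ (c j)) / Λ (ψ 0) ^ A = h j := ⟨_, fun j => rfl⟩
  have hprod : ∏ t ∈ S, g t ≠ 0 := Finset.prod_ne_zero_iff.2 fun t ht => hg0 t ht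
  have hh0 : ∀ j, h j ≠ 0 := fun j => by
    rw [← hh]
    exact div_ne_zero (mul_ne_zero (pow_ne_zero _ hprod) (hψ0 _)) (pow_ne_zero _ (hψ0 _))
  -- the orders
  have hP : ∀ (P : Place ℂ K) (j : Fin (w + 1)), ∃ (b : ∀ i, Fin (m i + 1)),
      (∀ i j, P.ord (T i (b i)) ≤ P.ord (T i j)) ∧
      0 ≤ ∑ i, ∑ j, (P.ord (T i j) - P.ord (T i (b i))) + P.ord (h j) ∧
      (¬ Bd P → ((∀ j, P.ord (t j) = 0) ∧ (∀ i j l, P.ord (T i j) = P.ord (T i l)) ∧
          0 ≤ P.ord (h j)) ∨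
          (N : ℤ) ≤ ∑ i, ∑ j, (P.ord (T i j) - P.ord (T i (b i))) + P.ord (h j)) := by
    intro P j
    -- the minimal order of the coordinates
    obtain ⟨j₀, hj₀, hmin₀⟩ : ∃ j₀, y j₀ ≠ 0 ∧ ∀ i, y i ≠ 0 → P.ord (y j₀) ≤ P.ord (y i) := by
      have hne : (Finset.univ.filter fun i => y i ≠ 0).Nonempty := by
        by_contra hcon
        rw [Finset.not_nonempty_iff_eq_empty, Finset.filter_eq_empty_iff] at hcon
        apply hy0
        funext i
        have := hcon (Finset.mem_univ i)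
        simpa using this
      obtain ⟨j₀, h3, h4⟩ := Finset.exists_min_image _ (fun i => P.ord (y i)) hne
      exact ⟨j₀, (Finset.mem_filter.1 h3).2,
        fun i hi => h4 i (Finset.mem_filter.2 ⟨Finset.mem_univ i, hi⟩)⟩
    obtain ⟨μ, hμd⟩ : ∃ μ, μ = P.ord (y j₀) := ⟨_, rfl⟩
    rw [← hμd] at hmin₀
    have hμ : ∀ i, Ge P μ (y i) := fun i => by
      by_cases h : y i = 0
      · exact Or.inl h
      · exact Or.inr (hmin₀ i h)
    have hgμ : ∀ t ∈ S, 0 ≤ P.ord (g t) - e * μ := fun t ht => by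
      have h3 := GT_ge P y hμ (hS t ht).1
      rw [hg] at h3
      exact sub_nonneg.2 (h3.resolve_left (hg0 t ht))
    have hΛμ : ∀ t ∈ S, 0 ≤ P.ord (Λ t) - μ := fun t ht => by
      have h3 := GT_ge P y hμ (hS t ht).2.1
      rw [hΛ] at h3
      have h4 := h3.resolve_left (hΛ0 t ht)
      rw [Nat.cast_one, one_mul] at h4
      exact sub_nonneg.2 h4
    obtain ⟨i₀, hi₀⟩ : ∃ i : Fin (n + 1), P.ord (Λ (ψ i)) - μ = 0 := by
      by_contra hcon
      push Not at hcon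
      obtain ⟨B, hB⟩ := GT_inv p hp y
      have h3 : Ge P (μ + 1) (y j₀) := by
        rw [hB j₀]
        refine Ge.sum _ _ fun s _ => ?_
        rw [hlinψ]
        have h4 : Ge P (μ + 1) (Λ (ψ s)) := Or.inr (by
          have h5 := hΛμ (ψ s) (hψ s).1
          have h6 := hcon s
          omega)
        have h7 := (Ge.const (P := P) (B j₀ s)).mul h4
        rwa [zero_add] at h7
      rcases h3 with h | h
      · exact hj₀ h
      · omega
    -- orders of the terms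
    have ho : ∀ t ∈ S, P.ord (u t) = (P.ord (g t) - e * μ) + D * (P.ord (Λ t) - μ) +
        (e * μ + D * μ) := by
      intro t ht
      rw [hu t ht, P.ord_mul (hg0 t ht) (pow_ne_zero _ (hΛ0 t ht)), P.ord_pow]
      ring
    have hb : ∀ i, ∃ b : Fin (m i + 1), ∀ j, P.ord (u (E i b)) ≤ P.ord (u (E i j)) := fun i =>
      Finite.exists_min _
    choose b hb using hb
    have hJ0 : 0 ≤ ∑ i, ∑ j, (P.ord (u (E i j)) - P.ord (u (E i (b i)))) :=
      Finset.sum_nonneg fun i _ => Finset.sum_nonneg fun j _ => sub_nonneg.2 (hb i j)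
    have hJ : ∀ x z, GT_con u x z → |P.ord (u x) - P.ord (u z)| ≤
        ∑ i, ∑ j, (P.ord (u (E i j)) - P.ord (u (E i (b i)))) := by
      intro x z hxz
      obtain ⟨i, j, l, rfl, rfl⟩ := hcon x z hxz
      have h3 : ∀ j, P.ord (u (E i j)) - P.ord (u (E i (b i))) ≤
          ∑ i, ∑ j, (P.ord (u (E i j)) - P.ord (u (E i (b i)))) := by
        intro j
        refine le_trans ?_ (Finset.single_le_sum
            (f := fun i => ∑ j, (P.ord (u (E i j)) - P.ord (u (E i (b i)))))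
            (fun i _ => Finset.sum_nonneg fun j _ => sub_nonneg.2 (hb i j)) (Finset.mem_univ i))
        exact Finset.single_le_sum (f := fun j => P.ord (u (E i j)) - P.ord (u (E i (b i))))
            (fun j _ => sub_nonneg.2 (hb i j)) (Finset.mem_univ j)
      have h4 := h3 j
      have h5 := h3 l
      have h6 := hb i j
      have h7 := hb i l
      rw [abs_le]
      constructor <;> linarith
    have hdiff := GT_diff t_circ u hsum hmin (fun t => P.ord (u t)) _ hJ hJ0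
    have hord : P.ord (h j) = s * ∑ t ∈ S, (P.ord (g t) - e * μ) - A * (P.ord (Λ (ψ 0)) - μ) +
        (P.ord (Λ (ψ (c j))) - μ) := by
      rw [← hh, P.ord_div (mul_ne_zero (pow_ne_zero _ hprod) (hψ0 _)) (pow_ne_zero _ (hψ0 _)),
        P.ord_mul (pow_ne_zero _ hprod) (hψ0 _), P.ord_pow, P.ord_pow,
        ord_prod' P _ _ (fun t ht => hg0 t ht), Finset.sum_sub_distrib, Finset.sum_const,
        nsmul_eq_mul, hA]
      push_cast
      ring
    have hgS : 0 ≤ ∑ t ∈ S, (P.ord (g t) - e * μ) := Finset.sum_nonneg hgμ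
    have hcj := hΛμ (ψ (c j)) (hψ _).1
    have hc0 := hΛμ (ψ 0) (hψ _).1
    refine ⟨b, fun i j => by rw [hTord, hTord]; exact hb i j, ?_, fun hBd => ?_⟩
    · simp only [hTord]
      have h5 := gt_numl E b (M := M) (N₁ := N₁) (D := D) (c₀ := ψ 0) (i₀ := ψ i₀)
        (o := fun t => P.ord (u t)) (g := ∑ t ∈ S, (P.ord (g t) - e * μ))
        (lc := P.ord (Λ (ψ 0)) - μ) (g₁ := P.ord (g (ψ 0)) - e * μ)
        (g₂ := P.ord (g (ψ i₀)) - e * μ) (c := e * μ + D * μ) hM hAA₁ hD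
        (ho _ (hψ _).1) (by
          change P.ord (u (ψ i₀)) = _
          rw [ho _ (hψ _).1, hi₀]
          ring) hc0 (hgμ _ (hψ _).1)
        (Finset.single_le_sum (f := fun t => P.ord (g t) - e * μ) hgμ (hψ i₀).1) hgS hb hdiff
      rw [hord]
      have hs1 : (1 : ℤ) ≤ s := by rw [hs]; push_cast; linarith [Int.natCast_nonneg N₁]
      have hA0 : (0 : ℤ) ≤ A := Int.natCast_nonneg _
      have h6 : ∑ t ∈ S, (P.ord (g t) - e * μ) ≤ s * ∑ t ∈ S, (P.ord (g t) - e * μ) := by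
        nlinarith
      have h7 : 0 ≤ (A : ℤ) * (P.ord (Λ (ψ 0)) - μ) := mul_nonneg hA0 hc0
      nlinarith
    · obtain ⟨gg, hgg⟩ : ∃ gg : κ → ℤ, gg = fun t => if t ∈ S then P.ord (g t) - e * μ else 0 :=
        ⟨_, rfl⟩
      obtain ⟨ll, hll⟩ : ∃ ll : κ → ℤ, ll = fun t => if t ∈ S then P.ord (Λ t) - μ else 0 :=
        ⟨_, rfl⟩
      have hsumS : ∑ t, gg t = ∑ t ∈ S, (P.ord (g t) - e * μ) := by
        rw [hgg]
        simp only
        rw [Finset.sum_ite_mem, Finset.univ_inter]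
      have hll0 : ll (ψ 0) = P.ord (Λ (ψ 0)) - μ := by rw [hll]; exact if_pos (hψ 0).1
      have key := GT_num E b (M := M) (D := D) (A := A) (A₁ := s * e * M + 1) (s := s)
        (N := N) (N₁ := N₁) (c₀ := ψ 0) (i₀ := ψ i₀) (o := fun t => P.ord (u t)) (l := ll)
        (gg := gg) (c := e * μ + D * μ) (h := P.ord (h j)) hNN₁ hM hs hAA₁ hD (by
          intro t
          change P.ord (u t) = _
          by_cases hts : t ∈ S
          · rw [ho t hts, hgg, hll]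
            simp only [if_pos hts]
          · rw [hbd t hts P hBd μ hμ ⟨j₀, hj₀, hμd.symm⟩, hgg, hll]
            simp only [if_neg hts]
            ring) (by
          intro t
          rw [hll]
          simp only
          split_ifs with hts
          · exact hΛμ t hts
          · exact le_rfl) (by
          intro t
          rw [hgg]
          simp only
          split_ifs with hts
          · exact hgμ t hts
          · exact le_rfl) hb hdiff (by
          rw [hll]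
          simp only
          rw [if_pos (hψ i₀).1]
          exact hi₀) (by
          rw [hsumS, hord, hll0]
          linarith)
      rcases key with ⟨k1, k2, k3⟩ | k
      · left
        refine ⟨fun l => ?_, fun i j l => ?_, k3⟩
        · rw [htj, P.ord_div (hψ0 _) (hψ0 _)]
          have h3 := k1 (ψ (a l))
          have h4 := k1 (ψ 0)
          rw [hll] at h3 h4
          simp only [if_pos (hψ _).1] at h3 h4
          linarith
        · rw [hTord, hTord]
          exact k2 i j l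
      · right
        simp only [hTord]
        exact k
  refine ⟨htr, N, by rw [hN]; unfold wt2; omega, fun j => form t N (g₀ * h j),
    fun j => form_pluri t N _, fun P _ j => ?_, fun P _ hBd j => ?_, ?_⟩
  · obtain ⟨b, hb1, hb2, -⟩ := hP P j
    exact (hreg (h j) P (hh0 j)).2 ⟨b, hb1, hb2⟩
  · obtain ⟨b, hb1, -, hb3⟩ := hP P j
    apply (hreg (h j) P (hh0 j)).1
    rcases hb3 hBd with h1 | h1
    · exact Or.inl h1
    · exact Or.inr ⟨b, hb1, h1⟩
  · obtain ⟨Dd, hDd⟩ := exists_dual ha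
    have hf : ∀ j, form t N (g₀ * h j) Dd = g₀ * h j := fun j => by
      unfold form
      rw [hDd, Matrix.det_one, one_pow, mul_one]
    refine ⟨Dd, ?_, ?_⟩
    · change form t N (g₀ * h 0) Dd ≠ 0
      rw [hf]
      exact mul_ne_zero hg₀ (hh0 0)
    · have h3 : (fun i : Fin w => form t N (g₀ * h i.succ) Dd / form t N (g₀ * h 0) Dd) = t := by
        funext i
        rw [hf, hf, htj, ← hh, ← hh]
        have h4 := hψ0 0
        change g₀ * ((∏ t ∈ S, g t) ^ s * Λ (ψ (a i)) / Λ (ψ 0) ^ A) /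
          (g₀ * ((∏ t ∈ S, g t) ^ s * Λ (ψ 0) / Λ (ψ 0) ^ A)) = _
        have h5 := pow_ne_zero s hprod
        have h6 := pow_ne_zero A h4
        field_simp
      change AlgebraicIndependent ℂ
        (fun i : Fin w => form t N (g₀ * h i.succ) Dd / form t N (g₀ * h 0) Dd)
      rw [h3]
      exact ha.1

end Pool.Agent.W2helper39.LC
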