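import Pool.Agent.W2helper39.LC.Trans2
import Pool.Agent.N254.SQ.Qimp
import Pool.Agent.N254.SQ.Qeq
import Pool.Agent.N254.SQ.Qforw

/-!
From the smooth affine varieties `P^N ∖ {A = 0}` to all affine varieties (adapted from
`N254/SQ/Qimp` and `N254/SQ/Qeq`).
-/

set_option autoImplicit false

namespace Pool.Agent.W2helper39.LC

open MvPolynomial FF Filter Topology Metric
open Pool.Agent.N254.SQ
open Pool.Agent.W602.GT (SubVar LogGeneralType coords)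

/-- the construction -/
def ConsC (D₁ : ℕ → ℕ) : Prop := ∀ (n d : ℕ), 1 ≤ n → 3 ≤ d →
    ∀ (N : ℕ) (m : Fin (N + 1) → Fin (n + 1) → ℕ), Mon n N d m → 2 * n < N →
      ∀ D, D₁ N ≤ D → ∀ S : Set (MvPolynomial (Fin (n + 1)) ℂ),
        (∀ p ∈ S, ∃ e ≤ d, p.IsHomogeneous e) → ∀ (e : ℕ) (H : MvPolynomial (Fin (n + 1)) ℂ),
        1 ≤ e → e ∣ d → H.IsHomogeneous e →
        ∃ (ℓ : MvPolynomial (Fin (N + 1)) ℂ) (Q : Fin (Mn N) → MvPolynomial (Fin (N + 1)) ℂ),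
          ℓ.IsHomogeneous 1 ∧ (∀ t, (Q t).IsHomogeneous 2) ∧ SmoothForm (affineForm D ℓ Q) ∧
          GoodC n N d m S H (affineForm D ℓ Q)

/-- the exceptional sets of `P^N ∖ {A = 0}` and of its closed subset `V(S) ∖ {H = 0}` agree -/
def TransC (P : ∀ n : ℕ, Set (MvPolynomial (Fin (n + 1)) ℂ) →
    Set (MvPolynomial (Fin (n + 1)) ℂ) → MvPolynomial (Fin (n + 1)) ℂ → Prop) : Prop :=
  ∀ (n N d : ℕ) (m : Fin (N + 1) → Fin (n + 1) → ℕ) (S : Set (MvPolynomial (Fin (n + 1)) ℂ))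
    (H : MvPolynomial (Fin (n + 1)) ℂ) (A : MvPolynomial (Fin (N + 1)) ℂ), GoodC n N d m S H A →
    ∀ G, IsForm G → (P N ∅ {A} G ↔ P n S {H} (pull m G))

/-- the property of all smooth forms `ℓ ^ (D + 2) + ∑ t, Q_t (y_0 + ⋯ + t^N y_N)^D`, `D` in `E` -/
def ForA (D₁ : ℕ → ℕ) (E : Set ℕ) (W : ∀ N : ℕ, MvPolynomial (Fin (N + 1)) ℂ → Prop) : Prop :=
  ∀ (N D : ℕ) (ℓ : MvPolynomial (Fin (N + 1)) ℂ)
    (Q : Fin (N * (2 * N + 3)) → MvPolynomial (Fin (N + 1)) ℂ), D ∈ E → D₁ N ≤ D →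
    ℓ.IsHomogeneous 1 → (∀ t, (Q t).IsHomogeneous 2) → SmoothForm (affineForm D ℓ Q) →
    W N (affineForm D ℓ Q)

/-- a common degree -/
theorem common_deg {n : ℕ} {S : Set (MvPolynomial (Fin (n + 1)) ℂ)} {d e : ℕ} (hd : 3 ≤ d)
    (he : 1 ≤ e) (hS : ∀ p ∈ S, ∃ e' ≤ d, p.IsHomogeneous e') :
    3 ≤ d * e ∧ e ∣ d * e ∧ ∀ p ∈ S, ∃ e' ≤ d * e, p.IsHomogeneous e' := by
  have h1 : d ≤ d * e := Nat.le_mul_of_pos_right _ he
  refine ⟨hd.trans h1, dvd_mul_left _ _, fun p hp => ?_⟩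
  obtain ⟨e', he', hp'⟩ := hS p hp
  exact ⟨e', he'.trans h1, hp'⟩

/-- if no component of the exceptional sets `P` of the `P^N ∖ {A = 0}` is of log general type, then `P`
is a proper subset for all affine varieties of log general type -/
theorem imp_c {D₁ : ℕ → ℕ} (hGeo : ConsC D₁) {E : Set ℕ} (hE : E.Infinite)
    {P : ∀ n : ℕ, Set (MvPolynomial (Fin (n + 1)) ℂ) → Set (MvPolynomial (Fin (n + 1)) ℂ) →
      MvPolynomial (Fin (n + 1)) ℂ → Prop} (hP : Exc P) (hPT : TransC P)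
    (hFor : ForA D₁ E fun N A => ∀ (L : Type) [Field L] [Algebra ℂ L] (w : ℕ)
      (y : Fin (N + 1) → L), 1 ≤ w → Gen L w y → NotIn {A} y →
      LogGeneral {A} L w y → ¬ Component (P N ∅ {A}) y)
    (n e : ℕ) (H₀ : MvPolynomial (Fin (n + 1)) ℂ) (he1 : 1 ≤ e) (hH₀ : H₀.IsHomogeneous e)
    (L : Type) [Field L] [Algebra ℂ L] (w : ℕ) (y : Fin (n + 1) → L)
    (hw : 1 ≤ w) (hy : Gen L w y) (hyT : NotIn {H₀} y) (hlog : LogGeneral {H₀} L w y) :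
    ∃ G, IsForm G ∧ aeval y G ≠ 0 ∧ P n (Eqs y) {H₀} G := by
  by_contra hcon
  push Not at hcon
  have hn : 1 ≤ n := by
    rcases Nat.eq_zero_or_pos n with h0 | h0
    · subst h0
      exact (qi_no hw hy).elim
    · exact h0
  obtain ⟨S₀, d₀, hSame, hd₀3, hd₀⟩ := qi_same (Eqs y) (fun p hp => hp.1)
  obtain ⟨hd3, hed, hd⟩ := common_deg hd₀3 he1 hd₀
  obtain ⟨d, hdd⟩ : ∃ d, d = d₀ * e := ⟨_, rfl⟩
  rw [← hdd] at hd3 hed hd
  obtain ⟨N, m, hm, hN⟩ := t_num n d hn hd3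
  obtain ⟨D, hD, hD2⟩ := hE.exists_gt (D₁ N)
  obtain ⟨ℓ, Q, hℓ, hQ, hsm, hg⟩ := hGeo n d hn hd3 N m hm hN D hD2.le S₀ hd e H₀ he1 hed hH₀
  have hFor' := hFor N D ℓ Q hD hD2.le hℓ hQ hsm
  obtain ⟨A, hA⟩ : ∃ A, A = affineForm D ℓ Q := ⟨_, rfl⟩
  rw [← hA] at hg hFor'
  have hI := hP.idl N ∅ {A}
  have hvan : ∀ G, Fm G → P N ∅ {A} G → aeval (ver m y) G = 0 := by
    intro G hG hIG
    have h1 : P n S₀ {H₀} (pull m G) := (hPT n N d m S₀ H₀ A hg G hG).1 hIG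
    have h2 : P n (Eqs y) {H₀} (pull m G) :=
      hP.mono n S₀ (Eqs y) {H₀} (fun Ω _ _ x hx => (hSame Ω x).2 hx) _ h1
    by_contra h3
    rw [← aeval_pull] at h3
    obtain ⟨e, he⟩ := hG
    exact hcon (pull m G) ⟨d * e, pull_hom hm he⟩ h3 h2
  have hyS : ∀ p ∈ S₀, aeval y p = 0 := (hSame L y).2 fun q hq => hq.2
  have e1 : (1 : L) • ver m y = ver m y := one_smul _ _
  have hN1 : NotIn {A} (ver m y) := by
    rw [← e1]
    exact (hg.notIn hyS one_ne_zero).2 hyT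
  have hL1 : LogGeneral {A} L w (ver m y) := by
    rw [← e1]
    exact (hg.log hy.ne hyS one_ne_zero).2 hlog
  rcases t_comp N (P N ∅ {A}) hI L w (ver m y) (hg.gen hy) hvan with ⟨H, hH, hH0, hHI⟩ |
    ⟨L', iF, iA, w', y', hgen, hw', hI', hcl, ⟨G, hG, hG0, hG1⟩, hcomp⟩
  · exact hFor' L w (ver m y) hw (hg.gen hy) hN1 hL1 ⟨hvan, H, hH, hH0, hHI⟩
  · have hco : Component (P N ∅ {A}) y' := ⟨hI', hcomp⟩
    rcases hg.special L' w' y' hw' hgen with h | ⟨x, c, hx, hc, hxS, hyx⟩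
    · have hN2 : NotIn {A} y' := by
        obtain ⟨H, hH, hH0⟩ := hN1
        rw [Set.mem_singleton_iff] at hH
        subst hH
        exact ⟨H, rfl, fun h0 => hH0 (hcl H hg.homA h0)⟩
      exact hFor' L' w' y' hw' hgen hN2 h hco
    · apply hG1
      rw [hyx, aeval_zero_of hG hc, ← aeval_pull]
      obtain ⟨e, he⟩ := hG
      exact (hSame L' x).1 hxS (pull m G)
        ⟨⟨d * e, pull_hom hm he⟩, by rw [aeval_pull]; exact hG0⟩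

/-- if the exceptional sets `P` and `OnSpecialQ` agree for all `P^N ∖ {A = 0}`, then `P` is a
proper subset only for affine varieties of log general type -/
theorem eq_c {D₁ : ℕ → ℕ} (hGC : ConsC D₁) {E : Set ℕ} (hE : E.Infinite)
    (hEx : Exc (fun _ S T G => OnSpecialQ S T G))
    {P : ∀ n : ℕ, Set (MvPolynomial (Fin (n + 1)) ℂ) → Set (MvPolynomial (Fin (n + 1)) ℂ) →
      MvPolynomial (Fin (n + 1)) ℂ → Prop} (hP : Exc P) (hPT : TransC P)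
    (hY : ForA D₁ E fun N A => ∀ G, IsForm G → P N ∅ {A} G → OnSpecialQ ∅ {A} G)
    (n e : ℕ) (H₀ : MvPolynomial (Fin (n + 1)) ℂ) (he1 : 1 ≤ e) (hH₀ : H₀.IsHomogeneous e)
    (L : Type) [Field L] [Algebra ℂ L] (w : ℕ) (y : Fin (n + 1) → L)
    (hw : 1 ≤ w) (hgen : Gen L w y) (hnot : NotIn {H₀} y)
    (hG : ∃ G, IsForm G ∧ aeval y G ≠ 0 ∧ P n (Eqs y) {H₀} G) : LogGeneral {H₀} L w y := by
  obtain ⟨G, hG, hGy, hGP⟩ := hG
  have hn : 1 ≤ n := le_trans hw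
    (Pool.Agent.Results.MP_2a5ae2_ag.SmoothHypersurfacesSuffice.dim_le hgen.gen hgen.dim y
      hgen.ne rfl)
  obtain ⟨S₀, d₀, hd₀3, hd₀, h1, h2⟩ := qe_finite y
  obtain ⟨hd3, hed, hd⟩ := common_deg hd₀3 he1 hd₀
  obtain ⟨d, hdd⟩ : ∃ d, d = d₀ * e := ⟨_, rfl⟩
  rw [← hdd] at hd3 hed hd
  obtain ⟨N, m, hm, hN⟩ := t_num n d hn hd3
  obtain ⟨D, hD, hD2⟩ := hE.exists_gt (D₁ N)
  obtain ⟨ℓ, Q, hℓ, hQ, hsm, hg⟩ := hGC n d hn hd3 N m hm hN D hD2.le S₀ hd e H₀ he1 hed hH₀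
  obtain ⟨e', he'⟩ := id hG
  obtain ⟨G₀, hG₀, hG₀F⟩ := t_versurj n N d m hm e' (G ^ d) (by
    have := he'.pow d
    rwa [mul_comm] at this)
  have hpull : pull m G₀ = G ^ d := hG₀F
  have hGd : P n (Eqs y) {H₀} (G ^ d) :=
    (Pool.Agent.Results.MP_2a5ae2_ag.SmoothHypersurfacesSuffice.idl_pow (hP.idl n (Eqs y) {H₀}) hG d
      hg.deg).2 hGP
  have h3 : P n S₀ {H₀} (G ^ d) := hP.mono n (Eqs y) S₀ {H₀} (fun L' _ _ x hx => h1 L' x hx) _ hGd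
  have h4 : P N ∅ {affineForm D ℓ Q} G₀ := by
    rw [hPT n N d m S₀ H₀ _ hg G₀ ⟨e', hG₀⟩, hpull]
    exact h3
  have h5 : OnSpecialQ ∅ {affineForm D ℓ Q} G₀ :=
    hY N D ℓ Q hD hD2.le hℓ hQ hsm G₀ ⟨e', hG₀⟩ h4
  have h6 : OnSpecialQ S₀ {H₀} (G ^ d) := by
    have := (trans_special hg ⟨e', hG₀⟩).1 h5
    rwa [hpull] at this
  have h7 : OnSpecialQ (Eqs y) {H₀} (G ^ d) :=
    hEx.mono n S₀ (Eqs y) {H₀} (fun L' _ _ x hx => h2 L' x hx) _ h6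
  rcases h7 L w y hw ⟨hgen.ne, fun p => p.2.2, hgen.gen, hgen.dim⟩ hnot with h8 | h8
  · exact h8
  · exfalso
    rw [map_pow] at h8
    exact hGy (eq_zero_of_pow_eq_zero h8)

end Pool.Agent.W2helper39.LC
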