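import Pool.Agent.W2helper39.LC.Cons
import Pool.Agent.N254.SQ.Qspec
import Pool.Agent.N254.SQ.Qcurv
import Pool.Agent.N254.SQ.Qdeg
import Pool.Agent.N254.SQ.Cent

/-!
The exceptional sets of `P^N ∖ {A = 0}` and of `V(S) ∖ {H = 0}`.
-/

set_option autoImplicit false

namespace Pool.Agent.W2helper39.LC

open MvPolynomial FF Filter Topology Metric
open Pool.Agent.N254.SQ
open Pool.Agent.W602.GT (LogGeneralType coords val SubVar)
open Pool.Agent.W603.LV (canDeg Ge)
open Pool.Agent.W603.PV (pht pord exists_pord ge_pord)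

variable {n N d : ℕ} {m : Fin (N + 1) → Fin (n + 1) → ℕ}
  {S : Set (MvPolynomial (Fin (n + 1)) ℂ)} {H : MvPolynomial (Fin (n + 1)) ℂ}
  {A : MvPolynomial (Fin (N + 1)) ℂ}

theorem GoodC.zero_iff (hg : GoodC n N d m S H A) {L : Type} [Field L] [Algebra ℂ L]
    {x : Fin (n + 1) → L} (hx : ∀ p ∈ S, aeval x p = 0) {c : L} (hc : c ≠ 0) :
    aeval (c • ver m x) A ≠ 0 ↔ aeval x H ≠ 0 := by
  obtain ⟨γ, k, hγ, hk, hs⟩ := hg.sub
  rw [Ne, Ne, not_iff_not, aeval_zero_of hg.homA hc, hs L x hx, mul_eq_zero, pow_eq_zero_iff (by omega)]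
  constructor
  · rintro (h | h)
    · exact absurd ((map_eq_zero (algebraMap ℂ L)).1 h) hγ
    · exact h
  · exact Or.inr

theorem GoodC.notIn (hg : GoodC n N d m S H A) {L : Type} [Field L] [Algebra ℂ L]
    {x : Fin (n + 1) → L} (hx : ∀ p ∈ S, aeval x p = 0) {c : L} (hc : c ≠ 0) :
    NotIn {A} (c • ver m x) ↔ NotIn {H} x := by
  have h1 := hg.zero_iff hx hc
  constructor
  · rintro ⟨G, hG, h⟩
    rw [Set.mem_singleton_iff] at hG
    subst hG
    exact ⟨H, rfl, h1.1 h⟩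
  · rintro ⟨G, hG, h⟩
    rw [Set.mem_singleton_iff] at hG
    subst hG
    exact ⟨A, rfl, h1.2 h⟩

theorem GoodC.value (hg : GoodC n N d m S H A) {L : Type} [Field L] [Algebra ℂ L]
    {x : Fin (n + 1) → L} (hx0 : x ≠ 0) (hx : ∀ p ∈ S, aeval x p = 0) {c : L} (hc : c ≠ 0)
    (P : Place ℂ L) : ValueNotIn {A} (c • ver m x) P ↔ ValueNotIn {H} x P := by
  obtain ⟨γ, k, hγ, hk, hs⟩ := hg.sub
  obtain ⟨e, he⟩ := hg.homA
  have hsx : ∀ s : L, ∀ p ∈ S, aeval (s • x) p = 0 := by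
    intro s p hp
    obtain ⟨e', he'⟩ := hg.homS p hp
    rw [aeval_scale he', hx p hp, mul_zero]
  have hγ0 : algebraMap ℂ L γ ≠ 0 := by
    rw [Ne, map_eq_zero]
    exact hγ
  have hγo : P.ord (algebraMap ℂ L γ) = 0 := P.ord_const hγ
  constructor
  · rintro ⟨c0, h1, ⟨j, h2, h3⟩, G', hG', h4, h5⟩
    rw [Set.mem_singleton_iff] at hG'
    subst hG'
    obtain ⟨s, hs0, hsU⟩ := ce_exists P hx0
    have hv := ce_ver P hg.mon hg.deg hsU
    have hU : CeU P (c0 • (c • ver m x)) := ⟨h1, j, h2, h3⟩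
    have hsd : s ^ d ≠ 0 := pow_ne_zero _ hs0
    have e1 : c0 • (c • ver m x) = (c0 * c / s ^ d) • ver m (s • x) := by
      rw [ver_smul hg.mon, smul_smul, smul_smul, div_mul_cancel₀ _ hsd]
    rw [e1] at hU h4 h5
    obtain ⟨ht0, ht⟩ := ce_ord P hv hU
    rw [aeval_scale he, hs L _ (hsx s)] at h4 h5
    have h6 : aeval (s • x) H ≠ 0 := by
      intro h
      apply h4
      rw [h, zero_pow (by omega), mul_zero, mul_zero]
    rw [P.ord_mul (pow_ne_zero _ ht0) (mul_ne_zero hγ0 (pow_ne_zero _ h6)), P.ord_pow,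
      P.ord_mul hγ0 (pow_ne_zero _ h6), P.ord_pow, ht, hγo, mul_zero, zero_add, zero_add] at h5
    refine ⟨s, hsU.1, hsU.2, H, rfl, h6, ?_⟩
    rcases mul_eq_zero.1 h5 with h | h
    · have : k = 0 := by exact_mod_cast h
      omega
    · exact h
  · rintro ⟨s, h1, ⟨j, h2, h3⟩, G, hG, h4, h5⟩
    rw [Set.mem_singleton_iff] at hG
    subst hG
    have hU : CeU P (s • x) := ⟨h1, j, h2, h3⟩
    have hv := ce_ver P hg.mon hg.deg hU
    have e1 : (s ^ d / c) • (c • ver m x) = ver m (s • x) := by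
      rw [ver_smul hg.mon, smul_smul, div_mul_cancel₀ _ hc]
    rw [← e1] at hv
    refine ⟨s ^ d / c, hv.1, hv.2, A, rfl, ?_, ?_⟩
    · rw [e1, hs L _ (hsx s)]
      exact mul_ne_zero hγ0 (pow_ne_zero _ h4)
    · rw [e1, hs L _ (hsx s), P.ord_mul hγ0 (pow_ne_zero _ h4), P.ord_pow, h5, hγo, mul_zero,
        add_zero]

theorem GoodC.log (hg : GoodC n N d m S H A) {L : Type} [Field L] [Algebra ℂ L] {w : ℕ}
    {x : Fin (n + 1) → L} (hx0 : x ≠ 0) (hx : ∀ p ∈ S, aeval x p = 0) {c : L} (hc : c ≠ 0) :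
    LogGeneral {A} L w (c • ver m x) ↔ LogGeneral {H} L w x := by
  unfold LogGeneral
  have h1 : (fun P => ¬ ValueNotIn {A} (c • ver m x) P) =
      fun P : Place ℂ L => ¬ ValueNotIn {H} x P := by
    funext P
    exact propext (not_congr (hg.value hx0 hx hc P))
  rw [h1]

theorem sub_empty {N : ℕ} {L : Type} [Field L] [Algebra ℂ L] {w : ℕ} {y : Fin (N + 1) → L}
    (hy : Gen L w y) : SubVar (fun p : (∅ : Set (MvPolynomial (Fin (N + 1)) ℂ)) =>
      (p : MvPolynomial (Fin (N + 1)) ℂ)) L w y :=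
  ⟨hy.ne, fun p => absurd p.2 (Set.notMem_empty _), hy.gen, hy.dim⟩

theorem gen_sub {n : ℕ} {ι : Type} {F : ι → MvPolynomial (Fin (n + 1)) ℂ} {L : Type} [Field L]
    [Algebra ℂ L] {w : ℕ} {y : Fin (n + 1) → L} (hy : SubVar F L w y) : Gen L w y :=
  ⟨hy.ne, hy.gen, hy.dim⟩

theorem GoodC.gen (hg : GoodC n N d m S H A) {L : Type} [Field L] [Algebra ℂ L] {w : ℕ}
    {y : Fin (n + 1) → L} (hy : Gen L w y) : Gen L w (ver m y) := by
  refine ⟨ver_ne_zero hg.mon hg.deg hy.ne, ?_, hy.dim⟩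
  have h1 := coords_ver hg.mon hg.deg y hy.ne (1 : L) one_ne_zero
  rw [one_smul] at h1
  rw [h1, hy.gen]

/-- subvarieties -/
theorem trans_special (hg : GoodC n N d m S H A) {G : MvPolynomial (Fin (N + 1)) ℂ}
    (hG : IsForm G) : OnSpecialQ ∅ {A} G ↔ OnSpecialQ S {H} (pull m G) := by
  constructor
  · intro h L _ _ w y hw hy hT
    have hyS : ∀ p ∈ S, aeval y p = 0 := fun p hp => hy.mem ⟨p, hp⟩
    have e1 : (1 : L) • ver m y = ver m y := one_smul _ _
    have hT' : NotIn {A} (ver m y) := by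
      rw [← e1]
      exact (hg.notIn hyS one_ne_zero).2 hT
    rcases h L w (ver m y) hw (sub_empty (hg.gen (gen_sub hy))) hT' with h1 | h1
    · left
      rw [← e1] at h1
      exact (hg.log hy.ne hyS one_ne_zero).1 h1
    · right
      rw [aeval_pull]
      exact h1
  · intro h L _ _ w y hw hy hT
    rcases hg.special L w y hw (gen_sub hy) with h1 | ⟨x, c, hx, hc, hxS, hyx⟩
    · exact Or.inl h1
    · have hTx : NotIn {H} x := by
        rw [hyx] at hT
        exact (hg.notIn hxS hc).1 hT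
      rcases h L w x hw ⟨hx, fun p => hxS _ p.2, by
        rw [← coords_ver hg.mon hg.deg x hx c hc, ← hyx, hy.gen], hy.dim⟩ hTx with h1 | h1
      · left
        rw [hyx]
        exact (hg.log hx hxS hc).2 h1
      · right
        rw [aeval_pull] at h1
        rw [hyx, aeval_zero_of hG hc]
        exact h1

/-- the lift of a holomorphic map to the Veronese variety -/
theorem lift_maps (hg : GoodC n N d m S H A) {E : Type} [NormedAddCommGroup E] [NormedSpace ℂ E]
    {f : E → Fin (N + 1) → ℂ} (hf : Differentiable ℂ f) (hf0 : ∀ z, f z ≠ 0)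
    (h : ∀ z, ∃ x : Fin (n + 1) → ℂ, x ≠ 0 ∧ (∀ p ∈ S, eval x p = 0) ∧ f z = ver m x) :
    ∃ F : E → Fin (n + 1) → ℂ, Differentiable ℂ F ∧ (∀ z, F z ≠ 0) ∧
      (∀ z, ∀ p ∈ S, eval (F z) p = 0) ∧ ∀ z, f z = ver m (F z) := by
  obtain ⟨F, hF, hGF⟩ := t_lift n N d m hg.mon hg.deg E f hf fun z => by
    obtain ⟨x, hx, -, hxG⟩ := h z
    exact ⟨x, hx, hxG⟩
  have hF0 : ∀ z, F z ≠ 0 := by
    intro z h
    apply hf0 z
    rw [hGF z, h]
    have h2 := ver_smul (Ω := ℂ) hg.mon 0 0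
    have hd := hg.deg
    rw [zero_smul, zero_pow (by omega), zero_smul] at h2
    exact h2
  refine ⟨F, hF, hF0, fun z p hp => ?_, hGF⟩
  obtain ⟨x, hx, hxP, hxG⟩ := h z
  obtain ⟨c, hc⟩ := ver_prop (x := x) (c := 1) hg.mon hg.deg (hF0 z)
    (by rw [one_smul, ← hGF z, hxG])
  obtain ⟨e, he⟩ := hg.homS p hp
  rw [hc, eval_scale he, hxP p hp, mul_zero]

theorem GoodC.eval_iff (hg : GoodC n N d m S H A) {x : Fin (n + 1) → ℂ}
    (hx : ∀ p ∈ S, eval x p = 0) : eval (ver m x) A ≠ 0 ↔ eval x H ≠ 0 := by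
  have h1 := hg.zero_iff (L := ℂ) (x := x) hx (one_ne_zero : (1 : ℂ) ≠ 0)
  rw [one_smul] at h1
  exact h1

/-- entire curves -/
theorem trans_curves (hg : GoodC n N d m S H A) {G : MvPolynomial (Fin (N + 1)) ℂ} :
    OnCurvesQ ∅ {A} G ↔ OnCurvesQ S {H} (pull m G) := by
  constructor
  · intro h F hF1 hF0 hFS hFT
    rcases h (fun z => ver m (F z)) (ver_diff hF1)
      (fun z => ver_ne_zero hg.mon hg.deg (hF0 z)) (fun z p hp => absurd hp (Set.notMem_empty _))
      (fun z => by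
        obtain ⟨H', hH, hH0⟩ := hFT z
        rw [Set.mem_singleton_iff] at hH
        subst hH
        exact ⟨A, rfl, (hg.eval_iff (hFS z)).2 hH0⟩) with h1 | h1
    · left
      intro z w
      obtain ⟨c, hc⟩ := h1 z w
      exact ver_prop hg.mon hg.deg (hF0 w) hc
    · right
      intro z
      rw [eval_pull]
      exact h1 z
  · intro h f hf hf0 _ hfT
    by_cases hcon : ∀ z w, ∃ c : ℂ, f w = c • f z
    · exact Or.inl hcon
    · right
      have hfA : ∀ z, eval (f z) A ≠ 0 := by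
        intro z
        obtain ⟨A', hA, hA0⟩ := hfT z
        rw [Set.mem_singleton_iff] at hA
        rwa [hA] at hA0
      obtain ⟨F, hF1, hF0, hFS, hGF⟩ := lift_maps hg hf hf0
        ((hg.curves f hf hf0 hfA).resolve_left hcon)
      rcases h F hF1 hF0 hFS (fun z => by
          refine ⟨H, rfl, (hg.eval_iff (hFS z)).1 ?_⟩
          rw [← hGF]
          exact hfA z) with h1 | h1
      · exfalso
        apply hcon
        intro z w
        obtain ⟨c, hc⟩ := h1 z w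
        exact ⟨c ^ d, by rw [hGF, hGF, hc, ver_smul hg.mon]⟩
      · intro z
        have := h1 z
        rw [eval_pull] at this
        rw [hGF]
        exact this

/-- degrees of curves -/
theorem trans_degrees (hg : GoodC n N d m S H A) {G : MvPolynomial (Fin (N + 1)) ℂ}
    (hG : IsForm G) : OnDegreesQ ∅ {A} G ↔ OnDegreesQ S {H} (pull m G) := by
  constructor
  · rintro ⟨β, hβ⟩
    refine ⟨β, fun E _ _ _ s y h1 h2 h3 h4 h5 h6 => ?_⟩
    have e1 : (1 : E) • ver m y = ver m y := one_smul _ _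
    have e2 : pht ℂ y ≤ pht ℂ (ver m y) := by
      have h7 := t_hform.ver ℂ E n N d m hg.mon y 1 h1 one_ne_zero
      rw [one_smul] at h7
      rw [h7]
      have h8 := algiff_nonneg h1
      have h9 : (1 : ℤ) ≤ d := by exact_mod_cast hg.deg
      nlinarith
    refine e2.trans (hβ E s (ver m y) (ver_ne_zero hg.mon hg.deg h1) ?_
      (fun p hp => absurd hp (Set.notMem_empty _)) ?_ (fun P hP => ?_)
      (by rw [← aeval_pull]; exact h6))
    · rw [← h2, ← e1]
      exact coords_ver hg.mon hg.deg y h1 (1 : E) one_ne_zero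
    · rw [← e1]
      exact (hg.notIn h3 one_ne_zero).2 h4
    · rw [← e1]
      exact (hg.value h1 h3 one_ne_zero P).2 (h5 P hP)
  · rintro ⟨β, hβ⟩
    refine ⟨fun t => max t 0 + d * max (β t) 0, fun E _ _ _ s y h1 h2 _ h4 h5 h6 => ?_⟩
    show _ ≤ max (canDeg ℂ E + s.card) 0 + d * max (β (canDeg ℂ E + s.card)) 0
    have h0 : (0 : ℤ) ≤ d * max (β (canDeg ℂ E + s.card)) 0 :=
      mul_nonneg (Int.natCast_nonneg d) (le_max_right _ _)
    have h0' : (0 : ℤ) ≤ max (canDeg ℂ E + s.card) 0 := le_max_right _ _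
    rcases hg.alg E s y h1 h5 with h7 | ⟨x, c, hx, hc, hxS, rfl⟩
    · omega
    · have h8 := hβ E s x hx (by rw [← coords_ver hg.mon hg.deg x hx c hc]; exact h2) hxS
        ((hg.notIn hxS hc).1 h4) (fun P hP => (hg.value hx hxS hc P).1 (h5 P hP))
        (algiff_pull hG hc h6)
      rw [t_hform.ver ℂ E n N d m hg.mon x c hx hc]
      have h9 : (d : ℤ) * pht ℂ x ≤ d * max (β (canDeg ℂ E + s.card)) 0 :=
        mul_le_mul_of_nonneg_left (h8.trans (le_max_left _ _)) (Int.natCast_nonneg d)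
      omega

end Pool.Agent.W2helper39.LC
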