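import Pool.Agent.W2helper39.LC.Trans

/-!
The exceptional sets of maps from punctured discs (adapted from `N254/SQ/Qdisc`).
-/

set_option autoImplicit false

namespace Pool.Agent.W2helper39.LC

open MvPolynomial FF Filter Topology Metric
open Pool.Agent.N254.SQ

variable {n N d : ℕ} {m : Fin (N + 1) → Fin (n + 1) → ℕ}
  {S : Set (MvPolynomial (Fin (n + 1)) ℂ)} {H : MvPolynomial (Fin (n + 1)) ℂ}
  {A : MvPolynomial (Fin (N + 1)) ℂ}

/-- the value at `z` of the map to the Veronese variety -/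
theorem disc_value (hgd : GoodC n N d m S H A) {f : ℂ → Fin (N + 1) → ℂ} {F : ℂ → Fin (n + 1) → ℂ} {z : ℂ}
    (hne : ∀ᶠ w in 𝓝[≠] z, f w ≠ 0)
    (hx : ∀ᶠ w in 𝓝[≠] z, f w ≠ 0 → ∃ (x : Fin (n + 1) → ℂ) (c : ℂ), x ≠ 0 ∧
      (∀ p ∈ S, eval x p = 0) ∧ f w = ver m x ∧ F w = c • x)
    (hv : ValueIn ∅ {A} f z) : ValueIn S {H} F z := by
  have hm := hgd.mon
  have hd := hgd.deg
  have hS := hgd.homS
  obtain ⟨g, hg, hgz, hrel, -, G', hG'T, hG'0⟩ := hv
  rw [Set.mem_singleton_iff] at hG'T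
  subst hG'T
  -- near `z` the vector `g w` is a multiple of a point of the Veronese variety
  have hg1 : ∀ᶠ w in 𝓝[≠] z, ∃ (x : Fin (n + 1) → ℂ) (c c' : ℂ), x ≠ 0 ∧
      (∀ p ∈ S, eval x p = 0) ∧ c ≠ 0 ∧ g w = c • ver m x ∧ F w = c' • x := by
    filter_upwards [hne, hx, hrel] with w h1 h2 h3
    obtain ⟨x, c', hx0, hxS, hfx, hFx⟩ := h2 h1
    obtain ⟨c, hc⟩ := h3
    have hc0 : c ≠ 0 := by
      rintro rfl
      exact h1 (by rw [hc, zero_smul])
    refine ⟨x, c⁻¹, c', hx0, hxS, inv_ne_zero hc0, ?_, hFx⟩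
    rw [← hfx, hc, smul_smul, inv_mul_cancel₀ hc0, one_smul]
  have hgc : ∀ b, ContinuousAt (fun w => g w b) z := fun b => continuousAt_pi.1 hg.continuousAt b
  choose β hβ using fun j => ver_near (Ω := ℂ) hm hd j j
  -- some coordinate with a pure power does not vanish at `z`
  obtain ⟨j, hj⟩ : ∃ j, g z (β j) ≠ 0 := by
    by_contra hcon
    push Not at hcon
    apply hgz
    funext b
    have h1 : g z b ^ d = ∏ j, g z (β j) ^ m b j := by
      refine qd_eq (a := fun w => g w b ^ d) (b := fun w => ∏ j, g w (β j) ^ m b j)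
        ((hgc b).pow d) ?_ ?_
      · exact tendsto_finset_prod _ fun j _ => (hgc (β j)).pow _
      · filter_upwards [hg1] with w hw
        obtain ⟨x, c, c', -, -, -, hgw, -⟩ := hw
        have h2 : ∀ j, g w (β j) = c * x j ^ d := by
          intro j
          rw [hgw, Pi.smul_apply, smul_eq_mul, hβ, ← pow_succ]
          congr 2
          omega
        simp only [h2, mul_pow, Finset.prod_mul_distrib]
        rw [Finset.prod_pow_eq_pow_sum, hm.deg, hgw, Pi.smul_apply, smul_eq_mul, mul_pow]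
        congr 1
        unfold ver
        rw [← Finset.prod_pow]
        refine Finset.prod_congr rfl fun j _ => ?_
        rw [← pow_mul, ← pow_mul, mul_comm]
    have h2 : ∃ j, m b j ≠ 0 := by
      by_contra h3
      push Not at h3
      have h4 := hm.deg b
      rw [Finset.sum_eq_zero fun j _ => h3 j] at h4
      omega
    obtain ⟨j, hj⟩ := h2
    have h3 : (∏ j, g z (β j) ^ m b j) = 0 :=
      Finset.prod_eq_zero (Finset.mem_univ j) (by rw [hcon j, zero_pow hj])
    rw [h3] at h1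
    exact pow_eq_zero_iff (by omega) |>.1 h1
  choose γ hγ using fun i => ver_near (Ω := ℂ) hm hd j i
  let h : ℂ → Fin (n + 1) → ℂ := fun w i => g w (γ i)
  have hh : AnalyticAt ℂ h z := by
    rw [analyticAt_pi_iff]
    intro i
    exact (analyticAt_pi_iff.1 hg) (γ i)
  have hhw : ∀ w (x : Fin (n + 1) → ℂ) (c : ℂ), g w = c • ver m x →
      h w = (c * x j ^ (d - 1)) • x := by
    intro w x c hgw
    funext i
    show g w (γ i) = _
    rw [hgw, Pi.smul_apply, smul_eq_mul, hγ, Pi.smul_apply, smul_eq_mul, mul_assoc]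
  -- `h_j` is the pure power
  have hhj : h z j ≠ 0 := by
    have h1 : h z j = g z (β j) := by
      refine qd_eq (a := fun w => g w (γ j)) (b := fun w => g w (β j)) (hgc _) (hgc _) ?_
      filter_upwards [hg1] with w hw
      obtain ⟨x, c, c', -, -, -, hgw, -⟩ := hw
      rw [hgw, Pi.smul_apply, Pi.smul_apply, hγ, hβ]
    rw [h1]
    exact hj
  have hhne : ∀ᶠ w in 𝓝[≠] z, h w j ≠ 0 :=
    nhdsWithin_le_nhds ((continuousAt_pi.1 hh.continuousAt j).eventually_ne hhj)
  -- the relation with `ver m h`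
  have hver : ver m (h z) = (h z j ^ (d - 1)) • g z := by
    funext b
    refine qd_eq (a := fun w => ver m (h w) b) (b := fun w => ((h w j ^ (d - 1)) • g w) b) ?_ ?_ ?_
    · exact continuousAt_pi.1 (qd_ver_cont hh).continuousAt b
    · exact ((continuousAt_pi.1 hh.continuousAt j).pow _).mul (hgc b)
    · filter_upwards [hg1] with w hw
      obtain ⟨x, c, c', -, -, -, hgw, -⟩ := hw
      have h1 := hhw w x c hgw
      have h2 : h w j = c * x j ^ (d - 1) * x j := by
        rw [h1, Pi.smul_apply, smul_eq_mul]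
      show ver m (h w) b = h w j ^ (d - 1) * g w b
      rw [h2, h1, ver_smul hm, hgw, Pi.smul_apply, Pi.smul_apply, smul_eq_mul, smul_eq_mul]
      obtain ⟨e, rfl⟩ : ∃ e, d = e + 1 := ⟨d - 1, by omega⟩
      simp only [Nat.add_sub_cancel]
      ring
  refine ⟨h, hh, fun h0 => hhj (congrFun h0 j), ?_, ?_, ?_⟩
  · filter_upwards [hg1, hhne] with w hw hw2
    obtain ⟨x, c, c', -, -, -, hgw, hFx⟩ := hw
    have h1 := hhw w x c hgw
    have h2 : c * x j ^ (d - 1) ≠ 0 := by
      intro h3
      apply hw2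
      rw [h1, h3, zero_smul]
      rfl
    refine ⟨c' * (c * x j ^ (d - 1))⁻¹, ?_⟩
    rw [h1, smul_smul, mul_assoc, inv_mul_cancel₀ h2, mul_one]
    exact hFx
  · intro p hp
    obtain ⟨e, he⟩ := hS p hp
    refine qd_eq (a := fun w => eval (h w) p) (b := fun _ => 0) (qd_cont p hh.continuousAt)
      continuousAt_const ?_
    filter_upwards [hg1] with w hw
    obtain ⟨x, c, c', -, hxS, -, hgw, -⟩ := hw
    rw [hhw w x c hgw, eval_scale he, hxS p hp, mul_zero]
  · have hhS : ∀ p ∈ S, eval (h z) p = 0 := by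
      intro p hp
      obtain ⟨e, he⟩ := hS p hp
      refine qd_eq (a := fun w => eval (h w) p) (b := fun _ => 0) (qd_cont p hh.continuousAt)
        continuousAt_const ?_
      filter_upwards [hg1] with w hw
      obtain ⟨x, c, c', -, hxS, -, hgw, -⟩ := hw
      rw [hhw w x c hgw, eval_scale he, hxS p hp, mul_zero]
    refine ⟨H, rfl, (hgd.eval_iff hhS).1 ?_⟩
    obtain ⟨e, he⟩ := hgd.homA
    rw [hver, eval_scale he]
    exact mul_ne_zero (pow_ne_zero _ (pow_ne_zero _ hhj)) hG'0

/-- maps from punctured discs -/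
theorem trans_discs (hg : GoodC n N d m S H A) {G : MvPolynomial (Fin (N + 1)) ℂ}
    (hG : IsForm G) : OnDiscsQ ∅ {A} G ↔ OnDiscsQ S {H} (pull m G) := by
  have hm := hg.mon
  have hd := hg.deg
  constructor
  · intro h F hF hF0 hFS
    obtain ⟨w0, hw0, hFw0⟩ := id hF0
    have hvF : DifferentiableOn ℂ (fun w => ver m (F w)) (ball 0 1 \ {0}) := ver_diffOn hF
    have hvF0 : ∃ w ∈ ball (0 : ℂ) 1 \ {0}, ver m (F w) ≠ 0 := ⟨w0, hw0, ver_ne_zero hm hd hFw0⟩
    rcases h (fun w => ver m (F w)) hvF hvF0 (fun z hz => by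
        obtain ⟨g, hga, hgz, hrel, hgS, H', hH, hH0⟩ := hFS z hz
        rw [Set.mem_singleton_iff] at hH
        subst hH
        refine ⟨fun w => ver m (g w), qd_ver_cont hga, ver_ne_zero hm hd hgz, ?_, ?_, ?_⟩
        · filter_upwards [hrel] with w hw
          obtain ⟨c, hc⟩ := hw
          exact ⟨c ^ d, by rw [hc, ver_smul hm]⟩
        · exact fun p hp => absurd hp (Set.notMem_empty _)
        · exact ⟨A, rfl, (hg.eval_iff hgS).2 hH0⟩) with h1 | h1
    · exact Or.inl (qd_down hm hd hF hF0 h1)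
    · right
      intro w hw
      rw [eval_pull]
      exact h1 w hw
  · intro h f hf hf0 hfA
    obtain ⟨w0, hw0, hfw0⟩ := id hf0
    rcases hg.discs f hf hf0 hfA with h1 | h1
    · exact Or.inl h1
    obtain ⟨x0, hx0, hx0S, hfx0⟩ := h1 w0 hw0 hfw0
    obtain ⟨a, ha⟩ : ∃ a, x0 a ≠ 0 := by
      by_contra hcon
      push Not at hcon
      exact hx0 (funext hcon)
    choose b hb using fun j => ver_near (Ω := ℂ) hm hd a j
    have hver0 : ver m (0 : Fin (n + 1) → ℂ) = 0 := by
      have h2 := ver_smul (Ω := ℂ) hm 0 0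
      rw [zero_smul, zero_pow (by omega), zero_smul] at h2
      exact h2
    set F : ℂ → Fin (n + 1) → ℂ := fun w j => f w (b j) with hFdef
    have hF : DifferentiableOn ℂ F (ball 0 1 \ {0}) := by
      rw [differentiableOn_pi]
      exact fun j => differentiableOn_pi.1 hf (b j)
    have hFx : ∀ w (x : Fin (n + 1) → ℂ), f w = ver m x → F w = x a ^ (d - 1) • x := by
      intro w x hx
      funext j
      change f w (b j) = _
      rw [hx, hb]
      rfl
    have hFa0 : F w0 a ≠ 0 := by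
      rw [hFx w0 x0 hfx0]
      exact mul_ne_zero (pow_ne_zero _ ha) ha
    have hFw0 : F w0 ≠ 0 := fun h0 => hFa0 (congrFun h0 a)
    have hrel : ∀ w ∈ ball (0 : ℂ) 1 \ {0}, ver m (F w) = (F w a ^ (d - 1)) • f w := by
      intro w hw
      by_cases hfw : f w = 0
      · have : F w = 0 := by
          funext j
          change f w (b j) = 0
          rw [hfw]
          rfl
        rw [this, hfw, hver0, smul_zero]
      · obtain ⟨x, hx, hxS, hfx⟩ := h1 w hw hfw
        rw [hFx w x hfx, ver_smul hm, hfx]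
        congr 1
        change (x a ^ (d - 1)) ^ d = (x a ^ (d - 1) * x a) ^ (d - 1)
        obtain ⟨e, rfl⟩ : ∃ e, d = e + 1 := ⟨d - 1, by omega⟩
        simp only [Nat.add_sub_cancel]
        ring
    rcases h F hF ⟨w0, hw0, hFw0⟩ (fun z hz => by
        refine disc_value hg (qd_ne hf hf0 hz) ?_ (hfA z hz)
        filter_upwards [qd_nhds hz] with w hw hfw
        obtain ⟨x, hx, hxS, hfx⟩ := h1 w hw hfw
        exact ⟨x, x a ^ (d - 1), hx, hxS, hfx, hFx w x hfx⟩) with h2 | h2
    · left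
      exact qd_up hm hf hF hw0 hfw0 hFa0 hrel h2
    · right
      obtain ⟨e, he⟩ := hG
      refine disc_mul (s := fun w => (F w a ^ (d - 1)) ^ e)
        (((differentiableOn_pi.1 hF a).fun_pow _).fun_pow _)
        ⟨w0, hw0, pow_ne_zero _ (pow_ne_zero _ hFa0)⟩ disc_open le_rfl ?_ ?_
      · exact (diff_evalOn G hf).continuousOn
      · intro w hw
        have h3 := h2 w hw
        rw [eval_pull, hrel w hw, eval_scale he] at h3
        exact h3


end Pool.Agent.W2helper39.LC
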