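import Pool.Agent.W2helper39.LC.ZFin

/-!
Affine schemes over the ring of integers, in affine and in projective coordinates.
-/

set_option autoImplicit false

namespace Pool.Agent.W2helper39.LC

open MvPolynomial NumberField IsDedekindDomain
open scoped LinearAlgebra.Projectivization
open Pool.Agent.N254.SQ

/-! ### homogenization -/

/-- the homogenization in degree `d` -/
noncomputable def homR {R : Type} [CommRing R] {n : ℕ} (d : ℕ) (p : MvPolynomial (Fin n) R) :
    MvPolynomial (Fin (n + 1)) R :=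
  ∑ s ∈ p.support, C (coeff s p) * (X 0 ^ (d - ∑ j, s j) * ∏ j : Fin n, X j.succ ^ s j)

theorem homR_deg {R : Type} [CommRing R] {n d : ℕ} {p : MvPolynomial (Fin n) R}
    (hd : p.totalDegree ≤ d) {s : Fin n →₀ ℕ} (hs : s ∈ p.support) : ∑ j, s j ≤ d := by
  have h1 := le_totalDegree hs
  rw [Finsupp.sum_fintype _ _ (fun _ => rfl)] at h1
  exact h1.trans hd

theorem homR_form {R : Type} [CommRing R] {n d : ℕ} {p : MvPolynomial (Fin n) R}
    (hd : p.totalDegree ≤ d) : (homR d p).IsHomogeneous d := by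
  refine IsHomogeneous.sum _ _ _ fun s hs => ?_
  have h1 : (X 0 ^ (d - ∑ j, s j) : MvPolynomial (Fin (n + 1)) R).IsHomogeneous
      (1 * (d - ∑ j, s j)) := (isHomogeneous_X R 0).pow _
  have h2 : (∏ j : Fin n, X j.succ ^ s j : MvPolynomial (Fin (n + 1)) R).IsHomogeneous
      (∑ j : Fin n, 1 * s j) := IsHomogeneous.prod _ _ _ fun j _ => (isHomogeneous_X R j.succ).pow _
  have h3 := (isHomogeneous_C (Fin (n + 1)) (coeff s p)).mul (h1.mul h2)
  have h4 : 0 + (1 * (d - ∑ j, s j) + ∑ j : Fin n, 1 * s j) = d := by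
    simp only [one_mul, zero_add]
    have := homR_deg hd hs
    omega
  rwa [h4] at h3

theorem homR_eval {R Ω : Type} [CommRing R] [Field Ω] (τ : R →+* Ω) {n d : ℕ}
    {p : MvPolynomial (Fin n) R} (hd : p.totalDegree ≤ d) (x : Fin (n + 1) → Ω) (hx : x 0 ≠ 0) :
    eval₂ τ x (homR d p) = x 0 ^ d * eval₂ τ (fun j => x j.succ / x 0) p := by
  unfold homR
  rw [eval₂_sum, eval₂_eq', Finset.mul_sum]
  apply Finset.sum_congr rfl
  intro s hs
  have h1 := homR_deg hd hs
  have e1 : eval₂ τ x (∏ j : Fin n, X j.succ ^ s j) = ∏ j : Fin n, x j.succ ^ s j := by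
    rw [← coe_eval₂Hom, map_prod]
    simp
  rw [eval₂_mul, eval₂_mul, eval₂_C, eval₂_pow, eval₂_X, e1]
  simp only [div_pow, Finset.prod_div_distrib]
  rw [Finset.prod_pow_eq_pow_sum]
  have h2 : x 0 ^ d = x 0 ^ (d - ∑ j, s j) * x 0 ^ (∑ j, s j) := by
    rw [← pow_add, Nat.sub_add_cancel h1]
  rw [h2]
  have h3 : x 0 ^ (∑ j, s j) ≠ 0 := pow_ne_zero _ hx
  field_simp

theorem homR_zero {R Ω : Type} [CommRing R] [Field Ω] (τ : R →+* Ω) {n d : ℕ}
    {p : MvPolynomial (Fin n) R} (hd : p.totalDegree ≤ d) (x : Fin (n + 1) → Ω) (hx : x 0 ≠ 0) :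
    eval₂ τ x (homR d p) = 0 ↔ eval₂ τ (fun j => x j.succ / x 0) p = 0 := by
  rw [homR_eval τ hd x hx, mul_eq_zero]
  exact ⟨fun h => h.resolve_left (pow_ne_zero _ hx), Or.inr⟩

/-! ### from projective to affine coordinates -/

section aff

variable {K : Type} [Field K] {n : ℕ}

theorem redx0 {L : Type} [Field L] [NumberField L] [Algebra K L] (y : Fin (n + 1) → L)
    (v : HeightOneSpectrum (𝓞 L)) (hy : y 0 ≠ 0) :
    RedNotIn (fun _ : Unit => (X 0 : MvPolynomial (Fin (n + 1)) (𝓞 K))) y v ↔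
      ∀ j : Fin n, v.valuation L (y j.succ / y 0) ≤ 1 := by
  constructor
  · rintro ⟨c, h1, -, u, h2⟩ j
    rw [eval₂_X] at h2
    have h3 := h1 j.succ
    have h4 : y j.succ / y 0 = (c * y j.succ) / (c * y 0) := by
      have hc : c ≠ 0 := by
        rintro rfl
        rw [zero_mul, map_zero] at h2
        exact zero_ne_one h2
      field_simp
    rw [h4, map_div₀, h2, div_one]
    exact h3
  · intro h
    refine ⟨(y 0)⁻¹, fun j => ?_, ⟨0, ?_⟩, (), ?_⟩
    · refine Fin.cases ?_ (fun j => ?_) j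
      · rw [inv_mul_cancel₀ hy, map_one]
      · have := h j
        rwa [div_eq_inv_mul] at this
    · rw [inv_mul_cancel₀ hy, map_one]
    · rw [eval₂_X, inv_mul_cancel₀ hy, map_one]

/-- affine coordinates -/
def affc {Ω : Type} [Field Ω] (x : Fin (n + 1) → Ω) : Fin n → Ω := fun j => x j.succ / x 0

theorem affc_smul {Ω : Type} [Field Ω] {c : Ω} (hc : c ≠ 0) (x : Fin (n + 1) → Ω) :
    affc (c • x) = affc x := by
  funext j
  unfold affc
  rw [Pi.smul_apply, Pi.smul_apply, smul_eq_mul, smul_eq_mul, mul_div_mul_left _ _ hc]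

theorem affc_cons {Ω : Type} [Field Ω] (x : Fin n → Ω) :
    affc (Fin.cons 1 x : Fin (n + 1) → Ω) = x := by
  funext j
  simp [affc]

theorem affc_prop {Ω : Type} [Field Ω] {x y : Fin (n + 1) → Ω} (hx : x 0 ≠ 0) (hy : y 0 ≠ 0)
    (h : affc x = affc y) : y = (y 0 / x 0) • x := by
  funext j
  refine Fin.cases ?_ (fun j => ?_) j
  · rw [Pi.smul_apply, smul_eq_mul, div_mul_cancel₀ _ hx]
  · have h1 := congrFun h j
    unfold affc at h1
    rw [Pi.smul_apply, smul_eq_mul]
    field_simp at h1 ⊢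
    linear_combination -h1

/-- condition (i) for affine schemes: all nonconstant entire curves in `V(F)` lie in `V(G)` -/
def AffCur (σ : K →+* ℂ) {ι κ : Type} (F : ι → MvPolynomial (Fin n) (𝓞 K))
    (G : κ → MvPolynomial (Fin n) (𝓞 K)) : Prop :=
  ∀ f : ℂ → Fin n → ℂ, Differentiable ℂ f →
    (∀ z i, eval₂ (σ.comp (algebraMap (𝓞 K) K)) (f z) (F i) = 0) → (∃ z w, f z ≠ f w) →
    ∀ z k, eval₂ (σ.comp (algebraMap (𝓞 K) K)) (f z) (G k) = 0

/-- condition (ii) for affine schemes: almost all `S`-integral points of `V(F)` lie in `V(G)` -/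
def AffPts {ι κ : Type} (F : ι → MvPolynomial (Fin n) (𝓞 K))
    (G : κ → MvPolynomial (Fin n) (𝓞 K)) : Prop :=
  ∀ (L : Type) [Field L] [NumberField L] [Algebra K L] (S : Set (HeightOneSpectrum (𝓞 L))),
    S.Finite → (intPoints F L S \ intPoints G L S).Finite

theorem aff_of_quasi (σ : K →+* ℂ) {ι κ : Type} (F : ι → MvPolynomial (Fin n) (𝓞 K))
    (G : κ → MvPolynomial (Fin n) (𝓞 K)) :
    (AffCur σ F G ↔ ZbCur σ (zbZ fun i => homR (F i).totalDegree (F i))
      (zbZ fun k => homR (G k).totalDegree (G k))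
      (fun _ : Unit => (X 0 : MvPolynomial (Fin (n + 1)) (𝓞 K)))) ∧
    (AffPts F G ↔ ZbPts (zbZ fun i => homR (F i).totalDegree (F i))
      (zbZ fun k => homR (G k).totalDegree (G k))
      (fun _ : Unit => (X 0 : MvPolynomial (Fin (n + 1)) (𝓞 K)))) := by
  have hne : ∀ {Ω : Type} [Field Ω] (x : Fin n → Ω), (Fin.cons 1 x : Fin (n + 1) → Ω) ≠ 0 := by
    intro Ω _ x h0
    have := congrFun h0 0
    rw [Fin.cons_zero] at this
    exact one_ne_zero this
  -- equations
  have eZ : ∀ {Ω : Type} [Field Ω] (τ : K →+* Ω) {ι : Type} (F : ι → MvPolynomial (Fin n) (𝓞 K))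
      (x : Fin (n + 1) → Ω), x 0 ≠ 0 →
      ((∀ i, eval₂ (τ.comp (algebraMap (𝓞 K) K)) x (homR (F i).totalDegree (F i)) = 0) ↔
        ∀ i, eval₂ (τ.comp (algebraMap (𝓞 K) K)) (affc x) (F i) = 0) := by
    intro Ω _ τ ι F x hx
    exact forall_congr' fun i => homR_zero _ le_rfl x hx
  -- curves
  have hc : (∀ f : ℂ → Fin n → ℂ, Differentiable ℂ f →
      (∀ z i, eval₂ (σ.comp (algebraMap (𝓞 K) K)) (f z) (F i) = 0) → (∃ z w, f z ≠ f w) →
      ∀ z k, eval₂ (σ.comp (algebraMap (𝓞 K) K)) (f z) (G k) = 0) ↔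
      (∀ f : ℂ → Fin (n + 1) → ℂ, Differentiable ℂ f → (∀ z, f z ≠ 0) →
      (∀ z i, eval₂ (σ.comp (algebraMap (𝓞 K) K)) (f z) (homR (F i).totalDegree (F i)) = 0) →
      (∀ z, ∃ k : Unit, eval₂ (σ.comp (algebraMap (𝓞 K) K)) (f z)
        ((fun _ : Unit => (X 0 : MvPolynomial (Fin (n + 1)) (𝓞 K))) k) ≠ 0) →
      (∃ z w, ∀ c : ℂ, f w ≠ c • f z) →
      ∀ z l, eval₂ (σ.comp (algebraMap (𝓞 K) K)) (f z) (homR (G l).totalDegree (G l)) = 0) := by
    constructor
    · rintro h1 f hf hf0 hfF hfT ⟨z₀, w₀, hnc⟩ z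
      have hf1 : ∀ z, f z 0 ≠ 0 := by
        intro z
        obtain ⟨_, hz⟩ := hfT z
        rw [eval₂_X] at hz
        exact hz
      rw [eZ σ G (f z) (hf1 z)]
      refine h1 (fun z => affc (f z)) ?_ (fun z => (eZ σ F (f z) (hf1 z)).1 (hfF z))
        ⟨z₀, w₀, fun heq => ?_⟩ z
      · rw [differentiable_pi] at hf ⊢
        intro j
        exact (hf j.succ).div (hf 0) hf1
      · exact hnc (f w₀ 0 / f z₀ 0) (affc_prop (hf1 z₀) (hf1 w₀) heq)
    · rintro h1 f hf hfF ⟨z₀, w₀, hne'⟩ z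
      have h2 : ∀ z, (Fin.cons 1 (f z) : Fin (n + 1) → ℂ) 0 ≠ 0 := by
        intro z
        simp
      have h3 := h1 (fun z => (Fin.cons 1 (f z) : Fin (n + 1) → ℂ)) ?_ (fun z => hne _)
        (fun z => (eZ σ F _ (h2 z)).2 (by rw [affc_cons]; exact hfF z))
        (fun z => ⟨(), by rw [eval₂_X]; exact h2 z⟩) ⟨z₀, w₀, fun c hc => ?_⟩ z
      · have h4 := (eZ σ G _ (h2 z)).1 h3
        rw [affc_cons] at h4
        exact h4
      · rw [differentiable_pi] at hf ⊢
        intro j
        refine Fin.cases ?_ (fun j => ?_) j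
        · simp only [Fin.cons_zero]
          exact differentiable_const _
        · simp only [Fin.cons_succ]
          exact hf j
      · have h5 := congrFun hc 0
        simp only [Fin.cons_zero, Pi.smul_apply, smul_eq_mul, mul_one] at h5
        rw [← h5, one_smul] at hc
        apply hne'
        have h6 := congrArg affc hc
        rw [affc_cons, affc_cons] at h6
        exact h6.symm
  -- points
  have hp : ∀ (L : Type) [Field L] [NumberField L] [Algebra K L]
      (S : Set (HeightOneSpectrum (𝓞 L))), (intPoints F L S \ intPoints G L S).Finite ↔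
      (quasiPoints (fun i => homR (F i).totalDegree (F i))
        (fun _ : Unit => (X 0 : MvPolynomial (Fin (n + 1)) (𝓞 K))) L S \
        {P | ∀ l, eval₂ ((algebraMap K L).comp (algebraMap (𝓞 K) K)) P.rep
          (homR (G l).totalDegree (G l)) = 0}).Finite := by
    intro L _ _ _ S
    -- membership
    have hmem : ∀ P : ℙ L (Fin (n + 1) → L), P ∈ (quasiPoints
        (fun i => homR (F i).totalDegree (F i))
        (fun _ : Unit => (X 0 : MvPolynomial (Fin (n + 1)) (𝓞 K))) L S \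
        {P | ∀ l, eval₂ ((algebraMap K L).comp (algebraMap (𝓞 K) K)) P.rep
          (homR (G l).totalDegree (G l)) = 0}) ↔
        P.rep 0 ≠ 0 ∧ affc P.rep ∈ intPoints F L S \ intPoints G L S := by
      intro P
      constructor
      · rintro ⟨⟨h1, ⟨_, h2⟩, h3⟩, h4⟩
        rw [eval₂_X] at h2
        have h5 : ∀ j, affc P.rep j ∈ S.integer L := fun j v hv =>
          (redx0 (K := K) P.rep v h2).1 (h3 v hv) j
        exact ⟨h2, ⟨h5, (eZ (algebraMap K L) F P.rep h2).1 h1⟩, fun h6 =>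
          h4 ((eZ (algebraMap K L) G P.rep h2).2 h6.2)⟩
      · rintro ⟨h2, ⟨h5, h1⟩, h6⟩
        refine ⟨⟨(eZ (algebraMap K L) F P.rep h2).2 h1, ⟨(), by rw [eval₂_X]; exact h2⟩,
          fun v hv => (redx0 P.rep v h2).2 fun j => h5 j v hv⟩, fun h7 =>
          h6 ⟨h5, (eZ (algebraMap K L) G P.rep h2).1 h7⟩⟩
    constructor
    · intro h1
      refine Set.Finite.of_finite_image (f := fun P : ℙ L (Fin (n + 1) → L) => affc P.rep)
        (h1.subset ?_) ?_
      · rintro _ ⟨P, hP, rfl⟩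
        exact ((hmem P).1 hP).2
      · intro P hP P' hP' h2
        have h3 := ((hmem P).1 hP).1
        have h4 := ((hmem P').1 hP').1
        have h5 : affc P.rep = affc P'.rep := h2
        rw [← P.mk_rep, ← P'.mk_rep, Projectivization.mk_eq_mk_iff']
        exact ⟨P.rep 0 / P'.rep 0, (affc_prop h4 h3 h5.symm).symm⟩
    · intro h1
      refine Set.Finite.of_finite_image (f := fun x : Fin n → L =>
        Projectivization.mk L (Fin.cons 1 x : Fin (n + 1) → L) (hne x)) (h1.subset ?_) ?_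
      · rintro _ ⟨x, hx, rfl⟩
        obtain ⟨u, hu⟩ := Projectivization.exists_smul_eq_mk_rep L
          (Fin.cons 1 x : Fin (n + 1) → L) (hne x)
        have hu' : (Projectivization.mk L (Fin.cons 1 x : Fin (n + 1) → L) (hne x)).rep =
          (u : L) • (Fin.cons 1 x : Fin (n + 1) → L) := hu.symm
        rw [hmem]
        rw [hu', affc_smul u.ne_zero, affc_cons]
        refine ⟨?_, hx⟩
        simp
      · intro x _ y _ h2
        have h3 : Projectivization.mk L (Fin.cons 1 x : Fin (n + 1) → L) (hne x) =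
          Projectivization.mk L (Fin.cons 1 y : Fin (n + 1) → L) (hne y) := h2
        rw [Projectivization.mk_eq_mk_iff'] at h3
        obtain ⟨c, hc⟩ := h3
        have h5 := congrFun hc 0
        simp only [Fin.cons_zero, Pi.smul_apply, smul_eq_mul, mul_one] at h5
        rw [h5, one_smul] at hc
        have h6 := congrArg affc hc
        rw [affc_cons, affc_cons] at h6
        exact h6.symm
  exact ⟨hc, ⟨fun h1 L _ _ _ S hS => (hp L S).1 (h1 L S hS), fun h1 L _ _ _ S hS =>
    (hp L S).2 (h1 L S hS)⟩⟩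

end aff

end Pool.Agent.W2helper39.LC
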