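import Pool.Agent.W2helper39.LC.ZAff

/-!
The affine scheme `V(F) ∖ V(T)` in affine coordinates.
-/

set_option autoImplicit false

namespace Pool.Agent.W2helper39.LC

open MvPolynomial NumberField IsDedekindDomain
open scoped LinearAlgebra.Projectivization
open Pool.Agent.N254.SQ

/-- values of polynomials with integral coefficients at integral arguments -/
theorem val_eval_le {K : Type} [Field K] [NumberField K] {n : ℕ} {L : Type} [Field L]
    [NumberField L] [Algebra K L] (T : MvPolynomial (Fin (n + 1)) (𝓞 K))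
    (v : HeightOneSpectrum (𝓞 L)) (y : Fin (n + 1) → L) (hy : ∀ j, v.valuation L (y j) ≤ 1) :
    v.valuation L (eval₂ ((algebraMap K L).comp (algebraMap (𝓞 K) K)) y T) ≤ 1 := by
  rw [eval₂_eq']
  refine Valuation.map_sum_le _ fun s _ => ?_
  rw [map_mul, map_prod]
  refine mul_le_one' ?_ (Finset.prod_le_one' fun j _ => ?_)
  · have h1 : IsIntegral ℤ ((algebraMap K L).comp (algebraMap (𝓞 K) K) (coeff s T)) := by
      rw [RingHom.comp_apply]
      exact (RingOfIntegers.isIntegral_coe (coeff s T)).algebraMap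
    have h2 := v.valuation_le_one (K := L) (⟨_, h1⟩ : 𝓞 L)
    exact h2
  · rw [map_pow]
    exact pow_le_one' (hy j) _

/-- integral points of `V(F) ∖ V(T)` in affine coordinates -/
theorem aff_int {K : Type} [Field K] [NumberField K] {n N e k : ℕ}
    {m : Fin (N + 1) → Fin (n + 1) → ℕ} (hm : Mon n N (e * k) m) (hk : 1 ≤ k)
    {T : MvPolynomial (Fin (n + 1)) (𝓞 K)}
    (hT : T.IsHomogeneous e) {L : Type} [Field L] [NumberField L] [Algebra K L]
    (v : HeightOneSpectrum (𝓞 L)) (x : Fin (n + 1) → L) (hx : x ≠ 0)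
    (hTx : eval₂ ((algebraMap K L).comp (algebraMap (𝓞 K) K)) x T ≠ 0) :
    (∀ a, v.valuation L (((eval₂ ((algebraMap K L).comp (algebraMap (𝓞 K) K)) x T ^ k)⁻¹ •
      ver m x) a) ≤ 1) ↔ RedNotIn (fun _ : Unit => T) x v := by
  set φ : 𝓞 K →+* L := (algebraMap K L).comp (algebraMap (𝓞 K) K) with hφ
  have hv0 : v.valuation L (eval₂ φ x T) ≠ 0 := (Valuation.ne_zero_iff _).2 hTx
  constructor
  · intro h
    obtain ⟨j0, -, hj0⟩ := Finset.exists_max_image (Finset.univ : Finset (Fin (n + 1)))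
      (fun j => v.valuation L (x j)) ⟨0, Finset.mem_univ _⟩
    have hmax : ∀ j, v.valuation L (x j) ≤ v.valuation L (x j0) := fun j =>
      hj0 j (Finset.mem_univ j)
    have hx0 : x j0 ≠ 0 := by
      intro h0
      apply hx
      funext j
      have h2 := hmax j
      rw [h0, map_zero] at h2
      exact (Valuation.zero_iff _).1 (le_antisymm h2 zero_le)
    have hvx : v.valuation L (x j0) ≠ 0 := (Valuation.ne_zero_iff _).2 hx0
    have hy : ∀ j, v.valuation L ((x j0)⁻¹ * x j) ≤ 1 := by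
      intro j
      rw [map_mul, map_inv₀]
      calc (v.valuation L (x j0))⁻¹ * v.valuation L (x j)
          ≤ (v.valuation L (x j0))⁻¹ * v.valuation L (x j0) := mul_le_mul_right (hmax j) _
        _ = 1 := inv_mul_cancel₀ hvx
    refine ⟨(x j0)⁻¹, hy, ⟨j0, ?_⟩, (), ?_⟩
    · rw [inv_mul_cancel₀ hx0, map_one]
    · obtain ⟨a0, ha0⟩ := zr_single hm j0
      have h1 := h a0
      rw [Pi.smul_apply, smul_eq_mul, ha0, map_mul, map_inv₀, map_pow, map_pow] at h1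
      have h2 := val_eval_le T v (fun j => (x j0)⁻¹ * x j) hy
      show v.valuation L (eval₂ φ (fun j => (x j0)⁻¹ * x j) T) = 1
      have h2' : v.valuation L (eval₂ φ (fun j => (x j0)⁻¹ * x j) T) ≤ 1 := h2
      have h3 : v.valuation L (eval₂ φ (fun j => (x j0)⁻¹ * x j) T) ^ k =
          (v.valuation L (x j0) ^ (e * k))⁻¹ * v.valuation L (eval₂ φ x T) ^ k := by
        rw [zr_scale φ hT, map_mul, map_pow, map_inv₀, mul_pow, ← pow_mul, inv_pow]
      refine (pow_eq_one_iff.1 (le_antisymm (pow_le_one' h2' k) ?_)).resolve_right (by omega)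
      rw [h3]
      have h4 : v.valuation L (x j0) ^ (e * k) ≠ 0 := pow_ne_zero _ hvx
      have h5 : v.valuation L (eval₂ φ x T) ^ k ≠ 0 := pow_ne_zero _ hv0
      have h6 : v.valuation L (x j0) ^ (e * k) ≤ v.valuation L (eval₂ φ x T) ^ k := by
        calc v.valuation L (x j0) ^ (e * k)
            = v.valuation L (eval₂ φ x T) ^ k * ((v.valuation L (eval₂ φ x T) ^ k)⁻¹ *
                v.valuation L (x j0) ^ (e * k)) := by
              rw [← mul_assoc, mul_inv_cancel₀ h5, one_mul]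
          _ ≤ v.valuation L (eval₂ φ x T) ^ k * 1 := mul_le_mul_right h1 _
          _ = _ := mul_one _
      calc (1 : _) = (v.valuation L (x j0) ^ (e * k))⁻¹ * v.valuation L (x j0) ^ (e * k) :=
            (inv_mul_cancel₀ h4).symm
        _ ≤ _ := mul_le_mul_right h6 _
  · rintro ⟨c, h1, ⟨j0, hj0⟩, u, h2⟩ a
    have h3 : v.valuation L c ^ e * v.valuation L (eval₂ φ x T) = 1 := by
      have h2' : v.valuation L (eval₂ φ (fun j => c * x j) T) = 1 := h2
      rwa [zr_scale φ hT, map_mul, map_pow] at h2'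
    have h4 := zr_le hm (v.valuation L) (fun j => c * x j) 1 h1 a
    rw [zr_ver_mul hm, one_pow, map_mul, map_pow] at h4
    rw [Pi.smul_apply, smul_eq_mul, map_mul, map_inv₀, map_pow]
    have h5 : (v.valuation L (eval₂ φ x T) ^ k)⁻¹ = v.valuation L c ^ (e * k) := by
      rw [pow_mul]
      exact inv_eq_of_mul_eq_one_right (by
        rw [← mul_pow, mul_comm (v.valuation L (eval₂ φ x T)), h3, one_pow])
    rw [h5]
    exact h4

/-- the affine model of `V(F) ∖ V(T)` -/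
theorem aff_model {K : Type} [Field K] [NumberField K] {n : ℕ} (hn : 1 ≤ n) {ι τ₀ : Type}
    [Finite ι] (F : ι → MvPolynomial (Fin (n + 1)) (𝓞 K)) (hF : ∀ i, ∃ e, (F i).IsHomogeneous e)
    (T : MvPolynomial (Fin (n + 1)) (𝓞 K)) {e : ℕ} (he1 : 1 ≤ e) (hTe : T.IsHomogeneous e)
    (G : τ₀ → MvPolynomial (Fin (n + 1)) (𝓞 K)) (hG : ∀ l, ∃ e, (G l).IsHomogeneous e) :
    ∃ (N k : ℕ) (m : Fin (N + 1) → Fin (n + 1) → ℕ), Mon n N (e * k) m ∧ 1 ≤ k ∧
      ∃ (ι₁ ι₂ : Type) (_ : Finite ι₁) (F' : ι₁ → MvPolynomial (Fin (N + 1)) (𝓞 K))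
        (G' : ι₂ → MvPolynomial (Fin (N + 1)) (𝓞 K)),
        (∀ (Ω : Type) [Field Ω] (τ : K →+* Ω) (u : Fin (N + 1) → Ω),
          (∀ i, eval₂ (τ.comp (algebraMap (𝓞 K) K)) u (F' i) = 0) ↔
          ∃ x : Fin (n + 1) → Ω, x ≠ 0 ∧ (∀ i, eval₂ (τ.comp (algebraMap (𝓞 K) K)) x (F i) = 0) ∧
            eval₂ (τ.comp (algebraMap (𝓞 K) K)) x T ≠ 0 ∧
            u = (eval₂ (τ.comp (algebraMap (𝓞 K) K)) x T ^ k)⁻¹ • ver m x) ∧
        ∀ (Ω : Type) [Field Ω] (τ : K →+* Ω) (x : Fin (n + 1) → Ω), x ≠ 0 →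
          (∀ i, eval₂ (τ.comp (algebraMap (𝓞 K) K)) x (F i) = 0) →
          eval₂ (τ.comp (algebraMap (𝓞 K) K)) x T ≠ 0 →
          ((∀ l, eval₂ (τ.comp (algebraMap (𝓞 K) K))
            ((eval₂ (τ.comp (algebraMap (𝓞 K) K)) x T ^ k)⁻¹ • ver m x) (G' l) = 0) ↔
            ∀ l, eval₂ (τ.comp (algebraMap (𝓞 K) K)) x (G l) = 0) := by
  classical
  -- the forms over `K`
  obtain ⟨FK, hFK⟩ : ∃ FK : ι → MvPolynomial (Fin (n + 1)) K,
    FK = fun i => map (algebraMap (𝓞 K) K) (F i) := ⟨_, rfl⟩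
  obtain ⟨GK, hGK⟩ : ∃ GK : τ₀ → MvPolynomial (Fin (n + 1)) K,
    GK = fun i => map (algebraMap (𝓞 K) K) (G i) := ⟨_, rfl⟩
  have eF : ∀ (Ω : Type) [Field Ω] (τ : K →+* Ω) (x : Fin (n + 1) → Ω),
      zbZ F Ω τ x ↔ ∀ i, eval₂ τ x (FK i) = 0 := by
    intro Ω _ τ x
    unfold zbZ
    rw [hFK]
    simp only [eval₂_map]
  have eG : ∀ (Ω : Type) [Field Ω] (τ : K →+* Ω) (x : Fin (n + 1) → Ω),
      zbZ G Ω τ x ↔ ∀ i, eval₂ τ x (GK i) = 0 := by
    intro Ω _ τ x
    unfold zbZ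
    rw [hGK]
    simp only [eval₂_map]
  have hGKh : ∀ i, ∃ e, (GK i).IsHomogeneous e := by
    intro i
    obtain ⟨e, he⟩ := hG i
    rw [hGK]
    exact ⟨e, he.map _⟩
  obtain ⟨T₀, hT₀, hTG⟩ := reduce (Set.range GK)
  have hTh : ∀ p ∈ T₀, ∃ e, p.IsHomogeneous e := by
    intro p hp
    obtain ⟨k, hk⟩ := hT₀ hp
    rw [← hk]
    exact hGKh k
  -- the bound for the degrees
  obtain ⟨k, hk3, hdF', hdT⟩ : ∃ k, 3 ≤ k ∧ (∀ i, ∃ g ≤ e * k, (F i).IsHomogeneous g) ∧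
      ∀ p ∈ T₀, ∃ g ≤ e * k, p.IsHomogeneous g := by
    have := Fintype.ofFinite ι
    choose eF heF using hF
    choose! eT heT using hTh
    obtain ⟨d₀, hd₀⟩ : ∃ d₀, d₀ = max 3 (max (Finset.univ.sup eF) (T₀.sup eT)) := ⟨_, rfl⟩
    have hle : d₀ ≤ e * d₀ := Nat.le_mul_of_pos_left _ he1
    refine ⟨d₀, ?_, fun i => ⟨eF i, ?_, heF i⟩, fun p hp => ⟨eT p, ?_, heT p hp⟩⟩
    · rw [hd₀]
      exact le_max_left _ _
    · refine le_trans ?_ hle
      rw [hd₀]
      exact (Finset.le_sup (f := eF) (Finset.mem_univ i)).trans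
        ((le_max_left _ _).trans (le_max_right _ _))
    · refine le_trans ?_ hle
      rw [hd₀]
      exact (Finset.le_sup (f := eT) hp).trans ((le_max_right _ _).trans (le_max_right _ _))
  have hdF : ∀ i, ∃ g ≤ e * k, (FK i).IsHomogeneous g := by
    intro i
    obtain ⟨e, he, he2⟩ := hdF' i
    rw [hFK]
    exact ⟨e, he, he2.map _⟩
  have hd3 : 3 ≤ e * k := hk3.trans (Nat.le_mul_of_pos_left _ he1)
  obtain ⟨N, m, hm, hN⟩ := t_num n (e * k) hn hd3
  have hd1 : 1 ≤ e * k := by omega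
  choose gF hgF1 hgF2 using hdF
  choose gT hgT1 hgT2 using fun p : T₀ => hdT p.1 p.2
  obtain ⟨ι₁, _, q₁, hq₁, v₁, w₁⟩ := t_ver K n N (e * k) m hm hd1 ι FK gF hgF2 hgF1
  obtain ⟨ι₂, _, q₂, hq₂, v₂, w₂⟩ := t_ver K n N (e * k) m hm hd1 (ι ⊕ T₀)
    (Sum.elim FK fun p : T₀ => (p : MvPolynomial (Fin (n + 1)) K)) (Sum.elim gF gT)
    (by
      rintro (i | p)
      · exact hgF2 i
      · exact hgT2 p) (by
      rintro (i | p)
      · exact hgF1 i
      · exact hgT1 p)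
  choose c₁ q₁' hc₁ hq₁' e₁ using fun i => zb_denom (q₁ i) (hq₁ i)
  choose c₂ q₂' hc₂ hq₂' e₂ using fun i => zb_denom (q₂ i) (hq₂ i)
  have eq₁ : ∀ (Ω : Type) [Field Ω] (τ : K →+* Ω) (y : Fin (N + 1) → Ω),
      zbZ q₁' Ω τ y ↔ ∀ i, eval₂ τ y (q₁ i) = 0 :=
    fun Ω _ τ y => forall_congr' fun i => zb_zero τ (hc₁ i) (e₁ i) y
  have eq₂ : ∀ (Ω : Type) [Field Ω] (τ : K →+* Ω) (y : Fin (N + 1) → Ω),
      zbZ q₂' Ω τ y ↔ ∀ i, eval₂ τ y (q₂ i) = 0 :=
    fun Ω _ τ y => forall_congr' fun i => zb_zero τ (hc₂ i) (e₂ i) y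
  obtain ⟨ℓ, hℓ, hℓF⟩ := t_zsurj (𝓞 K) n N (e * k) m hm 1 (T ^ k) (by
    have := hTe.pow k
    rwa [show e * k = e * k * 1 by ring] at this)
  have hℓv : ∀ (Ω : Type) [Field Ω] (τ : K →+* Ω) (x : Fin (n + 1) → Ω),
      eval₂ (τ.comp (algebraMap (𝓞 K) K)) (ver m x) ℓ =
        eval₂ (τ.comp (algebraMap (𝓞 K) K)) x T ^ k := by
    intro Ω _ τ x
    rw [← zb_pull, hℓF, eval₂_pow]
  refine ⟨N, k, m, hm, by omega, ι₁ ⊕ Unit, ι₂, inferInstance,
    Sum.elim q₁' fun _ => ℓ - C 1, q₂', ?_, ?_⟩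
  · intro Ω _ τ u
    rw [Sum.forall]
    simp only [Sum.elim_inl, Sum.elim_inr]
    constructor
    · rintro ⟨h1, h2⟩
      have h3 : eval₂ (τ.comp (algebraMap (𝓞 K) K)) u ℓ = 1 := by
        have := h2 ()
        rwa [eval₂_sub, eval₂_C, map_one, sub_eq_zero] at this
      have hu : u ≠ 0 := by
        intro h0
        have h4 := zb_scale τ hℓ 0 u
        rw [zero_smul, h0.symm, h3] at h4
        simp at h4
      let _ := τ.toAlgebra
      obtain ⟨-, x, a, b, hxa, hyb, hyc, hx⟩ := w₁ Ω u hu ((eq₁ Ω τ u).1 h1)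
      have hu' : u = u b • ver m x := funext fun c => hyc c
      have hx0 : x ≠ 0 := by
        intro h0
        rw [h0] at hxa
        exact zero_ne_one hxa
      have h5 : u b * eval₂ (τ.comp (algebraMap (𝓞 K) K)) x T ^ k = 1 := by
        rw [← hℓv, ← h3]
        conv_rhs => rw [hu']
        rw [zb_scale τ hℓ, pow_one]
      refine ⟨x, hx0, (eF Ω τ x).2 hx, ?_, ?_⟩
      · intro h0
        rw [h0, zero_pow (by omega), mul_zero] at h5
        exact zero_ne_one h5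
      · have h6 : (eval₂ (τ.comp (algebraMap (𝓞 K) K)) x T ^ k)⁻¹ = u b :=
          inv_eq_of_mul_eq_one_left h5
        rw [h6]
        exact hu'
    · rintro ⟨x, hx0, hx, hTx, rfl⟩
      constructor
      · refine zbZ_smul (fun i => ⟨2, hq₁' i⟩) Ω τ _ _ ?_
        rw [eq₁]
        let _ := τ.toAlgebra
        exact v₁ Ω x ((eF Ω τ x).1 hx)
      · intro _
        rw [eval₂_sub, eval₂_C, map_one, zb_scale τ hℓ, hℓv, pow_one,
          inv_mul_cancel₀ (pow_ne_zero _ hTx), sub_self]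
  · intro Ω _ τ x hx0 hx hTx
    have hc : (eval₂ (τ.comp (algebraMap (𝓞 K) K)) x T ^ k)⁻¹ ≠ 0 :=
      inv_ne_zero (pow_ne_zero _ hTx)
    constructor
    · intro h
      have h1 : zbZ q₂' Ω τ (ver m x) := by
        have h2 := zbZ_smul (fun i => ⟨2, hq₂' i⟩) Ω τ
          (eval₂ (τ.comp (algebraMap (𝓞 K) K)) x T ^ k) _ h
        rwa [smul_smul, mul_inv_cancel₀ (pow_ne_zero _ hTx), one_smul] at h2
      rw [eq₂] at h1
      let _ := τ.toAlgebra
      obtain ⟨-, x', a, b, hxa, hyb, hyc, hx'⟩ := w₂ Ω (ver m x) (ver_ne_zero hm hd1 hx0) h1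
      have hu' : ver m x = ver m x b • ver m x' := funext fun c => hyc c
      obtain ⟨c', hc'⟩ := ver_prop hm hd1 hx0 hu'
      have h3 : zbZ G Ω τ x' := by
        rw [eG]
        intro l
        have h4 := hTG Ω τ x' (fun p hp => by
          rw [eval_map]
          exact hx' (Sum.inr ⟨p, hp⟩)) (GK l) ⟨l, rfl⟩
        rw [eval_map] at h4
        exact h4
      rw [hc']
      exact zbZ_smul hG Ω τ c' x' h3
    · intro h
      refine zbZ_smul (fun i => ⟨2, hq₂' i⟩) Ω τ _ _ ?_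
      rw [eq₂]
      let _ := τ.toAlgebra
      refine v₂ Ω x ?_
      have hG' := (eG Ω τ x).1 h
      have hF' := (eF Ω τ x).1 hx
      rintro (i | p)
      · exact hF' i
      · obtain ⟨l, hl⟩ := hT₀ p.2
        have := hG' l
        rw [hl] at this
        exact this

/-- the embedding of `V(F) ∖ V(T)` -/
noncomputable def affPhi {K : Type} [Field K] {n N : ℕ} (T : MvPolynomial (Fin (n + 1)) (𝓞 K))
    (k : ℕ) (m : Fin (N + 1) → Fin (n + 1) → ℕ) {Ω : Type} [Field Ω] (τ : K →+* Ω)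
    (x : Fin (n + 1) → Ω) : Fin (N + 1) → Ω :=
  (eval₂ (τ.comp (algebraMap (𝓞 K) K)) x T ^ k)⁻¹ • ver m x

theorem affPhi_smul {K : Type} [Field K] {n N e k : ℕ} {T : MvPolynomial (Fin (n + 1)) (𝓞 K)}
    (hTe : T.IsHomogeneous e) {m : Fin (N + 1) → Fin (n + 1) → ℕ} (hm : Mon n N (e * k) m)
    {Ω : Type} [Field Ω] (τ : K →+* Ω) {c : Ω} (hc : c ≠ 0) (x : Fin (n + 1) → Ω) :
    affPhi T k m τ (c • x) = affPhi T k m τ x := by
  unfold affPhi
  rw [zb_scale τ hTe, ver_smul hm, smul_smul]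
  congr 1
  rw [mul_pow, ← pow_mul, mul_inv, mul_comm, ← mul_assoc, mul_inv_cancel₀ (pow_ne_zero _ hc),
    one_mul]

theorem affPhi_inj {K : Type} [Field K] {n N d k : ℕ} {T : MvPolynomial (Fin (n + 1)) (𝓞 K)}
    {m : Fin (N + 1) → Fin (n + 1) → ℕ} (hm : Mon n N d m) (hd : 1 ≤ d)
    {Ω : Type} [Field Ω] (τ : K →+* Ω) {x y : Fin (n + 1) → Ω} (hy : y ≠ 0)
    (hTy : eval₂ (τ.comp (algebraMap (𝓞 K) K)) y T ≠ 0)
    (hxy : affPhi T k m τ x = affPhi T k m τ y) : ∃ c : Ω, y = c • x := by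
  unfold affPhi at hxy
  refine ver_prop (c := eval₂ (τ.comp (algebraMap (𝓞 K) K)) y T ^ k *
    (eval₂ (τ.comp (algebraMap (𝓞 K) K)) x T ^ k)⁻¹) hm hd hy ?_
  rw [← smul_smul, hxy, smul_smul, mul_inv_cancel₀ (pow_ne_zero _ hTy), one_smul]

/-- the conjecture for affine schemes in projective coordinates -/
theorem quasi_of_aff {K : Type} [Field K] [NumberField K] (σ : K →+* ℂ)
    (n : ℕ) (hn : 1 ≤ n) (ι τ₀ : Type) [Finite ι] (F : ι → MvPolynomial (Fin (n + 1)) (𝓞 K))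
    (T : MvPolynomial (Fin (n + 1)) (𝓞 K)) (G : τ₀ → MvPolynomial (Fin (n + 1)) (𝓞 K))
    (hF : ∀ i, ∃ e, (F i).IsHomogeneous e) (hT : ∃ e, 1 ≤ e ∧ T.IsHomogeneous e)
    (hG : ∀ l, ∃ e, (G l).IsHomogeneous e) :
    ∃ (N : ℕ) (ι₁ ι₂ : Type) (_ : Finite ι₁) (F' : ι₁ → MvPolynomial (Fin N) (𝓞 K))
      (G' : ι₂ → MvPolynomial (Fin N) (𝓞 K)),
      (AffCur σ F' G' ↔ ZbCur σ (zbZ F) (zbZ G) (fun _ : Unit => T)) ∧
      (AffPts F' G' ↔ ZbPts (zbZ F) (zbZ G) (fun _ : Unit => T)) := by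
  obtain ⟨e, he1, hTe⟩ := hT
  obtain ⟨N, k, m, hm, hk, ι₁, ι₂, _, F', G', h1, h2⟩ := aff_model hn F hF T he1 hTe G hG
  refine ⟨N + 1, ι₁, ι₂, inferInstance, F', G', ?_⟩
  have hd1 : 1 ≤ e * k := Nat.mul_pos he1 hk
  -- curves
  have hc : (∀ f : ℂ → Fin (N + 1) → ℂ, Differentiable ℂ f →
      (∀ z i, eval₂ (σ.comp (algebraMap (𝓞 K) K)) (f z) (F' i) = 0) → (∃ z w, f z ≠ f w) →
      ∀ z l, eval₂ (σ.comp (algebraMap (𝓞 K) K)) (f z) (G' l) = 0) ↔
      (∀ f : ℂ → Fin (n + 1) → ℂ, Differentiable ℂ f → (∀ z, f z ≠ 0) →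
      (∀ z i, eval₂ (σ.comp (algebraMap (𝓞 K) K)) (f z) (F i) = 0) →
      (∀ z, ∃ k : Unit, eval₂ (σ.comp (algebraMap (𝓞 K) K)) (f z) ((fun _ : Unit => T) k) ≠ 0) →
      (∃ z w, ∀ c : ℂ, f w ≠ c • f z) →
      ∀ z l, eval₂ (σ.comp (algebraMap (𝓞 K) K)) (f z) (G l) = 0) := by
    constructor
    · rintro h3 f hf hf0 hfF hfT ⟨z₀, w₀, hnc⟩ z
      have hfT' : ∀ z, eval₂ (σ.comp (algebraMap (𝓞 K) K)) (f z) T ≠ 0 :=
        fun z => (hfT z).choose_spec
      have hTd : Differentiable ℂ fun z => eval₂ (σ.comp (algebraMap (𝓞 K) K)) (f z) T := by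
        rw [differentiable_pi] at hf
        simp only [eval₂_eq']
        exact Differentiable.fun_sum fun s _ => (differentiable_const _).mul
          (Differentiable.fun_finsetProd fun j _ => (hf j).fun_pow _)
      refine (h2 ℂ σ (f z) (hf0 z) (hfF z) (hfT' z)).1 (h3 (fun z => affPhi T k m σ (f z)) ?_
        (fun z => (h1 ℂ σ _).2 ⟨f z, hf0 z, hfF z, hfT' z, rfl⟩) ⟨z₀, w₀, fun heq => ?_⟩ z)
      · exact ((hTd.fun_pow k).inv fun z => pow_ne_zero _ (hfT' z)).smul (ver_diff hf)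
      · obtain ⟨c, hc⟩ := affPhi_inj hm hd1 σ (hf0 w₀) (hfT' w₀) heq
        exact hnc c hc
    · rintro h3 f hf hfF ⟨z₀, w₀, hne'⟩ z
      have h4 := fun z => (h1 ℂ σ (f z)).1 (hfF z)
      have hf0 : ∀ z, f z ≠ 0 := by
        intro z
        obtain ⟨x, hx0, hx, hTx, hfx⟩ := h4 z
        rw [hfx]
        exact smul_ne_zero (inv_ne_zero (pow_ne_zero _ hTx)) (ver_ne_zero hm hd1 hx0)
      obtain ⟨F₁, hF₁, hF0, hFP, hfF₁⟩ := lift_gen hm hd1
        (P := fun x => (∀ i, eval₂ (σ.comp (algebraMap (𝓞 K) K)) x (F i) = 0))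
        (fun c x hx => zbZ_smul hF ℂ σ c x hx) hf hf0 (fun z => by
          obtain ⟨x, hx0, hx, hTx, hfx⟩ := h4 z
          obtain ⟨r, hr⟩ := IsAlgClosed.exists_pow_nat_eq
            ((eval₂ (σ.comp (algebraMap (𝓞 K) K)) x T ^ k)⁻¹) (n := e * k) hd1
          have hr0 : r ≠ 0 := by
            intro h0
            rw [h0, zero_pow (by omega)] at hr
            exact inv_ne_zero (pow_ne_zero _ hTx) hr.symm
          refine ⟨r • x, smul_ne_zero hr0 hx0, zbZ_smul hF ℂ σ r x hx, ?_⟩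
          rw [ver_smul hm, hr]
          exact hfx)
      -- the values of `T`
      have h5 : ∀ z, eval₂ (σ.comp (algebraMap (𝓞 K) K)) (F₁ z) T ^ k = 1 := by
        intro z
        obtain ⟨x, hx0, hx, hTx, hfx⟩ := h4 z
        rw [hfF₁ z] at hfx
        obtain ⟨c, hc⟩ := ver_prop hm hd1 (hF0 z) hfx
        have hc0 : c ≠ 0 := by
          intro h0
          rw [h0, zero_smul] at hc
          exact hF0 z hc
        rw [hc, zb_scale σ hTe, mul_pow, ← pow_mul]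
        rw [hc, ver_smul hm] at hfx
        obtain ⟨a, ha⟩ : ∃ a, ver m x a ≠ 0 := by
          by_contra h0
          push Not at h0
          exact ver_ne_zero hm hd1 hx0 (funext h0)
        have h6 := congrFun hfx a
        rw [Pi.smul_apply, Pi.smul_apply, smul_eq_mul, smul_eq_mul] at h6
        rw [mul_right_cancel₀ ha h6, inv_mul_cancel₀ (pow_ne_zero _ hTx)]
      have h6 : ∀ z, eval₂ (σ.comp (algebraMap (𝓞 K) K)) (F₁ z) T ≠ 0 := by
        intro z h0
        have := h5 z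
        rw [h0, zero_pow (by omega)] at this
        exact zero_ne_one this
      have h7 : ∀ z, f z = (eval₂ (σ.comp (algebraMap (𝓞 K) K)) (F₁ z) T ^ k)⁻¹ •
          ver m (F₁ z) := by
        intro z
        rw [h5, inv_one, one_smul]
        exact hfF₁ z
      have h8 := h3 F₁ hF₁ hF0 hFP (fun z => ⟨(), h6 z⟩) ⟨z₀, w₀, fun c hc => hne' ?_⟩ z
      · rw [h7 z]
        exact (h2 ℂ σ (F₁ z) (hF0 z) (hFP z) (h6 z)).2 h8
      · have hc0 : c ≠ 0 := by
          intro h0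
          rw [h0, zero_smul] at hc
          exact hF0 _ hc
        have h9 := affPhi_smul (T := T) hTe hm σ hc0 (F₁ z₀)
        rw [← hc] at h9
        rw [h7 z₀, h7 w₀]
        exact h9.symm
  -- points
  have hp : ∀ (L : Type) [Field L] [NumberField L] [Algebra K L]
      (S : Set (HeightOneSpectrum (𝓞 L))), (intPoints F' L S \ intPoints G' L S).Finite ↔
      (quasiPoints F (fun _ : Unit => T) L S \
        {P | ∀ l, eval₂ ((algebraMap K L).comp (algebraMap (𝓞 K) K)) P.rep (G l) = 0}).Finite := by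
    intro L _ _ _ S
    obtain ⟨W, hW⟩ : ∃ W, W = (quasiPoints F (fun _ : Unit => T) L S \
        {P | ∀ l, eval₂ ((algebraMap K L).comp (algebraMap (𝓞 K) K)) P.rep (G l) = 0}) :=
      ⟨_, rfl⟩
    have hWT : ∀ P ∈ W, eval₂ ((algebraMap K L).comp (algebraMap (𝓞 K) K)) P.rep T ≠ 0 := by
      intro P hP
      rw [hW] at hP
      exact hP.1.2.1.choose_spec
    have hinj : Set.InjOn (fun P : ℙ L (Fin (n + 1) → L) =>
        affPhi T k m (algebraMap K L) P.rep) W := by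
      intro P hP P' hP' heq
      obtain ⟨c, hc⟩ := affPhi_inj hm hd1 (algebraMap K L) P'.rep_nonzero (hWT P' hP') heq
      rw [← P.mk_rep, ← P'.mk_rep, eq_comm, Projectivization.mk_eq_mk_iff']
      exact ⟨c, hc.symm⟩
    have himg : intPoints F' L S \ intPoints G' L S = (fun P : ℙ L (Fin (n + 1) → L) =>
        affPhi T k m (algebraMap K L) P.rep) '' W := by
      ext u
      constructor
      · rintro ⟨⟨h3, h4⟩, h5⟩
        obtain ⟨x, hx0, hx, hTx, hux⟩ := (h1 L (algebraMap K L) u).1 h4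
        obtain ⟨c, hc⟩ := Projectivization.exists_smul_eq_mk_rep L x hx0
        obtain ⟨P, hP⟩ : ∃ P, P = Projectivization.mk L x hx0 := ⟨_, rfl⟩
        have hrep : P.rep = (c : L) • x := by
          rw [hP]
          exact hc.symm
        have hu : u = affPhi T k m (algebraMap K L) P.rep := by
          rw [hrep, affPhi_smul hTe hm _ c.ne_zero]
          exact hux
        have hFP : ∀ i, eval₂ ((algebraMap K L).comp (algebraMap (𝓞 K) K)) P.rep (F i) = 0 := by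
          rw [hrep]
          exact zbZ_smul hF L (algebraMap K L) _ x hx
        have hTP : eval₂ ((algebraMap K L).comp (algebraMap (𝓞 K) K)) P.rep T ≠ 0 := by
          rw [hrep, zb_scale _ hTe]
          exact mul_ne_zero (pow_ne_zero _ c.ne_zero) hTx
        refine ⟨P, ?_, hu.symm⟩
        rw [hW]
        refine ⟨⟨hFP, ⟨(), hTP⟩, fun v hv => ?_⟩, fun h6 => h5 ⟨h3, ?_⟩⟩
        · refine (aff_int hm hk hTe v P.rep P.rep_nonzero hTP).1 fun a => ?_
          have h7 := h3 a v hv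
          rw [hu] at h7
          exact h7
        · have h7 := (h2 L (algebraMap K L) P.rep P.rep_nonzero hFP hTP).2 h6
          rw [hu]
          exact h7
      · rintro ⟨P, hP, rfl⟩
        have hTP := hWT P hP
        rw [hW] at hP
        obtain ⟨⟨hFP, -, hPR⟩, hPG⟩ := hP
        have h3 : ∀ a, affPhi T k m (algebraMap K L) P.rep a ∈ S.integer L := fun a v hv =>
          (aff_int hm hk hTe v P.rep P.rep_nonzero hTP).2 (hPR v hv) a
        refine ⟨⟨h3, (h1 L (algebraMap K L) _).2 ⟨P.rep, P.rep_nonzero, hFP, hTP, rfl⟩⟩,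
          fun h4 => hPG ?_⟩
        exact (h2 L (algebraMap K L) P.rep P.rep_nonzero hFP hTP).1 h4.2
    rw [← hW, himg]
    exact Set.finite_image_iff hinj
  exact ⟨hc, ⟨fun h3 L _ _ _ S hS => (hp L S).1 (h3 L S hS),
    fun h3 L _ _ _ S hS => (hp L S).2 (h3 L S hS)⟩⟩

end Pool.Agent.W2helper39.LC
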