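import Pool.Agent.W2helper39.LC.ZBlv

/-!
The Bombieri–Lang–Vojta conjecture for affine schemes and for the complements of smooth hypersurfaces:
the assembly.
-/

set_option autoImplicit false

namespace Pool.Agent.W2helper39.LC

open MvPolynomial NumberField IsDedekindDomain
open scoped LinearAlgebra.Projectivization
open Pool.Agent.N254.SQ

/-- a nonzero number is a unit at almost all primes -/
theorem val_finite {L : Type} [Field L] [NumberField L] {x : L} (hx : x ≠ 0) :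
    {v : HeightOneSpectrum (𝓞 L) | v.valuation L x ≠ 1}.Finite := by
  refine ((HeightOneSpectrum.Support.finite (𝓞 L) x).union
    (HeightOneSpectrum.Support.finite (𝓞 L) x⁻¹)).subset ?_
  intro v hv
  rcases lt_or_gt_of_ne (show v.valuation L x ≠ 1 from hv) with h | h
  · right
    show 1 < v.valuation L x⁻¹
    rw [map_inv₀]
    exact (one_lt_inv₀ ((Valuation.pos_iff _).2 hx)).2 h
  · left
    exact h

/-- the statement of `cons_z` -/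
def ConsZ (N D₁ : ℕ) : Prop := ∀ (n d : ℕ), 1 ≤ n → 3 ≤ d →
    ∀ (m : Fin (N + 1) → Fin (n + 1) → ℕ), Mon n N d m → 2 * n < N →
      ∀ D, D₁ ≤ D → ∀ (K : Type) [Field K] [NumberField K] (ι : Type) [Finite ι]
        (F : ι → MvPolynomial (Fin (n + 1)) (𝓞 K)), (∀ i, ∃ e ≤ d, (F i).IsHomogeneous e) →
        ∀ (e : ℕ) (H : MvPolynomial (Fin (n + 1)) (𝓞 K)), 1 ≤ e → e ∣ d → H.IsHomogeneous e →
        ∃ (a : 𝓞 K) (ℓ : MvPolynomial (Fin (N + 1)) (𝓞 K))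
          (Q : Fin (Mn N) → MvPolynomial (Fin (N + 1)) (𝓞 K)), a ≠ 0 ∧ ℓ.IsHomogeneous 1 ∧
          (∀ t, (Q t).IsHomogeneous 2) ∧
          SmoothOver (map (algebraMap (𝓞 K) K) (formR D a ℓ Q)) ∧
          (∃ k, 1 ≤ k ∧ ∀ (Ω : Type) [Field Ω] (τ : K →+* Ω) (x : Fin (n + 1) → Ω),
            (∀ i, eval₂ (τ.comp (algebraMap (𝓞 K) K)) x (F i) = 0) →
            eval₂ (τ.comp (algebraMap (𝓞 K) K)) (ver m x) (formR D a ℓ Q) =
              τ (algebraMap (𝓞 K) K a) * eval₂ (τ.comp (algebraMap (𝓞 K) K)) x H ^ k) ∧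
          ∀ (σ : K →+* ℂ) (f : ℂ → Fin (N + 1) → ℂ), Differentiable ℂ f → (∀ z, f z ≠ 0) →
            (∀ z, eval₂ (σ.comp (algebraMap (𝓞 K) K)) (f z) (formR D a ℓ Q) ≠ 0) →
            (¬ ∀ z w, ∃ c : ℂ, f w = c • f z) →
            ∃ F₁ : ℂ → Fin (n + 1) → ℂ, Differentiable ℂ F₁ ∧ (∀ z, F₁ z ≠ 0) ∧
              (∀ z i, eval₂ (σ.comp (algebraMap (𝓞 K) K)) (F₁ z) (F i) = 0) ∧
              ∀ z, f z = ver m (F₁ z)

theorem cons_z_all : ∃ D₁ : ℕ → ℕ, ∀ N, 1 ≤ N → ConsZ N (D₁ N) := by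
  classical
  have h : ∀ N, ∃ D, 1 ≤ N → ConsZ N D := by
    intro N
    by_cases hN : 1 ≤ N
    · obtain ⟨D, hD⟩ := cons_z N hN
      exact ⟨D, fun _ => hD⟩
    · exact ⟨0, fun h => absurd h hN⟩
  choose D hD using h
  exact ⟨D, hD⟩

theorem zblv_c (D₁ : ℕ → ℕ) (hD₁ : ∀ N, 1 ≤ N → ConsZ N (D₁ N)) (K : Type) [Field K]
    [NumberField K] (σ : K →+* ℂ) (E : Set ℕ) (hE : E.Infinite)
    (H : ∀ (N D : ℕ) (a : 𝓞 K) (ℓ : MvPolynomial (Fin (N + 1)) (𝓞 K))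
      (Q : Fin (Mn N) → MvPolynomial (Fin (N + 1)) (𝓞 K)), D ∈ E → D₁ N ≤ D → a ≠ 0 →
      ℓ.IsHomogeneous 1 → (∀ t, (Q t).IsHomogeneous 2) →
      SmoothOver (map (algebraMap (𝓞 K) K) (formR D a ℓ Q)) →
      ∀ (τ : Type) [Finite τ] (G : τ → MvPolynomial (Fin (N + 1)) (𝓞 K)),
        (∀ l, (G l).IsHomogeneous 2) →
        ZbCur σ (zbZ (fun i : Empty => i.elim)) (zbZ G) (fun _ : Unit => formR D a ℓ Q) →
        ZbPts (zbZ (fun i : Empty => i.elim)) (zbZ G) (fun _ : Unit => formR D a ℓ Q))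
    (n : ℕ) (hn : 1 ≤ n) (ι τ₀ : Type) [Finite ι] (F : ι → MvPolynomial (Fin (n + 1)) (𝓞 K))
    (T : MvPolynomial (Fin (n + 1)) (𝓞 K)) (G : τ₀ → MvPolynomial (Fin (n + 1)) (𝓞 K))
    (hF : ∀ i, ∃ e, (F i).IsHomogeneous e) (hT : ∃ e, 1 ≤ e ∧ T.IsHomogeneous e)
    (hG : ∀ l, ∃ e, (G l).IsHomogeneous e) :
    ∃ (N D : ℕ) (a : 𝓞 K) (ℓ : MvPolynomial (Fin (N + 1)) (𝓞 K))
      (Q : Fin (Mn N) → MvPolynomial (Fin (N + 1)) (𝓞 K)), D ∈ E ∧ D₁ N ≤ D ∧ a ≠ 0 ∧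
      ℓ.IsHomogeneous 1 ∧ (∀ t, (Q t).IsHomogeneous 2) ∧
      SmoothOver (map (algebraMap (𝓞 K) K) (formR D a ℓ Q)) ∧
      ∃ (τ : Type) (_ : Finite τ) (G' : τ → MvPolynomial (Fin (N + 1)) (𝓞 K)),
        (∀ l, (G' l).IsHomogeneous 2) ∧
        (ZbCur σ (zbZ F) (zbZ G) (fun _ : Unit => T) ↔
          ZbCur σ (zbZ (fun i : Empty => i.elim)) (zbZ G') (fun _ : Unit => formR D a ℓ Q)) ∧
        (ZbPts (zbZ F) (zbZ G) (fun _ : Unit => T) ↔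
          ZbPts (zbZ (fun i : Empty => i.elim)) (zbZ G') (fun _ : Unit => formR D a ℓ Q)) := by
  classical
  obtain ⟨e, he1, hTe⟩ := hT
  -- the forms over `K`
  obtain ⟨FK, hFK⟩ : ∃ FK : ι → MvPolynomial (Fin (n + 1)) K,
    FK = fun i => map (algebraMap (𝓞 K) K) (F i) := ⟨_, rfl⟩
  obtain ⟨GK, hGK⟩ : ∃ GK : τ₀ → MvPolynomial (Fin (n + 1)) K,
    GK = fun i => map (algebraMap (𝓞 K) K) (G i) := ⟨_, rfl⟩
  have eF : ∀ (Ω : Type) [Field Ω] (τ : K →+* Ω) (x : Fin (n + 1) → Ω),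
      zbZ F Ω τ x ↔ ∀ i, eval₂ τ x (FK i) = 0 := by
    intro Ω _ τ x
    unfold zbZ
    rw [hFK]
    simp only [eval₂_map]
  have eG : ∀ (Ω : Type) [Field Ω] (τ : K →+* Ω) (x : Fin (n + 1) → Ω),
      zbZ G Ω τ x ↔ ∀ i, eval₂ τ x (GK i) = 0 := by
    intro Ω _ τ x
    unfold zbZ
    rw [hGK]
    simp only [eval₂_map]
  have hGKh : ∀ i, ∃ e, (GK i).IsHomogeneous e := by
    intro i
    obtain ⟨e, he⟩ := hG i
    rw [hGK]
    exact ⟨e, he.map _⟩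
  obtain ⟨T₀, hT₀, hTG⟩ := reduce (Set.range GK)
  have hTh : ∀ p ∈ T₀, ∃ e, p.IsHomogeneous e := by
    intro p hp
    obtain ⟨k, hk⟩ := hT₀ hp
    rw [← hk]
    exact hGKh k
  -- the bound for the degrees
  obtain ⟨d, hd3, hed, hdF', hdT⟩ : ∃ d, 3 ≤ d ∧ e ∣ d ∧ (∀ i, ∃ e ≤ d, (F i).IsHomogeneous e) ∧
      ∀ p ∈ T₀, ∃ e ≤ d, p.IsHomogeneous e := by
    have := Fintype.ofFinite ι
    choose eF heF using hF
    choose! eT heT using hTh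
    obtain ⟨d₀, hd₀⟩ : ∃ d₀, d₀ = max 3 (max (Finset.univ.sup eF) (T₀.sup eT)) := ⟨_, rfl⟩
    have hle : d₀ ≤ e * d₀ := Nat.le_mul_of_pos_left _ he1
    refine ⟨e * d₀, ?_, ⟨d₀, rfl⟩, fun i => ⟨eF i, ?_, heF i⟩, fun p hp => ⟨eT p, ?_, heT p hp⟩⟩
    · refine le_trans ?_ hle
      rw [hd₀]
      exact le_max_left _ _
    · refine le_trans ?_ hle
      rw [hd₀]
      exact (Finset.le_sup (f := eF) (Finset.mem_univ i)).trans
        ((le_max_left _ _).trans (le_max_right _ _))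
    · refine le_trans ?_ hle
      rw [hd₀]
      exact (Finset.le_sup (f := eT) hp).trans ((le_max_right _ _).trans (le_max_right _ _))
  have hdF : ∀ i, ∃ e ≤ d, (FK i).IsHomogeneous e := by
    intro i
    obtain ⟨e, he, he2⟩ := hdF' i
    rw [hFK]
    exact ⟨e, he, he2.map _⟩
  obtain ⟨N, m, hm, hN⟩ := t_num n d hn hd3
  have hd1 : 1 ≤ d := by omega
  obtain ⟨D, hDE, hD⟩ := hE.exists_gt (D₁ N)
  obtain ⟨a, ℓ, Q, ha, hℓ, hQ, hsm, ⟨k, hk1, hk⟩, hcur⟩ :=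
    hD₁ N (by omega) n d hn hd3 m hm hN D hD.le K ι F hdF' e T he1 hed hTe
  choose gF hgF1 hgF2 using hdF
  choose gT hgT1 hgT2 using fun p : T₀ => hdT p.1 p.2
  obtain ⟨ι₁, _, q₁, hq₁, v₁, w₁⟩ := t_ver K n N d m hm hd1 ι FK gF hgF2 hgF1
  obtain ⟨ι₂, _, q₂, hq₂, v₂, w₂⟩ := t_ver K n N d m hm hd1 (ι ⊕ T₀)
    (Sum.elim FK fun p : T₀ => (p : MvPolynomial (Fin (n + 1)) K)) (Sum.elim gF gT)
    (by
      rintro (i | p)
      · exact hgF2 i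
      · exact hgT2 p) (by
      rintro (i | p)
      · exact hgF1 i
      · exact hgT1 p)
  choose c₁ q₁' hc₁ hq₁' e₁ using fun i => zb_denom (q₁ i) (hq₁ i)
  choose c₂ q₂' hc₂ hq₂' e₂ using fun i => zb_denom (q₂ i) (hq₂ i)
  have eq₁ : ∀ (Ω : Type) [Field Ω] (τ : K →+* Ω) (y : Fin (N + 1) → Ω),
      zbZ q₁' Ω τ y ↔ ∀ i, eval₂ τ y (q₁ i) = 0 :=
    fun Ω _ τ y => forall_congr' fun i => zb_zero τ (hc₁ i) (e₁ i) y
  have eq₂ : ∀ (Ω : Type) [Field Ω] (τ : K →+* Ω) (y : Fin (N + 1) → Ω),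
      zbZ q₂' Ω τ y ↔ ∀ i, eval₂ τ y (q₂ i) = 0 :=
    fun Ω _ τ y => forall_congr' fun i => zb_zero τ (hc₂ i) (e₂ i) y
  have hAh : (formR D a ℓ Q).IsHomogeneous (D + 2) := formR_hom D hℓ hQ
  have haK : algebraMap (𝓞 K) K a ≠ 0 := by
    intro h0
    exact ha ((FaithfulSMul.algebraMap_injective (𝓞 K) K) (by rw [h0, map_zero]))
  -- the applications of the hypothesis
  have h1 := H N D a ℓ Q hDE hD.le ha hℓ hQ hsm ι₁ q₁' hq₁'
  have hne : ∀ (Ω : Type) [Field Ω] (x : Fin (n + 1) → Ω) (a : Fin (n + 1)), x a = 1 → x ≠ 0 := by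
    intro Ω _ x a hxa h0
    rw [h0] at hxa
    exact zero_ne_one hxa
  refine ⟨N, D, a, ℓ, Q, hDE, hD.le, ha, hℓ, hQ, hsm, ι₂, inferInstance, q₂', hq₂', ?_⟩
  refine zc_main σ hm hd1 (zbZ F) (zbZ G) (zbZ (fun i : Empty => i.elim)) (zbZ q₁')
    (zbZ q₂') (fun _ : Unit => T) (fun _ : Unit => formR D a ℓ Q)
    (fun Ω _ τ c x h => zbZ_smul hF Ω τ c x h)
    (fun Ω _ τ c x h => zbZ_smul hG Ω τ c x h) ?_
    (fun Ω _ τ c x h => zbZ_smul (fun i => ⟨2, hq₂' i⟩) Ω τ c x h) ?_ ?_ ?_ ?_ ?_ ?_ ?_ ?_ h1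
  · intro Ω _ τ b x _ i
    exact i.elim
  · intro Ω _ τ x _ i
    exact i.elim
  · intro Ω _ τ x h
    rw [eF] at h
    rw [eq₁]
    let _ := τ.toAlgebra
    exact v₁ Ω x h
  · intro Ω _ τ y hy h
    rw [eq₁] at h
    let _ := τ.toAlgebra
    obtain ⟨-, x, a, b, hxa, hyb, hyc, hx⟩ := w₁ Ω y hy h
    exact ⟨x, y b, hne Ω x a hxa, hyb, funext fun c => hyc c, (eF Ω τ x).2 hx⟩
  · intro Ω _ τ x hx hxG
    rw [eF] at hx
    rw [eG] at hxG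
    rw [eq₂]
    let _ := τ.toAlgebra
    refine v₂ Ω x ?_
    rintro (i | p)
    · exact hx i
    · obtain ⟨k, hk⟩ := hT₀ p.2
      have := hxG k
      rw [hk] at this
      exact this
  · intro Ω _ τ y hy h
    rw [eq₂] at h
    let _ := τ.toAlgebra
    obtain ⟨-, x, a, b, hxa, hyb, hyc, hx⟩ := w₂ Ω y hy h
    refine ⟨x, y b, hne Ω x a hxa, hyb, funext fun c => hyc c, (eG Ω τ x).2 fun k => ?_⟩
    have h3 := hTG Ω τ x (fun p hp => by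
      rw [eval_map]
      exact hx (Sum.inr ⟨p, hp⟩)) (GK k) ⟨k, rfl⟩
    rw [eval_map] at h3
    exact h3
  · intro f hf hf0 _ hfT hnc
    exact hcur σ f hf hf0 (fun z => (hfT z).choose_spec) hnc
  · intro Ω _ τ x c hc hx
    have h3 : eval₂ (τ.comp (algebraMap (𝓞 K) K)) (c • ver m x) (formR D a ℓ Q) =
        c ^ (D + 2) * (τ (algebraMap (𝓞 K) K a) *
          eval₂ (τ.comp (algebraMap (𝓞 K) K)) x T ^ k) := by
      rw [zb_scale τ hAh, hk Ω τ x hx]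
    have h4 : τ (algebraMap (𝓞 K) K a) ≠ 0 := (map_ne_zero τ).2 haK
    constructor
    · rintro ⟨u, hu⟩
      refine ⟨u, fun h0 => hu ?_⟩
      rw [h3, h0, zero_pow (by omega), mul_zero, mul_zero]
    · rintro ⟨u, hu⟩
      refine ⟨u, ?_⟩
      rw [h3]
      exact mul_ne_zero (pow_ne_zero _ hc) (mul_ne_zero h4 (pow_ne_zero _ hu))
  · intro L _ _ _
    refine ⟨_, val_finite (L := L) (x := algebraMap K L (algebraMap (𝓞 K) K a))
      ((map_ne_zero _).2 haK), fun x c hx hc hPx v hv => ?_⟩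
    have hv' : v.valuation L (algebraMap K L (algebraMap (𝓞 K) K a)) = 1 := by
      by_contra h
      exact hv h
    exact red_iff hm hd1 hAh (zbZ F L (algebraMap K L))
      (fun c x h => zbZ_smul hF L (algebraMap K L) c x h) hk1
      (fun x hx => hk L (algebraMap K L) x hx) v hv' x c hx hc hPx

end Pool.Agent.W2helper39.LC
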