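import Pool.Agent.W2helper39.LC.ConsK
import Pool.Agent.N254.SQ.Zred

/-!
Integral points of affine schemes and of the complements of smooth hypersurfaces (adapted from
`N254/SQ/Zblv`).
-/

set_option autoImplicit false

namespace Pool.Agent.W2helper39.LC

open MvPolynomial NumberField IsDedekindDomain
open scoped LinearAlgebra.Projectivization
open Pool.Agent.N254.SQ

/-- all nonconstant entire curves in `PF ∖ V(T)` lie in `PG` -/
def ZbCur {K : Type} [Field K] {κ : Type} {n : ℕ} (σ : K →+* ℂ) (PF PG : ZbPred K n)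
    (T : κ → MvPolynomial (Fin (n + 1)) (𝓞 K)) : Prop :=
  ∀ f : ℂ → Fin (n + 1) → ℂ, Differentiable ℂ f → (∀ z, f z ≠ 0) →
    (∀ z, PF ℂ σ (f z)) →
    (∀ z, ∃ k, eval₂ (σ.comp (algebraMap (𝓞 K) K)) (f z) (T k) ≠ 0) →
    (∃ z w, ∀ c : ℂ, f w ≠ c • f z) →
    ∀ z, PG ℂ σ (f z)

/-- almost all integral points of `PF ∖ V(T)` are in `PG` -/
def ZbPts {K : Type} [Field K] {κ : Type} {n : ℕ} (PF PG : ZbPred K n)
    (T : κ → MvPolynomial (Fin (n + 1)) (𝓞 K)) : Prop :=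
  ∀ (L : Type) [Field L] [NumberField L] [Algebra K L] (S : Set (HeightOneSpectrum (𝓞 L))),
    S.Finite → ({P : ℙ L (Fin (n + 1) → L) | PF L (algebraMap K L) P.rep ∧
      (∃ k, eval₂ ((algebraMap K L).comp (algebraMap (𝓞 K) K)) P.rep (T k) ≠ 0) ∧
      ∀ v ∉ S, RedNotIn T P.rep v} \ {P | PG L (algebraMap K L) P.rep}).Finite

theorem zc_main {K : Type} [Field K] (σ : K →+* ℂ) {n N d : ℕ}
    {m : Fin (N + 1) → Fin (n + 1) → ℕ} (hm : Mon n N d m) (hd : 1 ≤ d) {κ : Type}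
    (PF PG : ZbPred K n) (PA P₁ P₂ : ZbPred K N)
    (T : κ → MvPolynomial (Fin (n + 1)) (𝓞 K)) (T' : κ → MvPolynomial (Fin (N + 1)) (𝓞 K))
    (sF : ∀ (Ω : Type) [Field Ω] (τ : K →+* Ω) (c : Ω) (x : Fin (n + 1) → Ω),
      PF Ω τ x → PF Ω τ (c • x))
    (sG : ∀ (Ω : Type) [Field Ω] (τ : K →+* Ω) (c : Ω) (x : Fin (n + 1) → Ω),
      PG Ω τ x → PG Ω τ (c • x))
    (sA : ∀ (Ω : Type) [Field Ω] (τ : K →+* Ω) (c : Ω) (x : Fin (N + 1) → Ω),
      PA Ω τ x → PA Ω τ (c • x))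
    (s₂ : ∀ (Ω : Type) [Field Ω] (τ : K →+* Ω) (c : Ω) (x : Fin (N + 1) → Ω),
      P₂ Ω τ x → P₂ Ω τ (c • x))
    (hFA : ∀ (Ω : Type) [Field Ω] (τ : K →+* Ω) (x : Fin (n + 1) → Ω),
      PF Ω τ x → PA Ω τ (ver m x))
    (v₁ : ∀ (Ω : Type) [Field Ω] (τ : K →+* Ω) (x : Fin (n + 1) → Ω),
      PF Ω τ x → P₁ Ω τ (ver m x))
    (w₁ : ∀ (Ω : Type) [Field Ω] (τ : K →+* Ω) (y : Fin (N + 1) → Ω), y ≠ 0 → P₁ Ω τ y →
      ∃ (x : Fin (n + 1) → Ω) (c : Ω), x ≠ 0 ∧ c ≠ 0 ∧ y = c • ver m x ∧ PF Ω τ x)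
    (v₂ : ∀ (Ω : Type) [Field Ω] (τ : K →+* Ω) (x : Fin (n + 1) → Ω),
      PF Ω τ x → PG Ω τ x → P₂ Ω τ (ver m x))
    (w₂ : ∀ (Ω : Type) [Field Ω] (τ : K →+* Ω) (y : Fin (N + 1) → Ω), y ≠ 0 → P₂ Ω τ y →
      ∃ (x : Fin (n + 1) → Ω) (c : Ω), x ≠ 0 ∧ c ≠ 0 ∧ y = c • ver m x ∧ PG Ω τ x)
    (hlift : ∀ f : ℂ → Fin (N + 1) → ℂ, Differentiable ℂ f → (∀ z, f z ≠ 0) →
      (∀ z, PA ℂ σ (f z)) →
      (∀ z, ∃ k, eval₂ (σ.comp (algebraMap (𝓞 K) K)) (f z) (T' k) ≠ 0) →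
      (¬ ∀ z w, ∃ c : ℂ, f w = c • f z) →
      ∃ F₁ : ℂ → Fin (n + 1) → ℂ, Differentiable ℂ F₁ ∧ (∀ z, F₁ z ≠ 0) ∧
        (∀ z, PF ℂ σ (F₁ z)) ∧ ∀ z, f z = ver m (F₁ z))
    (hT : ∀ (Ω : Type) [Field Ω] (τ : K →+* Ω) (x : Fin (n + 1) → Ω) (c : Ω), c ≠ 0 →
      PF Ω τ x → ((∃ k, eval₂ (τ.comp (algebraMap (𝓞 K) K)) (c • ver m x) (T' k) ≠ 0) ↔
        ∃ k, eval₂ (τ.comp (algebraMap (𝓞 K) K)) x (T k) ≠ 0))
    (hR : ∀ (L : Type) [Field L] [NumberField L] [Algebra K L],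
      ∃ S₀ : Set (HeightOneSpectrum (𝓞 L)), S₀.Finite ∧ ∀ (x : Fin (n + 1) → L) (c : L),
      x ≠ 0 → c ≠ 0 → PF L (algebraMap K L) x → ∀ v ∉ S₀,
        (RedNotIn T' (c • ver m x) v ↔ RedNotIn T x v))
    (h1 : ZbCur σ PA P₁ T' → ZbPts PA P₁ T') :
    (ZbCur σ PF PG T ↔ ZbCur σ PA P₂ T') ∧ (ZbPts PF PG T ↔ ZbPts PA P₂ T') := by
  have hT1 : ∀ (Ω : Type) [Field Ω] (τ : K →+* Ω) (x : Fin (n + 1) → Ω), PF Ω τ x →
      ((∃ k, eval₂ (τ.comp (algebraMap (𝓞 K) K)) (ver m x) (T' k) ≠ 0) ↔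
        ∃ k, eval₂ (τ.comp (algebraMap (𝓞 K) K)) x (T k) ≠ 0) := by
    intro Ω _ τ x hx
    have := hT Ω τ x 1 one_ne_zero hx
    rwa [one_smul] at this
  -- from the image to the equations
  have back : ∀ (Ω : Type) [Field Ω] (τ : K →+* Ω) (x : Fin (n + 1) → Ω), x ≠ 0 →
      P₂ Ω τ (ver m x) → PG Ω τ x := by
    intro Ω _ τ x hx hP
    obtain ⟨x', c, -, -, hxc, hG⟩ := w₂ Ω τ (ver m x) (ver_ne_zero hm hd hx) hP
    obtain ⟨c', hc'⟩ := ver_prop hm hd hx hxc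
    rw [hc']
    exact sG Ω τ c' x' hG
  -- the exceptional set of `A = 0` is contained in the image of `V`
  have hY := h1 (by
    rintro f hf hf0 hfA hfT ⟨z₀, w₀, hnc⟩
    obtain ⟨F₁, -, hF0, hFS, hfF⟩ := hlift f hf hf0 hfA hfT (fun h => by
      obtain ⟨c, hc⟩ := h z₀ w₀
      exact hnc c hc)
    intro z
    rw [hfF z]
    exact v₁ ℂ σ (F₁ z) (hFS z))
  -- curves
  have hcurves : (∀ f : ℂ → Fin (n + 1) → ℂ, Differentiable ℂ f → (∀ z, f z ≠ 0) →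
      (∀ z, PF ℂ σ (f z)) →
      (∀ z, ∃ k, eval₂ (σ.comp (algebraMap (𝓞 K) K)) (f z) (T k) ≠ 0) →
      (∃ z w, ∀ c : ℂ, f w ≠ c • f z) → ∀ z, PG ℂ σ (f z)) ↔
      (∀ f : ℂ → Fin (N + 1) → ℂ, Differentiable ℂ f → (∀ z, f z ≠ 0) →
      (∀ z, PA ℂ σ (f z)) →
      (∀ z, ∃ k, eval₂ (σ.comp (algebraMap (𝓞 K) K)) (f z) (T' k) ≠ 0) →
      (∃ z w, ∀ c : ℂ, f w ≠ c • f z) → ∀ z, P₂ ℂ σ (f z)) := by
    constructor
    · rintro h f hf hf0 hfA hfT ⟨z₀, w₀, hnc⟩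
      obtain ⟨F₁, hF₁, hF0, hFS, hfF⟩ := hlift f hf hf0 hfA hfT (fun h => by
        obtain ⟨c, hc⟩ := h z₀ w₀
        exact hnc c hc)
      have h4 := h F₁ hF₁ hF0 hFS (fun z => (hT1 ℂ σ (F₁ z) (hFS z)).1 (by
          have h5 := hfT z
          rw [hfF z] at h5
          exact h5)) ⟨z₀, w₀, fun c hc => hnc (c ^ d) (by
        rw [hfF, hfF, hc, ver_smul hm])⟩
      intro z
      rw [hfF z]
      exact v₂ ℂ σ (F₁ z) (hFS z) (h4 z)
    · rintro h f hf hf0 hfF hfT ⟨z₀, w₀, hnc⟩ z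
      have h4 := h (fun z => ver m (f z)) (ver_diff hf) (fun z => ver_ne_zero hm hd (hf0 z))
        (fun z => hFA ℂ σ (f z) (hfF z)) (fun z => (hT1 ℂ σ (f z) (hfF z)).2 (hfT z))
        ⟨z₀, w₀, fun c hc => by
            obtain ⟨c', hc'⟩ := ver_prop hm hd (hf0 w₀) hc
            exact hnc c' hc'⟩
      exact back ℂ σ (f z) (hf0 z) (h4 z)
  -- points
  have hpoints : (∀ (L : Type) [Field L] [NumberField L] [Algebra K L]
      (S : Set (HeightOneSpectrum (𝓞 L))), S.Finite →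
      ({P : ℙ L (Fin (n + 1) → L) | PF L (algebraMap K L) P.rep ∧
      (∃ k, eval₂ ((algebraMap K L).comp (algebraMap (𝓞 K) K)) P.rep (T k) ≠ 0) ∧
      ∀ v ∉ S, RedNotIn T P.rep v} \ {P | PG L (algebraMap K L) P.rep}).Finite) ↔
      (∀ (L : Type) [Field L] [NumberField L] [Algebra K L]
      (S : Set (HeightOneSpectrum (𝓞 L))), S.Finite →
      ({P : ℙ L (Fin (N + 1) → L) | PA L (algebraMap K L) P.rep ∧
      (∃ k, eval₂ ((algebraMap K L).comp (algebraMap (𝓞 K) K)) P.rep (T' k) ≠ 0) ∧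
      ∀ v ∉ S, RedNotIn T' P.rep v} \ {P | P₂ L (algebraMap K L) P.rep}).Finite) := by
    constructor
    · intro h L _ _ _ S hS
      obtain ⟨S₀, hS₀, hR⟩ := hR L
      refine ((hY L S hS).union ((h L (S ∪ S₀) (hS.union hS₀)).image (blvp_phi hm hd))).subset ?_
      rintro P ⟨⟨hPA, hPT, hPR⟩, hPq⟩
      by_cases hP1 : P₁ L (algebraMap K L) P.rep
      · right
        obtain ⟨x, c, hx0, hc0, hyx, hxF⟩ := w₁ L (algebraMap K L) P.rep P.rep_nonzero hP1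
        obtain ⟨u, hu⟩ := Projectivization.exists_smul_eq_mk_rep L x hx0
        have hu' : (Projectivization.mk L x hx0).rep = (u : L) • x := hu.symm
        have hub : (u : L) ^ d ≠ 0 := pow_ne_zero _ u.ne_zero
        have hc1 : c * ((u : L) ^ d)⁻¹ ≠ 0 := mul_ne_zero hc0 (inv_ne_zero hub)
        have hrep : P.rep = (c * ((u : L) ^ d)⁻¹) • ver m (Projectivization.mk L x hx0).rep := by
          rw [hu', ver_smul hm, smul_smul, mul_assoc, inv_mul_cancel₀ hub, mul_one, hyx]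
        refine ⟨Projectivization.mk L x hx0, ⟨⟨?_, ?_, ?_⟩, fun hxG => hPq ?_⟩, ?_⟩
        · rw [hu']
          exact sF L _ _ _ hxF
        · rw [hrep] at hPT
          refine (hT L _ _ _ hc1 ?_).1 hPT
          rw [hu']
          exact sF L _ _ _ hxF
        · intro v hv
          rw [Set.mem_union, not_or] at hv
          have h5 := hPR v hv.1
          rw [hrep] at h5
          refine (hR _ _ (Projectivization.rep_nonzero _) hc1 ?_ v hv.2).1 h5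
          rw [hu']
          exact sF L _ _ _ hxF
        · show P₂ L (algebraMap K L) P.rep
          rw [hrep]
          apply s₂
          refine v₂ L _ _ ?_ hxG
          rw [hu']
          exact sF L _ _ _ hxF
        · unfold blvp_phi
          conv_rhs => rw [← P.mk_rep]
          rw [Projectivization.mk_eq_mk_iff']
          refine ⟨(c * ((u : L) ^ d)⁻¹)⁻¹, ?_⟩
          conv_lhs => rw [hrep]
          rw [smul_smul, inv_mul_cancel₀ hc1, one_smul]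
      · left
        exact ⟨⟨hPA, hPT, hPR⟩, hP1⟩
    · intro h L _ _ _ S hS
      obtain ⟨S₀, hS₀, hR⟩ := hR L
      refine Set.Finite.of_finite_image ((h L (S ∪ S₀) (hS.union hS₀)).subset ?_)
        ((blvp_inj hm hd).injOn)
      rintro _ ⟨P, ⟨⟨hPF, hPT, hPR⟩, hPG⟩, rfl⟩
      obtain ⟨u, hu⟩ := Projectivization.exists_smul_eq_mk_rep L (ver m P.rep)
        (ver_ne_zero hm hd P.rep_nonzero)
      have hu' : (blvp_phi hm hd P).rep = (u : L) • ver m P.rep := hu.symm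
      refine ⟨⟨?_, ?_, ?_⟩, fun hq => hPG ?_⟩
      · rw [hu']
        exact sA L _ _ _ (hFA L _ _ hPF)
      · rw [hu']
        exact (hT L _ _ _ u.ne_zero hPF).2 hPT
      · intro v hv
        rw [Set.mem_union, not_or] at hv
        rw [hu']
        exact (hR _ _ P.rep_nonzero u.ne_zero hPF v hv.2).2 (hPR v hv.1)
      · have hq' : P₂ L (algebraMap K L) (blvp_phi hm hd P).rep := hq
        rw [hu'] at hq'
        have h6 := s₂ L _ ((u : L))⁻¹ _ hq'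
        rw [smul_smul, inv_mul_cancel₀ u.ne_zero, one_smul] at h6
        exact back L _ P.rep P.rep_nonzero h6
  exact ⟨hcurves, hpoints⟩


end Pool.Agent.W2helper39.LC
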